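import Pool.Agent.H24.LP.Bern

/-!
# LX Ener

The signed energy. As `energy_hasSum` in LP/Bern: with `θ_i = 2π m x_i`,
`∑_{i,j} cos(θ_i - θ_j) - 2c ∑_i cos θ_i + c² = (∑ cos θ_i - c)² + (∑ sin θ_i)² ≥ 0`; multiply by `1/m²` and sum (`bern_hasSum` at `x_i - x_j`, at `x_i`
and at `0`: `bern 0 = 1/6`). `bern_anti`: `t² - t` is decreasing on `[0, 1/2]`.
-/

namespace Pool.Agent.H24.LX

open Pool.Agent.H24.LP Finset

theorem energy_signed {ι : Type*} (s : Finset ι) (x : ι → ℝ) (c : ℝ) :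
    0 ≤ c ^ 2 / 6 - 2 * c * ∑ i ∈ s, bern ((x i : ℝ) : AddCircle (1 : ℝ))
      + ∑ i ∈ s, ∑ j ∈ s, bern ((x i - x j : ℝ) : AddCircle (1 : ℝ)) := by
  have hA := energy_hasSum s x
  have hB : HasSum (fun m : ℕ => ∑ i ∈ s, (1 / (m : ℝ) ^ 2 * Real.cos (2 * Real.pi * m * x i)))
      (∑ i ∈ s, Real.pi ^ 2 * bern ((x i : ℝ) : AddCircle (1 : ℝ))) :=
    hasSum_sum fun i _ => bern_hasSum (x i)
  have hC := hasSum_zeta_two
  have h := (hA.add (hB.mul_left (-(2 * c)))).add (hC.mul_left (c ^ 2))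
  have h0 := h.nonneg fun m => by
    have e : 1 / (m : ℝ) ^ 2 * ((∑ i ∈ s, Real.cos (2 * Real.pi * m * x i)) ^ 2
          + (∑ i ∈ s, Real.sin (2 * Real.pi * m * x i)) ^ 2)
        + -(2 * c) * (∑ i ∈ s, (1 / (m : ℝ) ^ 2 * Real.cos (2 * Real.pi * m * x i)))
        + c ^ 2 * (1 / (m : ℝ) ^ 2)
        = 1 / (m : ℝ) ^ 2 * ((∑ i ∈ s, Real.cos (2 * Real.pi * m * x i) - c) ^ 2
          + (∑ i ∈ s, Real.sin (2 * Real.pi * m * x i)) ^ 2) := by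
      rw [← Finset.mul_sum]
      ring
    show 0 ≤ 1 / (m : ℝ) ^ 2 * ((∑ i ∈ s, Real.cos (2 * Real.pi * m * x i)) ^ 2
          + (∑ i ∈ s, Real.sin (2 * Real.pi * m * x i)) ^ 2)
        + -(2 * c) * (∑ i ∈ s, (1 / (m : ℝ) ^ 2 * Real.cos (2 * Real.pi * m * x i)))
        + c ^ 2 * (1 / (m : ℝ) ^ 2)
    rw [e]
    positivity
  rw [← Finset.mul_sum] at h0
  have hpi : (0 : ℝ) < Real.pi ^ 2 := by positivity
  refine nonneg_of_mul_nonneg_right (a := Real.pi ^ 2) (le_of_le_of_eq h0 ?_) hpi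
  ring

/-- `B(τ) ≥ B(t)` if `0 ≤ τ ≤ ‖t‖`. -/
theorem bern_anti {τ : ℝ} {t : AddCircle (1 : ℝ)} (h0 : 0 ≤ τ) (h : τ ≤ ‖t‖) :
    bern t ≤ bern ((τ : ℝ) : AddCircle (1 : ℝ)) := by
  have h2 : ‖t‖ ≤ 1 / 2 := by
    have := AddCircle.norm_le_half_period (1 : ℝ) one_ne_zero (x := t)
    rwa [abs_one] at this
  have e : ‖((τ : ℝ) : AddCircle (1 : ℝ))‖ = τ := by
    rw [AddCircle.norm_coe_eq_abs_iff (1 : ℝ) one_ne_zero |>.2
      (by rw [abs_of_nonneg h0, abs_one]; linarith), abs_of_nonneg h0]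
  rw [bern, bern, e]
  nlinarith

/-- The value at `0 ≤ τ ≤ 1/2`. -/
theorem bern_val {τ : ℝ} (h0 : 0 ≤ τ) (h : τ ≤ 1 / 2) :
    bern ((τ : ℝ) : AddCircle (1 : ℝ)) = τ ^ 2 - τ + 1 / 6 := by
  have e : ‖((τ : ℝ) : AddCircle (1 : ℝ))‖ = τ := by
    rw [AddCircle.norm_coe_eq_abs_iff (1 : ℝ) one_ne_zero |>.2
      (by rw [abs_of_nonneg h0, abs_one]; exact h), abs_of_nonneg h0]
  rw [bern, e]

/-- `B(t) = B(|t|)`. -/
theorem bern_abs (t : ℝ) :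
    bern ((t : ℝ) : AddCircle (1 : ℝ)) = bern ((|t| : ℝ) : AddCircle (1 : ℝ)) := by
  rcases abs_choice t with h | h
  · rw [h]
  · rw [h, bern, bern, AddCircle.coe_neg, norm_neg]

end Pool.Agent.H24.LX
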