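import Pool.Agent.H24.LX.Defs
import Pool.Agent.H24.LX.Ener

/-!
# LX Low

The lower bound. `SS P = ∑_{v ∈ places} (log N_v - T_v + T_v²/ν_v)` and `T_v = ν_v τ_v` (`Tv_eq` in LQ/PairS). For `v ∈ mult`: `-T+T²/ν = ν(τ²-τ) = ν(B(τ) - 1/6)`
(`bern_val`, `tau_nonneg`, `tau_le`); for the others `≥ -ν_v⁺/4` (`0` if `T = 0`). `∑ log N_v ≥ ∑ log s_v + ∑ log |Z|_v ≥ ∑ log s_v = (∑ ν_v)/6` (`sum_log_nonneg`,
`sum_log_sv` in LQ/Conv). So `SS P ≥ ∑_{mult} ν B(τ) + ∑_{v ∉ mult} (ν_v/6 - ν_v⁺/4)`, and `ν_v/6 - ν_v⁺/4 ≥ -ν_v⁺ ` at `p`, `≥ -ν⁺ - (log 31)/6` at infinity (`nu_ge`).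
`nup a b v = max 0 ν_v`, `ν_p ≥ 0` (`nu_prime_nonneg`).
-/

namespace Pool.Agent.H24.LX

open Pool.Agent.H24.LP Pool.Agent.H24.LQ Pool.Agent.H24.LR Finset

private lemma Low_ab {a b : ℤ} (hD : D a b ≠ 0) : ¬ ((a : ℚ) = 0 ∧ (b : ℚ) = 0) := by
  rintro ⟨ha, hb⟩
  apply hD
  have ha' : a = 0 := by exact_mod_cast ha
  have hb' : b = 0 := by exact_mod_cast hb
  subst ha' hb'
  simp [D]

/-- `-T + T²/ν = ν (τ² - τ)`. -/
private lemma Low_T {a b : ℤ} (v : ℕ) (P : (curve a b).Point) :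
    -Tv (fv v) a b (thr v) (repX P) (repZ P)
      + Tv (fv v) a b (thr v) (repX P) (repZ P) ^ 2 / nu (fv v) a b
      = nu (fv v) a b * (tau v P ^ 2 - tau v P) := by
  rw [Tv_eq]
  by_cases h : nu (fv v) a b = 0
  · rw [h]; simp
  · field_simp
    ring

private lemma Low_gen {a b : ℤ} (v : ℕ) (P : (curve a b).Point) :
    -(nup a b v) / 4 ≤ nu (fv v) a b * (tau v P ^ 2 - tau v P) := by
  by_cases h : nu (fv v) a b ≤ 0
  · have h1 : nu (fv v) a b ≤ thr v := h.trans (thr_nonneg v)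
    have h2 : tau v P = 0 := by
      unfold tau
      have : Tv (fv v) a b (thr v) (repX P) (repZ P) = 0 := by
        unfold Tv; rw [if_pos h1]
      rw [this, zero_div]
    have h3 : nup a b v = 0 := max_eq_left h
    rw [h2, h3]
    simp
  · have h1 : 0 < nu (fv v) a b := not_le.mp h
    have h3 : nup a b v = nu (fv v) a b := max_eq_right h1.le
    rw [h3]
    nlinarith [mul_nonneg h1.le (sq_nonneg (tau v P - 1 / 2))]

private lemma Low_N {a b : ℤ} (hD : D a b ≠ 0) (v : ℕ) (P : (curve a b).Point)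
    (hZ : repZ P ≠ 0) :
    Real.log (sv (fv v) a b) + Real.log (fv v ((repZ P : ℤ) : ℚ))
      ≤ Real.log (Nv (fv v) a b (repX P) (repZ P)) := by
  have hs : 0 < sv (fv v) a b := sv_pos (fv v) a b (Low_ab hD)
  have hZq : ((repZ P : ℤ) : ℚ) ≠ 0 := by exact_mod_cast hZ
  have hz : 0 < fv v ((repZ P : ℤ) : ℚ) := (fv v).pos hZq
  rw [← Real.log_mul hs.ne' hz.ne']
  exact Real.log_le_log (mul_pos hs hz) (le_max_right _ _)

theorem SS_low : ∃ C : ℝ, 0 ≤ C ∧ ∀ a b : ℤ, D a b ≠ 0 → ∀ P : (curve a b).Point,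
    repZ P ≠ 0 →
    ∑ p ∈ mult a b, nup a b p * bern ((tau p P : ℝ) : AddCircle (1 : ℝ)) - Rst a b - C ≤
      SS P := by
  have hl31 : 0 ≤ Real.log 31 := Real.log_nonneg (by norm_num)
  refine ⟨Real.log 31, hl31, fun a b hD P hZ => ?_⟩
  have hsub := mult_subset hD
  -- the pointwise lower bound
  have h1 : ∑ v ∈ places a b, (nu (fv v) a b / 6 + nu (fv v) a b * (tau v P ^ 2 - tau v P))
      ≤ SS P := by
    have e1 := sum_log_sv hD
    have e2 := sum_log_nonneg a b hZ
    have e3 : ∑ v ∈ places a b, (Real.log (sv (fv v) a b)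
        + Real.log (fv v ((repZ P : ℤ) : ℚ)) + nu (fv v) a b * (tau v P ^ 2 - tau v P)) ≤ SS P := by
      unfold SS
      refine Finset.sum_le_sum fun v _ => ?_
      have e4 := Low_N hD v P hZ
      have e5 := Low_T v P
      unfold Lv
      linarith
    rw [Finset.sum_add_distrib, Finset.sum_add_distrib, e1] at e3
    rw [Finset.sum_add_distrib, ← Finset.sum_div]
    linarith
  -- the places of multiplicative reduction
  have h2 : ∑ p ∈ mult a b, nup a b p * bern ((tau p P : ℝ) : AddCircle (1 : ℝ))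
      = ∑ v ∈ mult a b, (nu (fv v) a b / 6 + nu (fv v) a b * (tau v P ^ 2 - tau v P)) := by
    refine Finset.sum_congr rfl fun v hv => ?_
    have hp := (mem_mult hD hv).1
    have hn : nup a b v = nu (fv v) a b := max_eq_right (nu_prime_nonneg hD hp)
    rw [hn, bern_val (tau_nonneg hD v P) (tau_le hD v P)]
    ring
  -- the other places
  have h3 : -(∑ v ∈ places a b \ mult a b, nup a b v) - Real.log 31 ≤
      ∑ v ∈ places a b \ mult a b,
        (nu (fv v) a b / 6 + nu (fv v) a b * (tau v P ^ 2 - tau v P)) := by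
    have h4 : ∑ v ∈ places a b \ mult a b, (-(nup a b v) - if v = 0 then Real.log 31 else 0) ≤
        ∑ v ∈ places a b \ mult a b,
          (nu (fv v) a b / 6 + nu (fv v) a b * (tau v P ^ 2 - tau v P)) := by
      refine Finset.sum_le_sum fun v hv => ?_
      have g1 := Low_gen v P
      have g2 := nup_nonneg a b v
      rcases mem_places (Finset.mem_sdiff.mp hv).1 with h0 | hp
      · rw [if_pos h0]
        have g3 := nu_ge (fv v) a b (D_cast_ne hD)
        linarith
      · rw [if_neg hp.ne_zero]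
        have g3 := nu_prime_nonneg hD hp
        linarith
    have h5 : ∑ v ∈ places a b \ mult a b, (if v = 0 then Real.log 31 else 0) ≤ Real.log 31 := by
      rw [Finset.sum_ite_eq' (places a b \ mult a b) 0 (fun _ => Real.log 31)]
      split_ifs
      · exact le_rfl
      · exact hl31
    rw [Finset.sum_sub_distrib, Finset.sum_neg_distrib] at h4
    linarith
  have h6 : 0 ≤ ∑ v ∈ (places a b \ mult a b).filter (fun v => 5 ≤ v), 2 * Real.log v := by
    refine Finset.sum_nonneg fun v hv => ?_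
    have h7 : 5 ≤ v := (Finset.mem_filter.mp hv).2
    have h8 : (1 : ℝ) ≤ v := by exact_mod_cast (by omega : 1 ≤ v)
    have h9 := Real.log_nonneg h8
    linarith
  have h7 := Finset.sum_sdiff hsub
    (f := fun v => nu (fv v) a b / 6 + nu (fv v) a b * (tau v P ^ 2 - tau v P))
  rw [h2]
  unfold Rst
  linarith

end Pool.Agent.H24.LX
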