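import Mathlib

/-!
# LX Nd

Two points near a node, identities and the easy cases. `f` a nonarchimedean absolute value of `ℚ` with `f 2 = f 3 = 1`, a curve
`y² = w²(w + 3e) + A w - B` with `f e = 1`, `f A = f B = κ²`, `0 < κ < 1`, and two points `(w, y)`, `(w', y')`, `f w, f w' ≤ 1`, `w ≠ w'`.
`Nm = w w'(w + w' + 6e) + 2 y y' + A(w+w') - 2B` (the numerator of the `w`-coordinate of the difference over `(w-w')²`), `Np` the same with `-2yy'`,
`Cc = (w w' - A)² + 4B(w + w' + 3e)`.
`nd_prod`: `Nm·Np = (w-w')² Cc` (`linear_combination` of the two equations).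
`nd_edge` (one of `f w ≤ κ`, `f w = 1`, `f w' ≤ κ`, `f w' = 1`); with `m = max(f w, κ)`, `m' = max(f w', κ)`, `R = min(m,m')/max(m,m')`. By symmetry
(`Nm` and `(w-w')²` do not change if the two points are exchanged) let one of them be `w` as follows.
(a) `f w = 1`: `m = 1`, `R = m'`. If `f w' ≤ κ`: `R = κ`, trivial. If `κ < f w' < 1`: `f(w-w') = 1`; `f y' = f w'` (`y'² = w'²(w'+3e) + A w' - B`, the first
term has `f = f(w')² > κ²`), `f y ≤ 1`; `f Cc = f(w')²` (`f(ww') = f w' > κ² = f A`, and `f(4B(..)) ≤ κ² < f(w')²`); `f Np ≤ f w'`; so by `nd_prod`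
`f Nm = f(w')²/f Np ≥ f w' = R`. If `f w' = 1`: `f Cc = 1`, `f Np ≤ 1`, `f Nm = f(w-w')²/f Np ≥ f(w-w')²`, `R = 1`.
(b) `f w ≤ κ`, `f w' < 1`: `f y ≤ κ`. If `f w' ≤ κ`: `R = 1`, `f y' ≤ κ`, `f Cc = κ²` (the term `4B·3e`), `f Np ≤ κ²`, so `f Nm ≥ f(w-w')²`.
If `κ < f w' < 1`: `R = κ/f w'`, `f(w-w') = f w'`, `f y' = f w'`, `f Cc = κ²` (`f(ww') < κ`), `f Np ≤ κ f w'`, so `f Nm ≥ κ f w'`, and
`f Nm/f(w-w')² ≥ κ/f w'`.
-/

namespace Pool.Agent.H24.LX

/-- The numerator for the difference. -/
def Nm (e A B w y w' y' : ℚ) : ℚ := w * w' * (w + w' + 6 * e) + 2 * y * y' + A * (w + w') - 2 * B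

/-- The numerator for the sum. -/
def Np (e A B w y w' y' : ℚ) : ℚ := w * w' * (w + w' + 6 * e) - 2 * y * y' + A * (w + w') - 2 * B

/-- The cofactor. -/
def Cc (e A B w w' : ℚ) : ℚ := (w * w' - A) ^ 2 + 4 * B * (w + w' + 3 * e)

theorem nd_prod {e A B w y w' y' : ℚ} (hy : y ^ 2 = w ^ 2 * (w + 3 * e) + A * w - B)
    (hy' : y' ^ 2 = w' ^ 2 * (w' + 3 * e) + A * w' - B) :
    Nm e A B w y w' y' * Np e A B w y w' y' = (w - w') ^ 2 * Cc e A B w w' := by
  unfold Nm Np Cc
  linear_combination (-4 * y' ^ 2) * hy + (-4 * (w ^ 2 * (w + 3 * e) + A * w - B)) * hy'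

private lemma na_add {f : AbsoluteValue ℚ ℝ} (hna : IsNonarchimedean f) {x y : ℚ} {c : ℝ}
    (hx : f x ≤ c) (hy : f y ≤ c) : f (x + y) ≤ c :=
  (hna x y).trans (max_le hx hy)

private lemma na_sub {f : AbsoluteValue ℚ ℝ} (hna : IsNonarchimedean f) {x y : ℚ} {c : ℝ}
    (hx : f x ≤ c) (hy : f y ≤ c) : f (x - y) ≤ c := by
  rw [sub_eq_add_neg]
  exact na_add hna hx (by rw [f.map_neg]; exact hy)

private lemma na_add_eq {f : AbsoluteValue ℚ ℝ} (hna : IsNonarchimedean f) {x y : ℚ} {c : ℝ}
    (hx : f x = c) (hy : f y < c) : f (x + y) = c := by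
  refine le_antisymm (na_add hna hx.le hy.le) ?_
  by_contra hcon
  have hlt : f (x + y) < c := not_le.mp hcon
  have h1 : f x ≤ max (f (x + y)) (f y) := by
    have h2 := hna (x + y) (-y)
    rw [f.map_neg] at h2
    have h3 : x + y + -y = x := by ring
    rw [h3] at h2
    exact h2
  have h4 : max (f (x + y)) (f y) < c := max_lt hlt hy
  rw [hx] at h1
  exact absurd h1 (not_le.mpr h4)

private lemma na_sub_eq {f : AbsoluteValue ℚ ℝ} (hna : IsNonarchimedean f) {x y : ℚ} {c : ℝ}
    (hx : f x = c) (hy : f y < c) : f (x - y) = c := by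
  rw [sub_eq_add_neg]
  exact na_add_eq hna hx (by rw [f.map_neg]; exact hy)

private lemma na_sub_eq' {f : AbsoluteValue ℚ ℝ} (hna : IsNonarchimedean f) {x y : ℚ} {c : ℝ}
    (hx : f x < c) (hy : f y = c) : f (x - y) = c := by
  rw [f.map_sub]
  exact na_sub_eq hna hy hx

/-- From `n p = P`, `p ≤ q`, `P > 0` to `P ≤ n q`. -/
private lemma prod_low {n p P q : ℝ} (hn : 0 ≤ n) (hP : n * p = P) (hpq : p ≤ q) : P ≤ n * q := by
  rw [← hP]; exact mul_le_mul_of_nonneg_left hpq hn

private lemma sq_le_of {x c : ℝ} (hc : 0 ≤ c) (h : x ^ 2 ≤ c ^ 2) : x ≤ c :=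
  le_of_sq_le_sq h hc

/-- The case where one point is deep or far from the node. -/
private lemma edge_core (f : AbsoluteValue ℚ ℝ) (hna : IsNonarchimedean f) (h2 : f 2 = 1)
    (h3 : f 3 = 1) {κ : ℝ} (hκ0 : 0 < κ) (hκ1 : κ < 1) {e A B w y w' y' : ℚ} (he : f e = 1)
    (hA : f A = κ ^ 2) (hB : f B = κ ^ 2) (hw : f w ≤ 1) (hw' : f w' ≤ 1)
    (hy : y ^ 2 = w ^ 2 * (w + 3 * e) + A * w - B)
    (hy' : y' ^ 2 = w' ^ 2 * (w' + 3 * e) + A * w' - B) (hne : w ≠ w')
    (h : f w ≤ κ ∨ f w = 1) :
    min (max (f w) κ) (max (f w') κ) / max (max (f w) κ) (max (f w') κ) ≤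
      max (min 1 (f (Nm e A B w y w' y') / f (w - w') ^ 2)) κ := by
  have hκ2 : κ ^ 2 < κ := by nlinarith
  have hκ2p : 0 < κ ^ 2 := by positivity
  have ha0 : 0 ≤ f w := f.nonneg w
  have hb0 : 0 ≤ f w' := f.nonneg w'
  have h3e : f (3 * e) = 1 := by rw [f.map_mul, h3, he, one_mul]
  have h6e : f (6 * e) = 1 := by
    have h6 : (6 : ℚ) * e = 2 * (3 * e) := by ring
    rw [h6, f.map_mul, h2, h3e, one_mul]
  have h4B : f (4 * B) = κ ^ 2 := by
    have h4 : (4 : ℚ) * B = 2 * (2 * B) := by ring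
    rw [h4, f.map_mul, f.map_mul, h2, hB, one_mul, one_mul]
  have h2B : f (2 * B) = κ ^ 2 := by rw [f.map_mul, h2, hB, one_mul]
  have hDpos : 0 < f (w - w') := f.pos (sub_ne_zero.mpr hne)
  have hD2 : 0 < f (w - w') ^ 2 := by positivity
  have hprod : f (Nm e A B w y w' y') * f (Np e A B w y w' y')
      = f (w - w') ^ 2 * f (Cc e A B w w') := by
    rw [← f.map_mul, nd_prod hy hy', f.map_mul, f.map_pow]
  have hN0 : 0 ≤ f (Nm e A B w y w' y') := f.nonneg _
  -- the general form of an upper bound for the second numerator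
  have hNp : ∀ c : ℝ, f w * f w' ≤ c → f y * f y' ≤ c → κ ^ 2 ≤ c →
      f (Np e A B w y w' y') ≤ c := by
    intro c h1 h2' h3'
    unfold Np
    have t1 : f (w * w' * (w + w' + 6 * e)) ≤ c := by
      rw [f.map_mul, f.map_mul]
      have hs : f (w + w' + 6 * e) ≤ 1 := na_add hna (na_add hna hw hw') h6e.le
      have hn : 0 ≤ f w * f w' := mul_nonneg ha0 hb0
      calc f w * f w' * f (w + w' + 6 * e) ≤ f w * f w' * 1 :=
            mul_le_mul_of_nonneg_left hs hn
        _ ≤ c := by rw [mul_one]; exact h1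
    have t2 : f (2 * y * y') ≤ c := by
      rw [f.map_mul, f.map_mul, h2, one_mul]; exact h2'
    have t3 : f (A * (w + w')) ≤ c := by
      rw [f.map_mul, hA]
      have hs : f (w + w') ≤ 1 := na_add hna hw hw'
      calc κ ^ 2 * f (w + w') ≤ κ ^ 2 * 1 := mul_le_mul_of_nonneg_left hs hκ2p.le
        _ ≤ c := by rw [mul_one]; exact h3'
    have t4 : f (2 * B) ≤ c := by rw [h2B]; exact h3'
    exact na_sub hna (na_add hna (na_sub hna t1 t2) t3) t4
  -- a general upper bound for the ordinate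
  have hyle : ∀ (v z : ℚ) (c : ℝ), z ^ 2 = v ^ 2 * (v + 3 * e) + A * v - B → f v ≤ 1 → f v ≤ c →
      κ ≤ c → f z ≤ c := by
    intro v z c hz hv1 hvc hκc
    have hc0 : 0 ≤ c := hκ0.le.trans hκc
    have hκc2 : κ ^ 2 ≤ c ^ 2 := pow_le_pow_left₀ hκ0.le hκc 2
    have hv0 : 0 ≤ f v := f.nonneg v
    have hz2 : f z ^ 2 ≤ c ^ 2 := by
      rw [← f.map_pow, hz]
      have t1 : f (v ^ 2 * (v + 3 * e)) ≤ c ^ 2 := by
        rw [f.map_mul, f.map_pow]
        have hs : f (v + 3 * e) ≤ 1 := na_add hna hv1 h3e.le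
        have hv2 : f v ^ 2 ≤ c ^ 2 := pow_le_pow_left₀ hv0 hvc 2
        calc f v ^ 2 * f (v + 3 * e) ≤ f v ^ 2 * 1 :=
              mul_le_mul_of_nonneg_left hs (by positivity)
          _ ≤ c ^ 2 := by rw [mul_one]; exact hv2
      have t2 : f (A * v) ≤ c ^ 2 := by
        rw [f.map_mul, hA]
        calc κ ^ 2 * f v ≤ κ ^ 2 * 1 := mul_le_mul_of_nonneg_left hv1 hκ2p.le
          _ ≤ c ^ 2 := by rw [mul_one]; exact hκc2
      have t3 : f B ≤ c ^ 2 := by rw [hB]; exact hκc2
      exact na_sub hna (na_add hna t1 t2) t3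
    exact sq_le_of hc0 hz2
  rcases lt_or_eq_of_le hw' with hb1 | hb1
  · -- `f w' < 1`
    rcases le_or_gt (f w') κ with hbκ | hbκ
    · -- `f w' ≤ κ`
      rcases h with hak | ha1
      · -- both deep
        have hm : max (f w) κ = κ := max_eq_right hak
        have hm' : max (f w') κ = κ := max_eq_right hbκ
        rw [hm, hm', min_self, max_self, div_self hκ0.ne']
        have hya : f y ≤ κ := hyle w y κ hy hw hak le_rfl
        have hyb : f y' ≤ κ := hyle w' y' κ hy' hw' hbκ le_rfl
        have hC : f (Cc e A B w w') = κ ^ 2 := by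
          unfold Cc
          rw [add_comm]
          refine na_add_eq hna ?_ ?_
          · rw [f.map_mul, h4B, add_comm (w + w')]
            rw [na_add_eq hna h3e ((na_add hna hak hbκ).trans_lt hκ1), mul_one]
          · rw [f.map_pow]
            have t1 : f (w * w' - A) ≤ κ ^ 2 := by
              refine na_sub hna ?_ hA.le
              rw [f.map_mul, sq]
              exact mul_le_mul hak hbκ hb0 hκ0.le
            have t2 : f (w * w' - A) ^ 2 ≤ (κ ^ 2) ^ 2 :=
              pow_le_pow_left₀ (f.nonneg _) t1 2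
            have t3 : (κ ^ 2) ^ 2 < κ ^ 2 := by nlinarith
            exact t2.trans_lt t3
        have hp : f (Np e A B w y w' y') ≤ κ ^ 2 := by
          refine hNp _ ?_ ?_ le_rfl
          · rw [sq]; exact mul_le_mul hak hbκ hb0 hκ0.le
          · rw [sq]; exact mul_le_mul hya hyb (f.nonneg _) hκ0.le
        have hfin := prod_low hN0 hprod hp
        rw [hC] at hfin
        have h1 : f (w - w') ^ 2 ≤ f (Nm e A B w y w' y') := le_of_mul_le_mul_right hfin hκ2p
        refine le_max_of_le_left (le_min le_rfl ?_)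
        rw [le_div_iff₀ hD2, one_mul]
        exact h1
      · -- one far, one deep: trivial
        have hm : max (f w) κ = 1 := by rw [ha1]; exact max_eq_left hκ1.le
        have hm' : max (f w') κ = κ := max_eq_right hbκ
        rw [hm, hm', min_eq_right hκ1.le, max_eq_left hκ1.le, div_one]
        exact le_max_right _ _
    · -- `κ < f w' < 1`
      have hb0' : 0 < f w' := hκ0.trans hbκ
      have hκb2 : κ ^ 2 < f w' ^ 2 := by nlinarith
      have hyb : f y' ≤ f w' := hyle w' y' (f w') hy' hw' le_rfl hbκ.le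
      rcases h with hak | ha1
      · -- `f w ≤ κ`
        have hm : max (f w) κ = κ := max_eq_right hak
        have hm' : max (f w') κ = f w' := max_eq_left hbκ.le
        rw [hm, hm', min_eq_left hbκ.le, max_eq_right hbκ.le]
        have hya : f y ≤ κ := hyle w y κ hy hw hak le_rfl
        have hDb : f (w - w') = f w' := na_sub_eq' hna (hak.trans_lt hbκ) rfl
        have hC : f (Cc e A B w w') = κ ^ 2 := by
          unfold Cc
          rw [add_comm]
          refine na_add_eq hna ?_ ?_
          · rw [f.map_mul, h4B, add_comm (w + w')]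
            rw [na_add_eq hna h3e ((na_add hna (hak.trans hbκ.le) le_rfl).trans_lt hb1), mul_one]
          · rw [f.map_pow]
            have t1 : f (w * w' - A) ≤ κ * f w' := by
              refine na_sub hna ?_ ?_
              · rw [f.map_mul]
                exact mul_le_mul_of_nonneg_right hak hb0
              · rw [hA, sq]
                exact mul_le_mul_of_nonneg_left hbκ.le hκ0.le
            have t2 : f (w * w' - A) ^ 2 ≤ (κ * f w') ^ 2 :=
              pow_le_pow_left₀ (f.nonneg _) t1 2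
            have t3 : (κ * f w') ^ 2 < κ ^ 2 := by
              have t4 : f w' ^ 2 < 1 := by nlinarith
              rw [mul_pow]
              nlinarith
            exact t2.trans_lt t3
        have hp : f (Np e A B w y w' y') ≤ κ * f w' := by
          refine hNp _ ?_ ?_ ?_
          · exact mul_le_mul_of_nonneg_right hak hb0
          · exact mul_le_mul hya hyb (f.nonneg _) hκ0.le
          · rw [sq]; exact mul_le_mul_of_nonneg_left hbκ.le hκ0.le
        have hfin := prod_low hN0 hprod hp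
        rw [hC, hDb] at hfin
        have h1 : κ * f w' ≤ f (Nm e A B w y w' y') := by
          have hpos : 0 < κ * f w' := mul_pos hκ0 hb0'
          refine le_of_mul_le_mul_right ?_ hpos
          calc κ * f w' * (κ * f w') = f w' ^ 2 * κ ^ 2 := by ring
            _ ≤ _ := hfin
        refine le_max_of_le_left (le_min ?_ ?_)
        · rw [div_le_one hb0']; exact hbκ.le
        · rw [hDb, div_le_div_iff₀ hb0' (by positivity)]
          calc κ * f w' ^ 2 = κ * f w' * f w' := by ring
            _ ≤ f (Nm e A B w y w' y') * f w' := mul_le_mul_of_nonneg_right h1 hb0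
      · -- `f w = 1`
        have hm : max (f w) κ = 1 := by rw [ha1]; exact max_eq_left hκ1.le
        have hm' : max (f w') κ = f w' := max_eq_left hbκ.le
        rw [hm, hm', min_eq_right hb1.le, max_eq_left hb1.le, div_one]
        have hya : f y ≤ 1 := hyle w y 1 hy hw hw hκ1.le
        have hDb : f (w - w') = 1 := na_sub_eq hna ha1 hb1
        have hκb : κ ^ 2 < f w' := hκ2.trans hbκ
        have hC : f (Cc e A B w w') = f w' ^ 2 := by
          unfold Cc
          refine na_add_eq hna ?_ ?_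
          · rw [f.map_pow]
            have t1 : f (w * w' - A) = f w' := by
              refine na_sub_eq hna ?_ ?_
              · rw [f.map_mul, ha1, one_mul]
              · rw [hA]; exact hκb
            rw [t1]
          · rw [f.map_mul, h4B]
            have hs : f (w + w' + 3 * e) ≤ 1 := na_add hna (na_add hna hw hw') h3e.le
            calc κ ^ 2 * f (w + w' + 3 * e) ≤ κ ^ 2 * 1 :=
                  mul_le_mul_of_nonneg_left hs hκ2p.le
              _ < f w' ^ 2 := by rw [mul_one]; exact hκb2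
        have hp : f (Np e A B w y w' y') ≤ f w' := by
          refine hNp _ ?_ ?_ hκb.le
          · rw [ha1, one_mul]
          · calc f y * f y' ≤ 1 * f w' := mul_le_mul hya hyb (f.nonneg _) zero_le_one
              _ = f w' := one_mul _
        have hfin := prod_low hN0 hprod hp
        rw [hC, hDb, one_pow, one_mul, sq] at hfin
        have h1 : f w' ≤ f (Nm e A B w y w' y') := le_of_mul_le_mul_right hfin hb0'
        refine le_max_of_le_left (le_min hb1.le ?_)
        rw [hDb, one_pow, div_one]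
        exact h1
  · -- `f w' = 1`
    rcases h with hak | ha1
    · have hm : max (f w) κ = κ := max_eq_right hak
      have hm' : max (f w') κ = 1 := by rw [hb1]; exact max_eq_left hκ1.le
      rw [hm, hm', min_eq_left hκ1.le, max_eq_right hκ1.le, div_one]
      exact le_max_right _ _
    · have hm : max (f w) κ = 1 := by rw [ha1]; exact max_eq_left hκ1.le
      have hm' : max (f w') κ = 1 := by rw [hb1]; exact max_eq_left hκ1.le
      rw [hm, hm', min_self, max_self, div_one]
      have hya : f y ≤ 1 := hyle w y 1 hy hw hw hκ1.le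
      have hyb : f y' ≤ 1 := hyle w' y' 1 hy' hw' hw' hκ1.le
      have hκ21 : κ ^ 2 < 1 := hκ2.trans hκ1
      have hC : f (Cc e A B w w') = 1 := by
        unfold Cc
        refine na_add_eq hna ?_ ?_
        · rw [f.map_pow]
          have t1 : f (w * w' - A) = 1 := by
            refine na_sub_eq hna ?_ ?_
            · rw [f.map_mul, ha1, hb1, one_mul]
            · rw [hA]; exact hκ21
          rw [t1, one_pow]
        · rw [f.map_mul, h4B]
          have hs : f (w + w' + 3 * e) ≤ 1 := na_add hna (na_add hna hw hw') h3e.le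
          calc κ ^ 2 * f (w + w' + 3 * e) ≤ κ ^ 2 * 1 :=
                mul_le_mul_of_nonneg_left hs hκ2p.le
            _ < 1 := by rw [mul_one]; exact hκ21
      have hp : f (Np e A B w y w' y') ≤ 1 := by
        refine hNp _ ?_ ?_ hκ21.le
        · rw [ha1, hb1, one_mul]
        · calc f y * f y' ≤ 1 * 1 := mul_le_mul hya hyb (f.nonneg _) zero_le_one
            _ = 1 := one_mul _
      have hfin := prod_low hN0 hprod hp
      rw [hC, mul_one, mul_one] at hfin
      refine le_max_of_le_left (le_min le_rfl ?_)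
      rw [le_div_iff₀ hD2, one_mul]
      exact hfin

theorem nd_edge (f : AbsoluteValue ℚ ℝ) (hna : IsNonarchimedean f) (h2 : f 2 = 1) (h3 : f 3 = 1)
    {κ : ℝ} (hκ0 : 0 < κ) (hκ1 : κ < 1) {e A B w y w' y' : ℚ} (he : f e = 1) (hA : f A = κ ^ 2)
    (hB : f B = κ ^ 2) (hw : f w ≤ 1) (hw' : f w' ≤ 1)
    (hy : y ^ 2 = w ^ 2 * (w + 3 * e) + A * w - B)
    (hy' : y' ^ 2 = w' ^ 2 * (w' + 3 * e) + A * w' - B) (hne : w ≠ w')
    (h : f w ≤ κ ∨ f w = 1 ∨ f w' ≤ κ ∨ f w' = 1) :
    min (max (f w) κ) (max (f w') κ) / max (max (f w) κ) (max (f w') κ) ≤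
      max (min 1 (f (Nm e A B w y w' y') / f (w - w') ^ 2)) κ := by
  have hsym : (f w' ≤ κ ∨ f w' = 1) →
      min (max (f w) κ) (max (f w') κ) / max (max (f w) κ) (max (f w') κ) ≤
        max (min 1 (f (Nm e A B w y w' y') / f (w - w') ^ 2)) κ := by
    intro h'
    have hc := edge_core f hna h2 h3 hκ0 hκ1 he hA hB hw' hw hy' hy hne.symm h'
    have hN : Nm e A B w' y' w y = Nm e A B w y w' y' := by unfold Nm; ring
    rw [hN, f.map_sub w' w, min_comm (max (f w') κ), max_comm (max (f w') κ)] at hc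
    exact hc
  rcases h with h | h | h | h
  · exact edge_core f hna h2 h3 hκ0 hκ1 he hA hB hw hw' hy hy' hne (Or.inl h)
  · exact edge_core f hna h2 h3 hκ0 hκ1 he hA hB hw hw' hy hy' hne (Or.inr h)
  · exact hsym (Or.inl h)
  · exact hsym (Or.inr h)

end Pool.Agent.H24.LX
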