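import Pool.Agent.H24.LX.Defs
import Pool.Agent.H24.LX.Nd
import Pool.Agent.H24.LW.ModQ

/-!
# LX Df

The multiplicative primes and the difference of two integral points. `p ∈ mult`: `p ∤ a`, `p ∣ D` and `27b² = D - 4a³`, so `p ∤ b`; `f a = f b = 1`, `s = 1`,
`κ² = f D < 1` (`kap_sq` in LQ/Basic). `e = -3b/(2a)`, `A = D/(4a²)`, `B = bD/(8a³)`, `w(x) = x - e = wv a b x 1`; `y² = w²(w+3e) + A w - B` (`field_simp; ring`).
`mult_M`: for an integral point `N = 1`, `M = max(f w, κ)`.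
`diff_M`: `T = P - P'`, `x(T) = ((y+y')/(x-x'))² - x - x'` (see LW/ModQ or LR/Est for the coordinates), so with `X = repX T`, `Z = repZ T`:
`(X - eZ)(w-w')² = Z·Nm`. `X, Z` coprime, `N(T) = 1`. If `f Z = 1`: `f(X-eZ) = f Nm/f(w-w')²`; if `f Z < 1`: `f X = 1`, `f(X - eZ) = 1`. So
`M(T) = max(min(f(X-eZ), 1), κ) ≥ max(min(1, f Nm/f(w-w')²), κ)` in both cases.
-/

namespace Pool.Agent.H24.LX

open Pool.Agent.H24.LP Pool.Agent.H24.LQ Pool.Agent.H24.LR Finset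

/-- The node. -/
def en (a b : ℤ) : ℚ := -(3 * (b : ℚ)) / (2 * a)

/-- `A = D/(4a²)`. -/
def An (a b : ℤ) : ℚ := (4 * (a : ℚ) ^ 3 + 27 * (b : ℚ) ^ 2) / (4 * (a : ℚ) ^ 2)

/-- `B = bD/(8a³)`. -/
def Bn (a b : ℤ) : ℚ := (b : ℚ) * (4 * (a : ℚ) ^ 3 + 27 * (b : ℚ) ^ 2) / (8 * (a : ℚ) ^ 3)

private lemma df_fv_one {p : ℕ} (hp : p.Prime) {n : ℤ} (hn : ¬ (p : ℤ) ∣ n) :
    fv p n = 1 := by
  have h0 : n ≠ 0 := by
    rintro rfl
    exact hn (dvd_zero _)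
  rw [fv_int hp h0, Nat.factorization_eq_zero_of_not_dvd, pow_zero, inv_one]
  intro h
  exact hn (Int.natCast_dvd.mpr h)

private lemma df_fv_lt {p : ℕ} (hp : p.Prime) {n : ℤ} (h0 : n ≠ 0) (hn : (p : ℤ) ∣ n) :
    fv p n < 1 := by
  rw [fv_int hp h0]
  have h1 : 0 < n.natAbs.factorization p :=
    hp.factorization_pos_of_dvd (Int.natAbs_ne_zero.mpr h0) (Int.natCast_dvd.mp hn)
  have h2 : (1 : ℝ) < (p : ℝ) := by exact_mod_cast hp.one_lt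
  exact inv_lt_one_of_one_lt₀ (one_lt_pow₀ h2 h1.ne')

theorem mult_facts {a b : ℤ} (hD : D a b ≠ 0) {p : ℕ} (hp : p ∈ mult a b) :
    fv p a = 1 ∧ fv p b = 1 ∧ sv (fv p) a b = 1 ∧ 0 < kap (fv p) a b ∧ kap (fv p) a b < 1 ∧
      fv p (en a b) = 1 ∧ fv p (An a b) = kap (fv p) a b ^ 2 ∧
      fv p (Bn a b) = kap (fv p) a b ^ 2 ∧ 0 < nu (fv p) a b := by
  obtain ⟨hpp, h5, -, hpD, hpa⟩ := mem_mult hD hp
  have hfa : fv p (a : ℚ) = 1 := df_fv_one hpp hpa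
  have hpb : ¬ (p : ℤ) ∣ b := by
    intro h
    have h1 : (p : ℤ) ∣ 4 * a ^ 3 := by
      have e : 4 * a ^ 3 = D a b - 27 * b ^ 2 := by
        unfold D
        ring
      rw [e]
      exact dvd_sub hpD (Dvd.dvd.mul_left (Dvd.dvd.pow h two_ne_zero) _)
    have hP := Nat.prime_iff_prime_int.mp hpp
    rcases hP.dvd_or_dvd h1 with h2 | h2
    · have h3 : (p : ℤ) ≤ 4 := Int.le_of_dvd (by norm_num) h2
      omega
    · exact hpa (hP.dvd_of_dvd_pow h2)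
  have hfb : fv p (b : ℚ) = 1 := df_fv_one hpp hpb
  have hs : sv (fv p) (a : ℚ) (b : ℚ) = 1 := by
    unfold sv
    rw [hfa, hfb]
    simp
  have hDq := D_cast_ne hD
  have hk := kap_sq (fv p) (a : ℚ) (b : ℚ) hDq
  have hDc : (4 * (a : ℚ) ^ 3 + 27 * (b : ℚ) ^ 2) = ((D a b : ℤ) : ℚ) := by
    unfold D
    push_cast
    ring
  have hfD1 : fv p (4 * (a : ℚ) ^ 3 + 27 * (b : ℚ) ^ 2) < 1 := by
    rw [hDc]
    exact df_fv_lt hpp hD hpD
  have hfD0 : 0 < fv p (4 * (a : ℚ) ^ 3 + 27 * (b : ℚ) ^ 2) := (fv p).pos hDq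
  rw [hs, one_pow, div_one] at hk
  have hk0 : 0 < kap (fv p) (a : ℚ) (b : ℚ) := Real.exp_pos _
  have hk1 : kap (fv p) (a : ℚ) (b : ℚ) < 1 := by
    by_contra h
    have h6 := one_le_pow₀ (not_lt.mp h) (n := 2)
    linarith
  have h2 := fv_two_eq hpp h5
  have h3 := fv_three_eq hpp h5
  have h4 : fv p 4 = 1 := by
    have e : (4 : ℚ) = 2 * 2 := by norm_num
    rw [e, map_mul, h2, mul_one]
  have h8 : fv p 8 = 1 := by
    have e : (8 : ℚ) = 2 * 2 * 2 := by norm_num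
    rw [e, map_mul, map_mul, h2, mul_one, mul_one]
  refine ⟨hfa, hfb, hs, hk0, hk1, ?_, ?_, ?_, ?_⟩
  · unfold en
    rw [map_div₀, map_mul (fv p) 2, (fv p).map_neg, map_mul, h2, h3, hfa, hfb]
    norm_num
  · unfold An
    rw [map_div₀, map_mul (fv p) 4, map_pow (fv p) (a : ℚ) 2, h4, hfa, hk]
    norm_num
  · unfold Bn
    rw [map_div₀, map_mul (fv p) 8, map_pow (fv p) (a : ℚ) 3, map_mul (fv p) (b : ℚ), h8, hfa,
      hfb, hk]
    norm_num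
  · unfold nu
    rw [hs, one_pow]
    exact Real.log_pos (one_lt_one_div hfD0 hfD1)

theorem node_eq {a b : ℤ} (ha : a ≠ 0) {z : ℤ × ℤ} (hz : z ∈ integralPoints a b) :
    (z.2 : ℚ) ^ 2 = ((z.1 : ℚ) - en a b) ^ 2 * (((z.1 : ℚ) - en a b) + 3 * en a b)
      + An a b * ((z.1 : ℚ) - en a b) - Bn a b := by
  have ha' : (a : ℚ) ≠ 0 := by exact_mod_cast ha
  have h : z.2 ^ 2 = z.1 ^ 3 + a * z.1 + b := hz
  have h' : ((z.2 ^ 2 : ℤ) : ℚ) = ((z.1 ^ 3 + a * z.1 + b : ℤ) : ℚ) := by rw [h]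
  push_cast at h'
  rw [h']
  unfold en An Bn
  field_simp
  ring

/-- The node coordinate. -/
private lemma df_wv (a b : ℤ) (X Z : ℚ) : wv (a : ℚ) (b : ℚ) X Z = X - en a b * Z := by
  unfold wv en
  rw [neg_div, neg_mul, sub_neg_eq_add]

theorem mult_M {a b : ℤ} (hD : D a b ≠ 0) {p : ℕ} (hp : p ∈ mult a b) {z : ℤ × ℤ}
    (hz : z ∈ integralPoints a b) :
    fv p ((z.1 : ℚ) - en a b) ≤ 1 ∧
    Nv (fv p) a b (repX (toPt hD z)) (repZ (toPt hD z)) = 1 ∧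
    Mv (fv p) a b (repX (toPt hD z)) (repZ (toPt hD z)) =
      max (fv p ((z.1 : ℚ) - en a b)) (kap (fv p) a b) := by
  obtain ⟨hpp, -⟩ := mem_mult hD hp
  obtain ⟨-, -, hs, hk0, hk1, he, -⟩ := mult_facts hD hp
  have hna := fv_nonarch hpp
  have hx : fv p (z.1 : ℚ) ≤ 1 := fv_int_le hpp z.1
  have h1 : fv p ((z.1 : ℚ) - en a b) ≤ 1 := by
    rw [sub_eq_add_neg]
    refine (hna _ _).trans (max_le hx ?_)
    rw [(fv p).map_neg, he]
  have hN : Nv (fv p) a b (repX (toPt hD z)) (repZ (toPt hD z)) = 1 := by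
    unfold Nv
    rw [hs, repX_toPt hD hz, repZ_toPt hD hz, Int.cast_one, map_one, one_mul]
    exact max_eq_right hx
  refine ⟨h1, hN, ?_⟩
  unfold Mv
  rw [hN, df_wv, repX_toPt hD hz, repZ_toPt hD hz, Int.cast_one, mul_one, mul_one,
    min_eq_left h1]

private lemma df_rat {u : ℚ} {x x₀ y y₀ : ℤ} (hne : x ≠ x₀)
    (hu : u = (((y : ℚ) + y₀) / (x - x₀)) ^ 2 - x - x₀) :
    u.num * (x - x₀) ^ 2 = (u.den : ℤ) * ((y + y₀) ^ 2 - (x + x₀) * (x - x₀) ^ 2) := by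
  have hneQ : (x : ℚ) ≠ (x₀ : ℚ) := by exact_mod_cast hne
  have hx : (x : ℚ) - x₀ ≠ 0 := sub_ne_zero.mpr hneQ
  have h1 : (u.num : ℚ) = u * u.den := (Rat.mul_den_eq_num u).symm
  have h2 : u * ((x : ℚ) - x₀) ^ 2 =
      ((y : ℚ) + y₀) ^ 2 - (x + x₀) * (x - x₀) ^ 2 := by
    have e : (((y : ℚ) + y₀) / (x - x₀)) ^ 2 * ((x : ℚ) - x₀) ^ 2 = ((y : ℚ) + y₀) ^ 2 := by
      rw [← mul_pow, div_mul_cancel₀ _ hx]
    rw [hu]
    linear_combination e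
  have h3 : (u.num : ℚ) * ((x : ℚ) - x₀) ^ 2 =
      (u.den : ℚ) * (((y : ℚ) + y₀) ^ 2 - (x + x₀) * (x - x₀) ^ 2) := by
    rw [h1, ← h2]
    ring
  exact_mod_cast h3

/-- The coordinates of the difference. -/
private lemma df_rep {a b : ℤ} (hD : D a b ≠ 0) {z z₀ : ℤ × ℤ} (hz : z ∈ integralPoints a b)
    (hz₀ : z₀ ∈ integralPoints a b) (hne : z.1 ≠ z₀.1) :
    repX (toPt hD z - toPt hD z₀) * (z.1 - z₀.1) ^ 2 = repZ (toPt hD z - toPt hD z₀) *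
      ((z.2 + z₀.2) ^ 2 - (z.1 + z₀.1) * (z.1 - z₀.1) ^ 2) ∧
    IsCoprime (repX (toPt hD z - toPt hD z₀)) (repZ (toPt hD z - toPt hD z₀)) := by
  have hneQ : (z.1 : ℚ) ≠ (z₀.1 : ℚ) := by exact_mod_cast hne
  have hz1 : z.2 ^ 2 = z.1 ^ 3 + a * z.1 + b := hz
  have hz1₀ : z₀.2 ^ 2 = z₀.1 ^ 3 + a * z₀.1 + b := hz₀
  have hu' : (curve a b).addX (z.1 : ℚ) (z₀.1 : ℚ) ((curve a b).slope (z.1 : ℚ) (z₀.1 : ℚ)
      (z.2 : ℚ) ((curve a b).negY (z₀.1 : ℚ) (z₀.2 : ℚ))) =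
      (((z.2 : ℚ) + z₀.2) / (z.1 - z₀.1)) ^ 2 - z.1 - z₀.1 := by
    rw [WeierstrassCurve.Affine.slope_of_X_ne hneQ]
    simp only [WeierstrassCurve.Affine.addX, WeierstrassCurve.Affine.negY, curve]
    ring
  rw [toPt_eq hD hz1, toPt_eq hD hz1₀, sub_eq_add_neg, WeierstrassCurve.Affine.Point.neg_some,
    WeierstrassCurve.Affine.Point.add_of_X_ne hneQ]
  simp only [repX, repZ]
  exact ⟨df_rat hne hu', Rat.isCoprime_num_den _⟩

theorem diff_M {a b : ℤ} (hD : D a b ≠ 0) {p : ℕ} (hp : p ∈ mult a b) {z z' : ℤ × ℤ}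
    (hz : z ∈ integralPoints a b) (hz' : z' ∈ integralPoints a b) (hne : z.1 ≠ z'.1) :
    Nv (fv p) a b (repX (toPt hD z - toPt hD z')) (repZ (toPt hD z - toPt hD z')) = 1 ∧
    max (min 1 (fv p (Nm (en a b) (An a b) (Bn a b) ((z.1 : ℚ) - en a b) z.2
        ((z'.1 : ℚ) - en a b) z'.2) / fv p ((z.1 : ℚ) - z'.1) ^ 2)) (kap (fv p) a b) ≤
      Mv (fv p) a b (repX (toPt hD z - toPt hD z')) (repZ (toPt hD z - toPt hD z')) := by
  obtain ⟨hpp, -, -, -, hpa⟩ := mem_mult hD hp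
  obtain ⟨-, -, hs, hk0, hk1, he, -⟩ := mult_facts hD hp
  have hna := fv_nonarch hpp
  have ha : a ≠ 0 := by
    rintro rfl
    exact hpa (dvd_zero _)
  obtain ⟨hid, hcop⟩ := df_rep hD hz hz' hne
  have hy := node_eq ha hz
  have hy' := node_eq ha hz'
  generalize repX (toPt hD z - toPt hD z') = X at *
  generalize repZ (toPt hD z - toPt hD z') = Z at *
  have hX1 : fv p (X : ℚ) ≤ 1 := fv_int_le hpp X
  have hZ1 : fv p (Z : ℚ) ≤ 1 := fv_int_le hpp Z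
  have hor : fv p (Z : ℚ) < 1 → fv p (X : ℚ) = 1 := by
    intro h
    refine df_fv_one hpp fun hd => ?_
    have hpZ : (p : ℤ) ∣ Z := by
      by_contra hc
      rw [df_fv_one hpp hc] at h
      exact lt_irrefl _ h
    have hP := Nat.prime_iff_prime_int.mp hpp
    exact hP.not_isUnit (hcop.isUnit_of_dvd' hd hpZ)
  have hN : Nv (fv p) (a : ℚ) (b : ℚ) (X : ℚ) (Z : ℚ) = 1 := by
    unfold Nv
    rw [hs, one_mul]
    refine le_antisymm (max_le hX1 hZ1) ?_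
    rcases lt_or_eq_of_le hZ1 with h | h
    · exact le_max_of_le_left (hor h).ge
    · exact le_max_of_le_right h.ge
  refine ⟨hN, ?_⟩
  unfold Mv
  rw [hN, df_wv, mul_one]
  have hxne : (z.1 : ℚ) - (z'.1 : ℚ) ≠ 0 := by
    rw [sub_ne_zero]
    exact_mod_cast hne
  have hfx : 0 < fv p ((z.1 : ℚ) - (z'.1 : ℚ)) := (fv p).pos hxne
  have hidQ : (X : ℚ) * ((z.1 : ℚ) - z'.1) ^ 2 = (Z : ℚ) *
      (((z.2 : ℚ) + z'.2) ^ 2 - ((z.1 : ℚ) + z'.1) * ((z.1 : ℚ) - z'.1) ^ 2) := by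
    exact_mod_cast hid
  have hkey : ((X : ℚ) - en a b * Z) * ((z.1 : ℚ) - z'.1) ^ 2 = (Z : ℚ) *
      Nm (en a b) (An a b) (Bn a b) ((z.1 : ℚ) - en a b) z.2 ((z'.1 : ℚ) - en a b) z'.2 := by
    unfold Nm
    linear_combination hidQ + (Z : ℚ) * hy + (Z : ℚ) * hy'
  rcases lt_or_eq_of_le hZ1 with h | h
  · -- `f Z < 1`
    have hX := hor h
    have heZ : fv p (en a b * (Z : ℚ)) < 1 := by
      rw [map_mul, he, one_mul]
      exact h
    have h1 : fv p ((X : ℚ) - en a b * Z) = 1 := by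
      refine le_antisymm ?_ ?_
      · rw [sub_eq_add_neg]
        refine (hna _ _).trans (max_le hX1 ?_)
        rw [(fv p).map_neg]
        exact heZ.le
      · have h2 : fv p (X : ℚ) ≤ max (fv p ((X : ℚ) - en a b * Z)) (fv p (en a b * (Z : ℚ))) := by
          have h3 := hna ((X : ℚ) - en a b * Z) (en a b * (Z : ℚ))
          rw [sub_add_cancel] at h3
          exact h3
        rw [hX] at h2
        rcases le_max_iff.mp h2 with h4 | h4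
        · exact h4
        · exact absurd heZ (not_lt.mpr h4)
    rw [h1, min_self]
    exact (max_le (min_le_left _ _) hk1.le).trans (le_max_left _ _)
  · -- `f Z = 1`
    have h1 : fv p ((X : ℚ) - en a b * Z) * fv p ((z.1 : ℚ) - z'.1) ^ 2 =
        fv p (Nm (en a b) (An a b) (Bn a b) ((z.1 : ℚ) - en a b) z.2
          ((z'.1 : ℚ) - en a b) z'.2) := by
      rw [← map_pow, ← map_mul, hkey, map_mul, h, one_mul]
    rw [← h1, mul_div_cancel_right₀ _ (pow_pos hfx 2).ne', min_comm]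

end Pool.Agent.H24.LX
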