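import Pool.Agent.H24.LX.Upp
import Pool.Agent.H24.LX.Df
import Pool.Agent.H24.LX.Ener

/-!
# LX UInt

The upper function at an integral point. At `p ∈ mult`: `N = 1` (`mult_M`), `Lv = ν(τ²-τ) = ν_p⁺(B(τ) - 1/6)`. At the primes `p ∉ mult`: `N_p = max(|x|_p, s_p) ≤ 1`. At infinity
`N = max(|x|, s_∞) ≤ e^{(1+η)L}` (`s_∞ ≤ e^L`). And `(1/6)∑_{mult} ν_p = (1/6)∑_{places} ν_v - (1/6)∑_{v ∉ mult} ν_v = ∑_v log s_v - (1/6)∑_{v ∉ mult} ν_v
≥ log s_∞ - ∑_{p ∉ mult} log(1/s_p) - (1/6)∑_{v ∉ mult} ν_v⁺`; `log s_∞ ≥ L - log 2` (as `s_∞ ≥ 1` and `L = log max(2, s_∞)`), `s_p ≥ p⁻²` (quasi-minimal: `p⁴ ∤ a` or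
`p⁶ ∤ b`; if `a = 0` the second), so `∑_{p ∉ mult} log(1/s_p) ≤ ∑_{p ∉ mult, p ≥ 5} 2 log p + 2 log 2 + 2 log 3`. `sum_log_sv` in LQ/Conv.
-/

namespace Pool.Agent.H24.LX

open Pool.Agent.H24.LP Pool.Agent.H24.LQ Pool.Agent.H24.LR Finset

private lemma u_ab_ne {a b : ℤ} (hD : D a b ≠ 0) : ¬ ((a : ℚ) = 0 ∧ (b : ℚ) = 0) := by
  rintro ⟨ha, hb⟩
  apply hD
  have ha' : a = 0 := by exact_mod_cast ha
  have hb' : b = 0 := by exact_mod_cast hb
  subst ha' hb'
  simp [D]

private lemma u_sv_a (f : AbsoluteValue ℚ ℝ) {a b : ℤ} (ha : a ≠ 0) :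
    Real.log (f a) ≤ 2 * Real.log (sv f a b) := by
  have h1 : 0 < f (a : ℚ) := f.pos (by exact_mod_cast ha)
  have h2 := Real.log_le_log h1 (le_sv_sq f (a : ℚ) (b : ℚ))
  rw [Real.log_pow] at h2
  push_cast at h2
  exact h2

private lemma u_sv_b (f : AbsoluteValue ℚ ℝ) {a b : ℤ} (hb : b ≠ 0) :
    Real.log (f b) ≤ 3 * Real.log (sv f a b) := by
  have h1 : 0 < f (b : ℚ) := f.pos (by exact_mod_cast hb)
  have h2 := Real.log_le_log h1 (le_sv_cube f (a : ℚ) (b : ℚ))
  rw [Real.log_pow] at h2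
  push_cast at h2
  exact h2

private lemma u_log_fv {p : ℕ} (hp : p.Prime) {n : ℤ} (hn : n ≠ 0) :
    Real.log (fv p n) = - ((n.natAbs.factorization p : ℝ) * Real.log p) := by
  rw [fv_int hp hn, Real.log_inv, Real.log_pow]

private lemma u_fact {p : ℕ} (hp : p.Prime) {n : ℤ} {k : ℕ} (h : ¬ (p : ℤ) ^ k ∣ n) :
    n ≠ 0 ∧ n.natAbs.factorization p ≤ k := by
  have hn : n ≠ 0 := by
    rintro rfl
    exact h (dvd_zero _)
  refine ⟨hn, ?_⟩
  by_contra hlt
  push Not at hlt
  apply h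
  have h1 : p ^ k ∣ n.natAbs :=
    (hp.pow_dvd_iff_le_factorization (Int.natAbs_ne_zero.mpr hn)).mpr hlt.le
  have h2 : ((p ^ k : ℕ) : ℤ) ∣ n := Int.natCast_dvd.mpr h1
  rwa [Nat.cast_pow] at h2

/-- `s_p ≥ p^(-2)` -/
private lemma u_sv_prime {a b : ℤ} (hq : QuasiMinimal a b) {p : ℕ} (hp : p.Prime) :
    -(2 * Real.log p) ≤ Real.log (sv (fv p) a b) := by
  have hlp : 0 ≤ Real.log (p : ℝ) := Real.log_natCast_nonneg p
  by_cases h4 : (p : ℤ) ^ 4 ∣ a
  · have h6 : ¬ (p : ℤ) ^ 6 ∣ b := fun h6 => hq.min p hp ⟨h4, h6⟩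
    obtain ⟨hb, hk⟩ := u_fact hp h6
    have h1 := u_sv_b (fv p) (a := a) hb
    rw [u_log_fv hp hb] at h1
    have h2 : (b.natAbs.factorization p : ℝ) ≤ 6 := by exact_mod_cast hk
    have h3 := mul_le_mul_of_nonneg_right h2 hlp
    linarith
  · obtain ⟨ha, hk⟩ := u_fact hp h4
    have h1 := u_sv_a (fv p) (b := b) ha
    rw [u_log_fv hp ha] at h1
    have h2 : (a.natAbs.factorization p : ℝ) ≤ 4 := by exact_mod_cast hk
    have h3 := mul_le_mul_of_nonneg_right h2 hlp
    linarith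

private lemma u_log_int {n : ℤ} (hn : n ≠ 0) : 0 ≤ Real.log |(n : ℝ)| := by
  apply Real.log_nonneg
  have := Int.one_le_abs hn
  exact_mod_cast this

/-- `L ≤ log 2 + log s_∞` -/
private lemma u_sv_zero {a b : ℤ} (hD : D a b ≠ 0) :
    L a b ≤ Real.log 2 + Real.log (sv (fv 0) a b) := by
  have e1 : ∀ n : ℤ, fv 0 (n : ℚ) = |(n : ℝ)| := fun n => by
    rw [fv_zero]
    push_cast
    rfl
  have hl2 : 0 ≤ Real.log 2 := Real.log_nonneg (by norm_num)
  have h0 : 0 ≤ Real.log (sv (fv 0) a b) := by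
    by_cases ha : a = 0
    · have hb : b ≠ 0 := by
        rintro rfl
        exact hD (by rw [ha]; simp [D])
      have h1 := u_sv_b (fv 0) (a := a) hb
      rw [e1] at h1
      have h2 := u_log_int hb
      linarith
    · have h1 := u_sv_a (fv 0) (b := b) ha
      rw [e1] at h1
      have h2 := u_log_int ha
      linarith
  refine max_le (by linarith) (max_le ?_ ?_)
  · by_cases ha : a = 0
    · rw [ha]
      simp only [Int.cast_zero, abs_zero, Real.log_zero, zero_div]
      rw [ha] at h0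
      push_cast at h0
      linarith
    · have h1 := u_sv_a (fv 0) (b := b) ha
      rw [e1] at h1
      linarith
  · by_cases hb : b = 0
    · rw [hb]
      simp only [Int.cast_zero, abs_zero, Real.log_zero, zero_div]
      rw [hb] at h0
      push_cast at h0
      linarith
    · have h1 := u_sv_b (fv 0) (a := a) hb
      rw [e1] at h1
      linarith

private lemma u_sv_prime_le {p : ℕ} (hp : p.Prime) (a b : ℤ) : sv (fv p) a b ≤ 1 := by
  have h1 := fv_int_le hp a
  have h2 := fv_int_le hp b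
  unfold sv
  refine max_le ?_ ?_
  · rw [show (1 : ℝ) = Real.sqrt 1 by rw [Real.sqrt_one]]
    exact Real.sqrt_le_sqrt h1
  · exact Real.rpow_le_one ((fv p).nonneg _) h2 (by norm_num)

private lemma u_sv_zero_le (a b : ℤ) : sv (fv 0) a b ≤ Real.exp (L a b) := by
  have h1 := abs_a_le a b
  have h2 := abs_b_le a b
  unfold sv
  rw [fv_zero, fv_zero]
  have e1 : (((a : ℚ)) : ℝ) = (a : ℝ) := by push_cast; rfl
  have e2 : (((b : ℚ)) : ℝ) = (b : ℝ) := by push_cast; rfl
  rw [e1, e2]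
  refine max_le ?_ ?_
  · rw [show Real.exp (L a b) = Real.sqrt (Real.exp (2 * L a b)) by
      rw [two_mul, Real.exp_add, Real.sqrt_mul_self (Real.exp_pos _).le]]
    exact Real.sqrt_le_sqrt h1
  · have h3 : |(b : ℝ)| ^ ((1 : ℝ) / 3) ≤ Real.exp (3 * L a b) ^ ((1 : ℝ) / 3) :=
      Real.rpow_le_rpow (abs_nonneg _) h2 (by norm_num)
    refine h3.trans (le_of_eq ?_)
    rw [← Real.exp_mul]
    congr 1
    ring

private lemma u_place {a b : ℤ} {v : ℕ} (hv : v ∈ places a b) (h0 : v ≠ 0) : v.Prime := by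
  rcases Finset.mem_insert.mp hv with h | h
  · exact absurd h h0
  · exact Nat.prime_of_mem_primeFactors h

private lemma u_zero_mem (a b : ℤ) : (0 : ℕ) ∈ places a b \ mult a b := by
  refine Finset.mem_sdiff.mpr ⟨Finset.mem_insert_self _ _, fun h => ?_⟩
  have := (Finset.mem_filter.mp h).2.1
  omega

/-- the sum over `mult` -/
private lemma u_mult {a b : ℤ} (hD : D a b ≠ 0) {z : ℤ × ℤ} (hz : z ∈ integralPoints a b) :
    ∑ v ∈ mult a b, Lv (fv v) a b (thr v) (repX (toPt hD z)) (repZ (toPt hD z)) =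
      ∑ p ∈ mult a b, nup a b p * bern ((tau p (toPt hD z) : ℝ) : AddCircle (1 : ℝ))
        - (∑ p ∈ mult a b, nu (fv p) a b) / 6 := by
  rw [Finset.sum_div, ← Finset.sum_sub_distrib]
  refine Finset.sum_congr rfl fun p hp => ?_
  obtain ⟨-, -, -, -, -, -, -, -, hν⟩ := mult_facts hD hp
  have hN := (mult_M hD hp hz).2.1
  have hT := Tv_eq p (toPt hD z)
  have hn : nup a b p = nu (fv p) a b := max_eq_right hν.le
  rw [bern_val (tau_nonneg hD p _) (tau_le hD p _), hn]
  unfold Lv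
  rw [hN, Real.log_one, hT]
  have hν' : nu (fv p) a b ≠ 0 := hν.ne'
  field_simp
  ring

/-- the sum over the other places -/
private lemma u_other {a b : ℤ} (hD : D a b ≠ 0) {η : ℝ} (hη : 0 ≤ η) {z : ℤ × ℤ}
    (hz : z ∈ integralPoints a b) (hx : |(z.1 : ℝ)| ≤ Real.exp ((1 + η) * L a b)) :
    ∑ v ∈ places a b \ mult a b, Real.log (Nv (fv v) a b (repX (toPt hD z)) (repZ (toPt hD z)))
      ≤ (1 + η) * L a b := by
  have h1 : ∀ v ∈ places a b \ mult a b,
      Real.log (Nv (fv v) a b (repX (toPt hD z)) (repZ (toPt hD z))) ≤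
        if v = 0 then (1 + η) * L a b else 0 := by
    intro v hv
    rw [repX_toPt hD hz, repZ_toPt hD hz]
    unfold Nv
    rw [Int.cast_one, map_one, mul_one]
    have hs := sv_pos (fv v) a b (u_ab_ne hD)
    by_cases h0 : v = 0
    · subst h0
      rw [if_pos rfl, Real.log_le_iff_le_exp (lt_max_of_lt_right hs)]
      refine max_le ?_ ?_
      · rw [fv_zero]
        push_cast
        exact hx
      · refine (u_sv_zero_le a b).trans (Real.exp_le_exp.mpr ?_)
        have hL := (half_le_L a b)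
        nlinarith
    · have hp := u_place (Finset.mem_sdiff.mp hv).1 h0
      rw [if_neg h0]
      exact Real.log_nonpos (le_max_of_le_right hs.le)
        (max_le (fv_int_le hp z.1) (u_sv_prime_le hp a b))
  refine (Finset.sum_le_sum h1).trans (le_of_eq ?_)
  rw [Finset.sum_ite_eq' _ 0, if_pos (u_zero_mem a b)]

/-- the sum of `log s_v` over the other places -/
private lemma u_log {a b : ℤ} (hq : QuasiMinimal a b) :
    L a b - Real.log 2 - 2 * Real.log 2 - 2 * Real.log 3
      - ∑ v ∈ (places a b \ mult a b).filter (fun v => 5 ≤ v), 2 * Real.log v ≤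
      ∑ v ∈ places a b \ mult a b, Real.log (sv (fv v) a b) := by
  have hl2 : 0 ≤ Real.log 2 := Real.log_nonneg (by norm_num)
  have hl3 : 0 ≤ Real.log 3 := Real.log_nonneg (by norm_num)
  have h1 : ∀ v ∈ places a b \ mult a b,
      (if v = 0 then L a b - Real.log 2 else 0) - (if v = 2 then 2 * Real.log 2 else 0)
        - (if v = 3 then 2 * Real.log 3 else 0) - (if 5 ≤ v then 2 * Real.log v else 0) ≤
      Real.log (sv (fv v) a b) := by
    intro v hv
    by_cases h0 : v = 0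
    · subst h0
      have := u_sv_zero hq.ne
      norm_num
      linarith
    · have hp := u_place (Finset.mem_sdiff.mp hv).1 h0
      have h2 := u_sv_prime hq hp
      rw [if_neg h0]
      by_cases h22 : v = 2
      · subst h22
        norm_num at h2 ⊢
        linarith
      · by_cases h33 : v = 3
        · subst h33
          norm_num at h2 ⊢
          linarith
        · have h5 : 5 ≤ v := by
            by_contra h5
            have h4 : v = 4 := by
              have := hp.two_le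
              omega
            rw [h4] at hp
            exact absurd hp (by norm_num)
          rw [if_neg h22, if_neg h33, if_pos h5]
          linarith
  refine le_trans ?_ (Finset.sum_le_sum h1)
  rw [Finset.sum_sub_distrib, Finset.sum_sub_distrib, Finset.sum_sub_distrib,
    Finset.sum_ite_eq' _ 0, if_pos (u_zero_mem a b), Finset.sum_ite_eq' _ 2,
    Finset.sum_ite_eq' _ 3, ← Finset.sum_filter]
  have h2 : (if (2 : ℕ) ∈ places a b \ mult a b then 2 * Real.log 2 else 0) ≤ 2 * Real.log 2 := by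
    split_ifs
    · exact le_rfl
    · linarith
  have h3 : (if (3 : ℕ) ∈ places a b \ mult a b then 2 * Real.log 3 else 0) ≤ 2 * Real.log 3 := by
    split_ifs
    · exact le_rfl
    · linarith
  linarith

theorem UU_int : ∃ C : ℝ, 0 ≤ C ∧ ∀ (a b : ℤ) (hq : QuasiMinimal a b) (η : ℝ), 0 ≤ η →
    ∀ z ∈ integralPoints a b, |(z.1 : ℝ)| ≤ Real.exp ((1 + η) * L a b) →
    UU (toPt hq.ne z) ≤
      ∑ p ∈ mult a b, nup a b p * bern ((tau p (toPt hq.ne z) : ℝ) : AddCircle (1 : ℝ))
        + η * L a b + Rst a b + C := by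
  have hl2 : 0 ≤ Real.log 2 := Real.log_nonneg (by norm_num)
  have hl3 : 0 ≤ Real.log 3 := Real.log_nonneg (by norm_num)
  refine ⟨3 * Real.log 2 + 2 * Real.log 3, by positivity, ?_⟩
  intro a b hq η hη z hz hx
  have hD := hq.ne
  have h1 := u_mult hD hz
  have h2 := u_other hD hη hz hx
  have h3 := u_log hq
  have h4 := sum_log_sv hD
  rw [← Finset.sum_sdiff (mult_subset hD), ← Finset.sum_sdiff (mult_subset hD)] at h4
  have h5 : ∑ v ∈ mult a b, Real.log (sv (fv v) a b) = 0 := by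
    refine Finset.sum_eq_zero fun p hp => ?_
    rw [(mult_facts hD hp).2.2.1, Real.log_one]
  have h6 : ∑ v ∈ places a b \ mult a b, nu (fv v) a b ≤
      ∑ v ∈ places a b \ mult a b, nup a b v :=
    Finset.sum_le_sum fun v _ => le_max_right _ _
  have h7 : 0 ≤ ∑ v ∈ places a b \ mult a b, nup a b v :=
    Finset.sum_nonneg fun v _ => le_max_left _ _
  unfold UU Rst
  rw [h1]
  linarith

end Pool.Agent.H24.LX
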