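import Pool.Agent.H24.LX.Sgn
import Pool.Agent.H24.LX.Low
import Pool.Agent.H24.LX.UInt

/-!
# LX Core

The number of integral points in a small ball away from the origin. Let `t_p` be the functions of `loc_pos`, `M = |F|`, `W = ∑_{mult} ν_p⁺ ≤ 6L + 4` (`sum_nup_le`).
For `z ≠ z'` in `F`: `δ²L/16 ≥ g(P-P') ≥ SS(P-P') - C ≥ ∑_{mult} ν_p⁺ B(τ_p(P-P')) - Rst - C' ≥ ∑ ν_p⁺ B(t_p(z) - t_p(z')) - Rst - C'` (`SS_low`, `bern_anti`;
`P ≠ P'` so `repZ(P-P') ≠ 0`: `toPt_injOn`, and `repZ = 0` only for `0`). The diagonal is `W/6 ≤ L + 1`. For each `z`: `δL ≤ g(P) ≤ UU + C ≤ ∑ ν_p⁺ B(t_p(z)) + δ²L/64 + Rst + C''`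
(`g_le_UU`, `UU_int`, `bern_abs`). The sum over `p` of `ν_p⁺` times `energy_signed` with `c = kM`, `k = δ/2`, divided by `M²`:
`2k(δL - δ²L/64 - Rst - C'') ≤ k²(L+1) + (L+1)/M + δ²L/16 + Rst + C'`. With `Rst ≤ δ²L/64`, all constants `≤ δ²L/64` and `1 ≤ δ²L/64`: `δ²L(1 - 3/64) ≤ δ²L(65/256 + 1/16 + 1/32)
+ (65/64)L/M`, so `M ≤ 2/δ²`.
-/

namespace Pool.Agent.H24.LX

open Pool.Agent.H24.LP Pool.Agent.H24.LQ Pool.Agent.H24.LR Finset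

private lemma core_repZ {a b : ℤ} {T : (curve a b).Point} (h : T ≠ 0) : repZ T ≠ 0 := by
  cases T with
  | zero => exact absurd rfl h
  | some x y h' =>
    show ((x.den : ℕ) : ℤ) ≠ 0
    exact_mod_cast x.den_nz

private lemma core_Rst (a b : ℤ) : 0 ≤ Rst a b := by
  unfold Rst
  exact add_nonneg (Finset.sum_nonneg fun v _ => nup_nonneg a b v)
    (Finset.sum_nonneg fun v _ => mul_nonneg (by norm_num) (HeightData.log_nonneg' v))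

private lemma core_one {ι : Type*} [DecidableEq ι] (F : Finset ι) (t τ : ι → ℝ) (σ : ι → ι → ℝ)
    (c : ℝ) (h1 : ∀ z ∈ F, |t z| = τ z)
    (h2 : ∀ z ∈ F, ∀ z' ∈ F, z ≠ z' →
      0 ≤ σ z z' ∧ σ z z' ≤ ‖((t z - t z' : ℝ) : AddCircle (1 : ℝ))‖) :
    0 ≤ (c ^ 2 / 6 + F.card / 6) - 2 * c * ∑ z ∈ F, bern ((τ z : ℝ) : AddCircle (1 : ℝ))
      + ∑ z ∈ F, ∑ z' ∈ F.erase z, bern ((σ z z' : ℝ) : AddCircle (1 : ℝ)) := by
  have h := energy_signed F t c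
  have e1 : ∑ z ∈ F, bern ((t z : ℝ) : AddCircle (1 : ℝ))
      = ∑ z ∈ F, bern ((τ z : ℝ) : AddCircle (1 : ℝ)) :=
    Finset.sum_congr rfl fun z hz => by rw [bern_abs, h1 z hz]
  have e2 : ∑ z ∈ F, ∑ z' ∈ F, bern ((t z - t z' : ℝ) : AddCircle (1 : ℝ))
      ≤ F.card / 6 + ∑ z ∈ F, ∑ z' ∈ F.erase z, bern ((σ z z' : ℝ) : AddCircle (1 : ℝ)) := by
    have e3 : (F.card : ℝ) / 6 = ∑ z ∈ F, (1 / 6 : ℝ) := by
      rw [Finset.sum_const, nsmul_eq_mul]; ring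
    rw [e3, ← Finset.sum_add_distrib]
    refine Finset.sum_le_sum fun z hz => ?_
    rw [← Finset.add_sum_erase F _ hz]
    refine add_le_add ?_ (Finset.sum_le_sum fun z' hz' => ?_)
    · rw [sub_self, bern_val le_rfl (by norm_num)]
      norm_num
    · obtain ⟨hne, hz'F⟩ := Finset.mem_erase.mp hz'
      obtain ⟨h3, h4⟩ := h2 z hz z' hz'F (Ne.symm hne)
      exact bern_anti h3 h4
  rw [e1] at h
  linarith

theorem core : ∃ K₀ : ℝ, 1 ≤ K₀ ∧ ∀ C : ℝ, 0 ≤ C → ∀ (a b : ℤ) (hq : QuasiMinimal a b),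
    ∀ g : (curve a b).Point → ℝ, IsHt C g → ∀ δ : ℝ, 0 < δ → δ ≤ 1 →
    K₀ * (1 + C) ≤ δ ^ 2 * L a b → Rst a b ≤ δ ^ 2 * L a b / 64 →
    ∀ F : Finset (ℤ × ℤ), (∀ z ∈ F, z ∈ integralPoints a b ∧
      |(z.1 : ℝ)| ≤ Real.exp ((1 + δ ^ 2 / 64) * L a b) ∧ δ * L a b ≤ g (toPt hq.ne z)) →
    (∀ z ∈ F, ∀ z' ∈ F, z ≠ z' → z.1 ≠ z'.1) →
    (∀ z ∈ F, ∀ z' ∈ F, g (toPt hq.ne z - toPt hq.ne z') ≤ δ ^ 2 * L a b / 16) →
    (F.card : ℝ) ≤ 2 / δ ^ 2 := by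
  classical
  obtain ⟨C₁, hC₁, hg1⟩ := g_le_UU
  obtain ⟨C₂, hC₂, hU⟩ := UU_int
  obtain ⟨C₃, hC₃, hS⟩ := SS_low
  refine ⟨64 * (1 + C₁ + C₂ + C₃), by linarith, ?_⟩
  intro C hC a b hq g hg δ hδ0 hδ1 hK hR F hF hx hd
  have hD := hq.ne
  set Λ : ℝ := L a b with hΛ
  have hR0 : 0 ≤ Rst a b := core_Rst a b
  rcases F.eq_empty_or_nonempty with hF0 | hF0
  · rw [hF0]; simp only [Finset.card_empty, Nat.cast_zero]; positivity
  have hM : (0 : ℝ) < F.card := by exact_mod_cast hF0.card_pos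
  set M : ℝ := (F.card : ℝ) with hMd
  -- constants
  have hδ2 : 0 < δ ^ 2 := by positivity
  have hδ21 : δ ^ 2 ≤ 1 := by nlinarith
  have hKK : (1 + C₁ + C₂ + C₃) * (1 + C) ≤ δ ^ 2 * Λ / 64 := by linarith
  have hCC : 1 + C₁ + C₂ + C₃ + C ≤ δ ^ 2 * Λ / 64 := by
    have : 1 + C₁ + C₂ + C₃ + C ≤ (1 + C₁ + C₂ + C₃) * (1 + C) := by nlinarith
    linarith
  have hΛ0 : 0 < Λ := by
    by_contra hneg
    have : δ ^ 2 * Λ ≤ 0 := mul_nonpos_of_nonneg_of_nonpos hδ2.le (not_lt.mp hneg)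
    linarith
  have hδΛ : δ ^ 2 * Λ ≤ Λ := by nlinarith
  -- positions
  have ht : ∀ p : ℕ, ∃ t : ℤ × ℤ → ℝ, p ∈ mult a b →
      (∀ z ∈ integralPoints a b, |t z| = tau p (toPt hD z)) ∧
      ∀ z ∈ integralPoints a b, ∀ z' ∈ integralPoints a b, z.1 ≠ z'.1 →
        tau p (toPt hD z - toPt hD z') ≤ ‖((t z - t z' : ℝ) : AddCircle (1 : ℝ))‖ := by
    intro p
    by_cases hp : p ∈ mult a b
    · obtain ⟨t, h1, h2⟩ := loc_pos hD hp
      exact ⟨t, fun _ => ⟨h1, h2⟩⟩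
    · exact ⟨fun _ => 0, fun h => absurd h hp⟩
  choose t ht using ht
  set A : ℤ × ℤ → ℝ := fun z =>
    ∑ p ∈ mult a b, nup a b p * bern ((tau p (toPt hD z) : ℝ) : AddCircle (1 : ℝ)) with hA
  set X : ℤ × ℤ → ℤ × ℤ → ℝ := fun z z' =>
    ∑ p ∈ mult a b, nup a b p *
      bern ((tau p (toPt hD z - toPt hD z') : ℝ) : AddCircle (1 : ℝ)) with hX
  set W : ℝ := ∑ p ∈ mult a b, nup a b p with hW
  have hWle : W ≤ 6 * Λ + 4 := by
    refine le_trans ?_ (sum_nup_le hD)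
    exact Finset.sum_le_sum_of_subset_of_nonneg (mult_subset hD) fun v _ _ => nup_nonneg a b v
  have hW0 : 0 ≤ W := Finset.sum_nonneg fun v _ => nup_nonneg a b v
  -- the energy inequality
  have key : ∀ c : ℝ, 0 ≤ (c ^ 2 / 6 + M / 6) * W - 2 * c * ∑ z ∈ F, A z
      + ∑ z ∈ F, ∑ z' ∈ F.erase z, X z z' := by
    intro c
    have h0 : 0 ≤ ∑ p ∈ mult a b, nup a b p * ((c ^ 2 / 6 + M / 6)
        - 2 * c * ∑ z ∈ F, bern ((tau p (toPt hD z) : ℝ) : AddCircle (1 : ℝ))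
        + ∑ z ∈ F, ∑ z' ∈ F.erase z,
          bern ((tau p (toPt hD z - toPt hD z') : ℝ) : AddCircle (1 : ℝ))) := by
      refine Finset.sum_nonneg fun p hp => mul_nonneg (nup_nonneg a b p) ?_
      refine core_one F (t p) (fun z => tau p (toPt hD z))
        (fun z z' => tau p (toPt hD z - toPt hD z')) c
        (fun z hz => (ht p hp).1 z (hF z hz).1) fun z hz z' hz' hne => ⟨tau_nonneg hD p _, ?_⟩
      exact (ht p hp).2 z (hF z hz).1 z' (hF z' hz').1 (hx z hz z' hz' hne)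
    have s1 : ∑ p ∈ mult a b, nup a b p * (c ^ 2 / 6 + M / 6) = (c ^ 2 / 6 + M / 6) * W := by
      rw [← Finset.sum_mul, mul_comm]
    have s2 : ∑ p ∈ mult a b, nup a b p *
        (2 * c * ∑ z ∈ F, bern ((tau p (toPt hD z) : ℝ) : AddCircle (1 : ℝ)))
        = 2 * c * ∑ z ∈ F, A z := by
      rw [hA, Finset.sum_comm, Finset.mul_sum]
      refine Finset.sum_congr rfl fun p _ => ?_
      rw [← Finset.mul_sum]
      ring
    have s3 : ∑ p ∈ mult a b, nup a b p * ∑ z ∈ F, ∑ z' ∈ F.erase z,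
        bern ((tau p (toPt hD z - toPt hD z') : ℝ) : AddCircle (1 : ℝ))
        = ∑ z ∈ F, ∑ z' ∈ F.erase z, X z z' := by
      simp_rw [Finset.mul_sum]
      rw [Finset.sum_comm]
      exact Finset.sum_congr rfl fun z _ => Finset.sum_comm
    simp only [mul_add, mul_sub, Finset.sum_add_distrib, Finset.sum_sub_distrib] at h0 s1
    rw [s2, s3] at h0
    have s1' : (c ^ 2 / 6 + M / 6) * W
        = ∑ p ∈ mult a b, nup a b p * (c ^ 2 / 6) + ∑ p ∈ mult a b, nup a b p * (M / 6) := by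
      rw [s1]
    rw [s1']
    exact h0
  -- lower bound of A
  have hAz : ∀ z ∈ F, δ * Λ - 3 * (δ ^ 2 * Λ / 64) ≤ A z := by
    intro z hz
    obtain ⟨hzI, hzx, hzg⟩ := hF z hz
    have h1 := hg1 a b hD g hg.dbl hg.near (toPt hD z)
    have h2 := hU a b hq (δ ^ 2 / 64) (by positivity) z hzI hzx
    have h3 : A z = ∑ p ∈ mult a b, nup a b p *
      bern ((tau p (toPt hq.ne z) : ℝ) : AddCircle (1 : ℝ)) := rfl
    rw [← h3] at h2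
    have h4 : δ ^ 2 / 64 * L a b = δ ^ 2 * Λ / 64 := by rw [hΛ]; ring
    rw [h4] at h2
    linarith
  -- upper bound of X
  have hXz : ∀ z ∈ F, ∀ z' ∈ F.erase z, X z z' ≤ 6 * (δ ^ 2 * Λ / 64) := by
    intro z hz z' hz'
    obtain ⟨hne, hz'F⟩ := Finset.mem_erase.mp hz'
    have hPne : toPt hD z - toPt hD z' ≠ 0 := by
      intro h
      exact hne (toPt_injOn hD (hF z hz).1 (hF z' hz'F).1 (sub_eq_zero.mp h)).symm
    have h1 := hS a b hD (toPt hD z - toPt hD z') (core_repZ hPne)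
    have h2 := hg.ge (toPt hD z - toPt hD z')
    have h3 := hd z hz z' hz'F
    have h4 : X z z' = ∑ p ∈ mult a b, nup a b p *
      bern ((tau p (toPt hD z - toPt hD z') : ℝ) : AddCircle (1 : ℝ)) := rfl
    rw [← h4] at h1
    linarith
  have hk := key (δ / 2 * M)
  have hsA : M * (δ * Λ - 3 * (δ ^ 2 * Λ / 64)) ≤ ∑ z ∈ F, A z := by
    have h := Finset.card_nsmul_le_sum F A _ hAz
    rwa [nsmul_eq_mul] at h
  have hsX : ∑ z ∈ F, ∑ z' ∈ F.erase z, X z z' ≤ M * (M * (6 * (δ ^ 2 * Λ / 64))) := by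
    have h1 : ∀ z ∈ F, ∑ z' ∈ F.erase z, X z z' ≤ M * (6 * (δ ^ 2 * Λ / 64)) := by
      intro z hz
      have h := Finset.sum_le_card_nsmul (F.erase z) (X z) _ (hXz z hz)
      rw [nsmul_eq_mul] at h
      refine h.trans ?_
      have h2 : ((F.erase z).card : ℝ) ≤ M := by
        rw [hMd]; exact_mod_cast Finset.card_le_card (Finset.erase_subset z F)
      exact mul_le_mul_of_nonneg_right h2 (by positivity)
    have h := Finset.sum_le_card_nsmul F _ _ h1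
    rwa [nsmul_eq_mul] at h
  -- conclusion
  have hc0 : 0 ≤ 2 * (δ / 2 * M) := by positivity
  have hb1 : 2 * (δ / 2 * M) * (M * (δ * Λ - 3 * (δ ^ 2 * Λ / 64)))
      ≤ 2 * (δ / 2 * M) * ∑ z ∈ F, A z := mul_le_mul_of_nonneg_left hsA hc0
  have hb2 : ((δ / 2 * M) ^ 2 / 6 + M / 6) * W ≤ ((δ / 2 * M) ^ 2 / 6 + M / 6) * (6 * Λ + 4) :=
    mul_le_mul_of_nonneg_left hWle (by positivity)
  have hb3 : 0 ≤ ((δ / 2 * M) ^ 2 / 6 + M / 6) * (6 * Λ + 4)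
      - 2 * (δ / 2 * M) * (M * (δ * Λ - 3 * (δ ^ 2 * Λ / 64)))
      + M * (M * (6 * (δ ^ 2 * Λ / 64))) := by linarith
  have hb4 : ((δ / 2 * M) ^ 2 / 6 + M / 6) * (6 * Λ + 4)
      - 2 * (δ / 2 * M) * (M * (δ * Λ - 3 * (δ ^ 2 * Λ / 64)))
      + M * (M * (6 * (δ ^ 2 * Λ / 64)))
      = M * ((δ ^ 2 * M / 4 + 1) * (Λ + 2 / 3) - M * (δ ^ 2 * Λ - δ * (3 * (δ ^ 2 * Λ / 64)))
        + M * (6 * (δ ^ 2 * Λ / 64))) := by ring
  rw [hb4] at hb3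
  have hb5 := nonneg_of_mul_nonneg_right hb3 hM
  have hL1 : 2 / 3 ≤ Λ / 64 := by linarith
  have hb6 : (δ ^ 2 * M / 4 + 1) * (Λ + 2 / 3) ≤ (δ ^ 2 * M / 4 + 1) * (65 / 64 * Λ) :=
    mul_le_mul_of_nonneg_left (by linarith) (by positivity)
  have hb7 : M * (δ * (3 * (δ ^ 2 * Λ / 64))) ≤ M * (3 * (δ ^ 2 * Λ / 64)) := by
    refine mul_le_mul_of_nonneg_left ?_ hM.le
    have : 0 ≤ 3 * (δ ^ 2 * Λ / 64) := by positivity
    nlinarith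
  have hb8 : 0 ≤ Λ * (65 / 64 - 155 / 256 * (M * δ ^ 2)) := by
    have e : Λ * (65 / 64 - 155 / 256 * (M * δ ^ 2)) = (δ ^ 2 * M / 4 + 1) * (65 / 64 * Λ)
      - M * (δ ^ 2 * Λ) + M * (3 * (δ ^ 2 * Λ / 64)) + M * (6 * (δ ^ 2 * Λ / 64)) := by ring
    rw [e]
    have : (δ ^ 2 * M / 4 + 1) * (Λ + 2 / 3) - M * (δ ^ 2 * Λ - δ * (3 * (δ ^ 2 * Λ / 64)))
        + M * (6 * (δ ^ 2 * Λ / 64)) = (δ ^ 2 * M / 4 + 1) * (Λ + 2 / 3) - M * (δ ^ 2 * Λ)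
        + M * (δ * (3 * (δ ^ 2 * Λ / 64))) + M * (6 * (δ ^ 2 * Λ / 64)) := by ring
    rw [this] at hb5
    linarith
  have hb9 := nonneg_of_mul_nonneg_right hb8 hΛ0
  rw [le_div_iff₀ hδ2]
  linarith

end Pool.Agent.H24.LX
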