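import Pool.Agent.H24.LQ.Exact

/-!
# LX DupUp

The upper bound for the duplication at a multiplicative place; the notation and the identities are those of LQ/Exact.lean (`Psi = 4Z[w²(w+3eZ) + αZ²(w+eZ/3)]`,
`U = wv a b Phi Psi = w⁴ - αZ²(4e²Z² + (8/3)ewZ + 2w²) + α²Z⁴`, `|e| = s`, `|α| = s²κ²`, `|w| ≤ N`), copy its private lemmas with a prefix. `N' = Nv (Phi, Psi) ≤ N⁴`,
`M' = Mv (Phi, Psi) = max(min(|U|, N'), κN')`, `ρ = |w|/N`. `Lv_le'`: as `Lv_ge` (LQ/Basic), if `M' ≤ M₀`, `N' ≤ N₀`, `κ N₀ ≤ M₀ ≤ N₀` then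
`Lv(F) ≤ log M₀ + (log(N₀/M₀))²/ν`.
(i) `|w| = N`: `T = 0` or (`M = N`): `Lv(F) ≤ log N' ≤ 4 log N` (`Lv_le`). (ii) `κN < |w| < N`: `s|Z| = N`, `|U| ≤ max(ρ⁴, κ²) N⁴`, `Phi = U + ePsi`, `s|Psi| = ρ²N⁴`, so
`N' ≤ ρ²N⁴`, and `M' ≤ max(ρ⁴, κ²) N⁴`; `M₀ = max(ρ⁴, κ²)N⁴`, `N₀ = ρ²N⁴` (`κN₀ ≤ M₀ ≤ N₀` as `κ < ρ < 1`); the value is `4(log N - T + T²/ν)`, `T = -log ρ`, in both cases.
(iii) `|w| ≤ κN`: `N' ≤ κ²N⁴`, `Lv(F) ≤ log N' ≤ 4 log N - ν`, `Lv = log N - ν/4`.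
-/

namespace Pool.Agent.H24.LX

open Pool.Agent.H24.LP Pool.Agent.H24.LQ Finset

private lemma dupDom (f : AbsoluteValue ℚ ℝ) (hna : IsNonarchimedean f) {x y : ℚ}
    (h : f y < f x) : f (x + y) = f x := by
  apply le_antisymm
  · exact (hna x y).trans (max_le le_rfl h.le)
  · have h1 := hna (x + y) (-y)
    rw [add_neg_cancel_right, AbsoluteValue.map_neg] at h1
    rcases le_max_iff.1 h1 with h2 | h2
    · exact h2
    · exact absurd h (not_lt.2 h2)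

private lemma dupAdd_le (f : AbsoluteValue ℚ ℝ) (hna : IsNonarchimedean f) {x y : ℚ} {c : ℝ}
    (h1 : f x ≤ c) (h2 : f y ≤ c) : f (x + y) ≤ c := (hna x y).trans (max_le h1 h2)

private lemma dupAdd_lt (f : AbsoluteValue ℚ ℝ) (hna : IsNonarchimedean f) {x y : ℚ} {c : ℝ}
    (h1 : f x < c) (h2 : f y < c) : f (x + y) < c := lt_of_le_of_lt (hna x y) (max_lt h1 h2)

/-- The node `e`. -/
private def dupE (a b : ℚ) : ℚ := -(3 * b) / (2 * a)

/-- `α = D/(4a²)`. -/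
private def dupA (a b : ℚ) : ℚ := (4 * a ^ 3 + 27 * b ^ 2) / (4 * a ^ 2)

private lemma dupPsi (a b X Z : ℚ) (ha : a ≠ 0) :
    Psi a b X Z = 4 * Z * (wv a b X Z ^ 2 * (3 * dupE a b * Z + wv a b X Z)
      + dupA a b * Z ^ 2 * (wv a b X Z + dupE a b * Z / 3)) := by
  unfold Psi wv dupE dupA
  field_simp
  ring

private lemma dupU (a b X Z : ℚ) (ha : a ≠ 0) :
    wv a b (Phi a b X Z) (Psi a b X Z) = wv a b X Z ^ 4 + (-(4 * dupA a b * dupE a b ^ 2 * Z ^ 4)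
      + (-(dupA a b * Z ^ 2 * (8 / 3 * dupE a b * wv a b X Z * Z + 2 * wv a b X Z ^ 2))
        + dupA a b ^ 2 * Z ^ 4)) := by
  unfold Psi Phi wv dupE dupA
  field_simp
  ring

private lemma dupX (a b X Z : ℚ) : X = dupE a b * Z + wv a b X Z := by
  unfold wv dupE
  ring

private lemma dupSize (f : AbsoluteValue ℚ ℝ) (hna : IsNonarchimedean f) (h2 : f 2 = 1)
    (h3 : f 3 = 1) (a b : ℚ) (hD : 4 * a ^ 3 + 27 * b ^ 2 ≠ 0) (hk : kap f a b ^ 2 < 1)
    (hs : 0 < sv f a b) : f a = sv f a b ^ 2 ∧ f b = sv f a b ^ 3 := by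
  have h4 : f 4 = 1 := by
    have : (4 : ℚ) = 2 ^ 2 := by norm_num
    rw [this, map_pow, h2, one_pow]
  have h27 : f 27 = 1 := by
    have : (27 : ℚ) = 3 ^ 3 := by norm_num
    rw [this, map_pow, h3, one_pow]
  have hDlt : f (4 * a ^ 3 + 27 * b ^ 2) < sv f a b ^ 6 := by
    have h := kap_sq f a b hD
    rw [h, div_lt_one (by positivity)] at hk
    exact hk
  have ea : f (4 * a ^ 3) = f a ^ 3 := by rw [map_mul, map_pow, h4, one_mul]
  have eb : f (27 * b ^ 2) = f b ^ 2 := by rw [map_mul, map_pow, h27, one_mul]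
  have la := le_sv_sq f a b
  have lb := le_sv_cube f a b
  have a0 : 0 ≤ f a := f.nonneg _
  have b0 : 0 ≤ f b := f.nonneg _
  rcases sv_or f a b with h | h
  · refine ⟨h, le_antisymm lb ?_⟩
    by_contra hc
    have hc := not_le.1 hc
    have h5 : f (27 * b ^ 2) < f (4 * a ^ 3) := by
      rw [ea, eb, h]
      have : f b ^ 2 < (sv f a b ^ 3) ^ 2 := pow_lt_pow_left₀ hc b0 (by norm_num)
      calc f b ^ 2 < (sv f a b ^ 3) ^ 2 := this
        _ = (sv f a b ^ 2) ^ 3 := by ring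
    rw [dupDom f hna h5, ea, h] at hDlt
    have : (sv f a b ^ 2) ^ 3 = sv f a b ^ 6 := by ring
    rw [this] at hDlt
    exact lt_irrefl _ hDlt
  · refine ⟨le_antisymm la ?_, h⟩
    by_contra hc
    have hc := not_le.1 hc
    have h5 : f (4 * a ^ 3) < f (27 * b ^ 2) := by
      rw [ea, eb, h]
      have : f a ^ 3 < (sv f a b ^ 2) ^ 3 := pow_lt_pow_left₀ hc a0 (by norm_num)
      calc f a ^ 3 < (sv f a b ^ 2) ^ 3 := this
        _ = (sv f a b ^ 3) ^ 2 := by ring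
    rw [add_comm, dupDom f hna h5, eb, h] at hDlt
    have : (sv f a b ^ 3) ^ 2 = sv f a b ^ 6 := by ring
    rw [this] at hDlt
    exact lt_irrefl _ hDlt

/-- `|e| = s`, `|α| = κ² s²`, `a ≠ 0`. -/
private lemma dupEA (f : AbsoluteValue ℚ ℝ) (h2 : f 2 = 1)
    (h3 : f 3 = 1) (a b : ℚ) (hD : 4 * a ^ 3 + 27 * b ^ 2 ≠ 0)
    (hs : 0 < sv f a b) (ha : f a = sv f a b ^ 2) (hb : f b = sv f a b ^ 3) :
    a ≠ 0 ∧ f (dupE a b) = sv f a b ∧ f (dupA a b) = kap f a b ^ 2 * sv f a b ^ 2 := by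
  have h4 : f 4 = 1 := by
    have : (4 : ℚ) = 2 ^ 2 := by norm_num
    rw [this, map_pow, h2, one_pow]
  have hn : sv f a b ≠ 0 := hs.ne'
  refine ⟨?_, ?_, ?_⟩
  · intro h
    have h0 : f a = 0 := by rw [h, map_zero]
    rw [h0] at ha
    exact (pow_ne_zero 2 hn) ha.symm
  · unfold dupE
    rw [map_div₀, AbsoluteValue.map_neg, map_mul, map_mul, h2, h3, ha, hb]
    field_simp
  · unfold dupA
    rw [map_div₀, map_mul, map_pow, h4, ha, kap_sq f a b hD]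
    field_simp

/-- Bounds for `N(F)` and `M(F)`. -/
private lemma dupMv (f : AbsoluteValue ℚ ℝ) (hna : IsNonarchimedean f) (a b X Z : ℚ)
    (hE : f (dupE a b) = sv f a b) (hX : X = dupE a b * Z + wv a b X Z) :
    f (wv a b X Z) ≤ Nv f a b X Z ∧ f (wv a b X Z) ≤ Mv f a b X Z := by
  have h1 : f (wv a b X Z) ≤ Nv f a b X Z := by
    have h : wv a b X Z = X + -(dupE a b * Z) := by
      rw [eq_comm, ← sub_eq_add_neg, sub_eq_iff_eq_add, add_comm]
      exact hX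
    rw [h]
    refine dupAdd_le f hna (le_max_left _ _) ?_
    rw [AbsoluteValue.map_neg, map_mul, hE]
    exact le_max_right _ _
  refine ⟨h1, ?_⟩
  unfold Mv
  rw [min_eq_left h1]
  exact le_max_left _ _

private lemma dupNvEq (f : AbsoluteValue ℚ ℝ) (hna : IsNonarchimedean f) (a b X Z : ℚ)
    (hE : f (dupE a b) = sv f a b) (hX : X = dupE a b * Z + wv a b X Z)
    (hw : f (wv a b X Z) < Nv f a b X Z) : sv f a b * f Z = Nv f a b X Z := by
  have h1 : sv f a b * f Z ≤ Nv f a b X Z := le_max_right _ _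
  refine le_antisymm h1 ?_
  by_contra hc
  have hc := not_le.1 hc
  have h2 : f X < Nv f a b X Z := by
    have h3 : f (dupE a b * Z + wv a b X Z) < Nv f a b X Z := by
      refine dupAdd_lt f hna ?_ hw
      rw [map_mul, hE]
      exact hc
    rw [← hX] at h3
    exact h3
  have h4 : Nv f a b X Z < Nv f a b X Z := by
    conv_lhs => unfold Nv
    exact max_lt h2 hc
  exact lt_irrefl _ h4

/-- The terms of `U`. -/
private lemma dupTerms (f : AbsoluteValue ℚ ℝ) (hna : IsNonarchimedean f) (h2 : f 2 = 1)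
    (h3 : f 3 = 1) {e α w Z : ℚ} {s κ N : ℝ} (he : f e = s) (hα : f α = κ ^ 2 * s ^ 2)
    (hs : 0 < s) (hκ : 0 < κ) (hκ1 : κ ^ 2 < 1) (hN : 0 < N) (hz : s * f Z ≤ N) (hw : f w ≤ N) :
    f (-(4 * α * e ^ 2 * Z ^ 4) + (-(α * Z ^ 2 * (8 / 3 * e * w * Z + 2 * w ^ 2))
        + α ^ 2 * Z ^ 4)) ≤ κ ^ 2 * N ^ 4 ∧
    (s * f Z = N → f w < N →
      f (-(4 * α * e ^ 2 * Z ^ 4) + (-(α * Z ^ 2 * (8 / 3 * e * w * Z + 2 * w ^ 2))
        + α ^ 2 * Z ^ 4)) = κ ^ 2 * N ^ 4) := by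
  have h4 : f 4 = 1 := by
    have : (4 : ℚ) = 2 ^ 2 := by norm_num
    rw [this, map_pow, h2, one_pow]
  have h83 : f (8 / 3) = 1 := by
    have : (8 / 3 : ℚ) = 2 ^ 3 / 3 := by norm_num
    rw [this, map_div₀, map_pow, h2, h3, one_pow, div_one]
  have z0 : 0 ≤ f Z := f.nonneg _
  have w0 : 0 ≤ f w := f.nonneg _
  have sz0 : 0 ≤ s * f Z := mul_nonneg hs.le z0
  have eB : f (-(4 * α * e ^ 2 * Z ^ 4)) = κ ^ 2 * (s * f Z) ^ 4 := by
    rw [AbsoluteValue.map_neg, map_mul, map_mul, map_mul, map_pow, map_pow, h4, hα, he]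
    ring
  have eC2 : f (α ^ 2 * Z ^ 4) = κ ^ 2 * (κ ^ 2 * (s * f Z) ^ 4) := by
    rw [map_mul, map_pow, map_pow, hα]
    ring
  have eC1 : f (-(α * Z ^ 2 * (8 / 3 * e * w * Z + 2 * w ^ 2)))
      = κ ^ 2 * (s * f Z) ^ 2 * f (8 / 3 * e * w * Z + 2 * w ^ 2) := by
    rw [AbsoluteValue.map_neg, map_mul, map_mul, map_pow, hα]
    ring
  have eI1 : f (8 / 3 * e * w * Z) = (s * f Z) * f w := by
    rw [map_mul, map_mul, map_mul, h83, he]
    ring
  have eI2 : f (2 * w ^ 2) = f w * f w := by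
    rw [map_mul, map_pow, h2]
    ring
  have hI : f (8 / 3 * e * w * Z + 2 * w ^ 2) ≤ N * f w := by
    refine dupAdd_le f hna ?_ ?_
    · rw [eI1]
      exact mul_le_mul_of_nonneg_right hz w0
    · rw [eI2]
      exact mul_le_mul_of_nonneg_right hw w0
  have hsz4 : (s * f Z) ^ 4 ≤ N ^ 4 := pow_le_pow_left₀ sz0 hz 4
  have hsz2 : (s * f Z) ^ 2 ≤ N ^ 2 := pow_le_pow_left₀ sz0 hz 2
  have hκ2 : 0 < κ ^ 2 := by positivity
  have hN2 : 0 < N ^ 2 := by positivity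
  have hN4 : 0 < N ^ 4 := by positivity
  have bC1 : f (-(α * Z ^ 2 * (8 / 3 * e * w * Z + 2 * w ^ 2))) ≤ κ ^ 2 * N ^ 2 * (N * f w) := by
    rw [eC1]
    exact mul_le_mul (mul_le_mul_of_nonneg_left hsz2 hκ2.le) hI (f.nonneg _) (by positivity)
  have bC2 : f (α ^ 2 * Z ^ 4) < κ ^ 2 * N ^ 4 := by
    rw [eC2]
    refine mul_lt_mul_of_pos_left ?_ hκ2
    calc κ ^ 2 * (s * f Z) ^ 4 ≤ κ ^ 2 * N ^ 4 := mul_le_mul_of_nonneg_left hsz4 hκ2.le
      _ < 1 * N ^ 4 := mul_lt_mul_of_pos_right hκ1 hN4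
      _ = N ^ 4 := one_mul _
  constructor
  · refine dupAdd_le f hna ?_ (dupAdd_le f hna ?_ bC2.le)
    · rw [eB]
      exact mul_le_mul_of_nonneg_left hsz4 hκ2.le
    · refine bC1.trans ?_
      calc κ ^ 2 * N ^ 2 * (N * f w) ≤ κ ^ 2 * N ^ 2 * (N * N) :=
            mul_le_mul_of_nonneg_left (mul_le_mul_of_nonneg_left hw hN.le) (by positivity)
        _ = κ ^ 2 * N ^ 4 := by ring
  · intro hzN hwN
    rw [dupDom f hna, eB, hzN]
    rw [eB, hzN]
    refine dupAdd_lt f hna (lt_of_le_of_lt bC1 ?_) bC2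
    calc κ ^ 2 * N ^ 2 * (N * f w) < κ ^ 2 * N ^ 2 * (N * N) :=
          mul_lt_mul_of_pos_left (mul_lt_mul_of_pos_left hwN hN) (by positivity)
      _ = κ ^ 2 * N ^ 4 := by ring

/-- `|Psi|` for `κ N < |w| < N`. -/
private lemma dupPsiV (f : AbsoluteValue ℚ ℝ) (hna : IsNonarchimedean f) (h2 : f 2 = 1)
    (h3 : f 3 = 1) {e α w Z : ℚ} {s κ N : ℝ} (he : f e = s) (hα : f α = κ ^ 2 * s ^ 2)
    (hκ : 0 < κ) (hN : 0 < N) (hz : s * f Z = N) (hw : f w < N)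
    (hw2 : κ * N < f w) :
    s * f (4 * Z * (w ^ 2 * (3 * e * Z + w) + α * Z ^ 2 * (w + e * Z / 3)))
      = f w ^ 2 * N ^ 2 := by
  have h4 : f 4 = 1 := by
    have : (4 : ℚ) = 2 ^ 2 := by norm_num
    rw [this, map_pow, h2, one_pow]
  have w0 : 0 ≤ f w := f.nonneg _
  have e1 : f (3 * e * Z) = N := by
    rw [map_mul, map_mul, h3, he, one_mul, hz]
  have e2 : f (3 * e * Z + w) = N := by
    rw [dupDom f hna (by rw [e1]; exact hw), e1]
  have e3 : f (w ^ 2 * (3 * e * Z + w)) = f w ^ 2 * N := by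
    rw [map_mul, map_pow, e2]
  have e4 : f (w + e * Z / 3) ≤ N := by
    refine dupAdd_le f hna hw.le ?_
    rw [map_div₀, map_mul, he, h3, div_one, hz]
  have e5 : f (α * Z ^ 2 * (w + e * Z / 3)) ≤ κ ^ 2 * N ^ 2 * N := by
    rw [map_mul, map_mul, map_pow, hα]
    have : κ ^ 2 * s ^ 2 * f Z ^ 2 = κ ^ 2 * N ^ 2 := by rw [← hz]; ring
    rw [this]
    exact mul_le_mul_of_nonneg_left e4 (by positivity)
  have e6 : κ ^ 2 * N ^ 2 * N < f w ^ 2 * N := by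
    refine mul_lt_mul_of_pos_right ?_ hN
    calc κ ^ 2 * N ^ 2 = (κ * N) ^ 2 := by ring
      _ < f w ^ 2 := pow_lt_pow_left₀ hw2 (by positivity) (by norm_num)
  rw [map_mul, map_mul, h4, dupDom f hna (by rw [e3]; exact lt_of_le_of_lt e5 e6), e3]
  calc s * (1 * f Z * (f w ^ 2 * N)) = (s * f Z) * (f w ^ 2 * N) := by ring
    _ = f w ^ 2 * N ^ 2 := by rw [hz]; ring

private lemma dupLvEq (f : AbsoluteValue ℚ ℝ) (a b X Z : ℚ) (hν : 0 < nu f a b)
    (hN : 0 < Nv f a b X Z) (hM : 0 < Mv f a b X Z) :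
    Lv f a b 0 X Z = Real.log (Nv f a b X Z)
      - (Real.log (Nv f a b X Z) - Real.log (Mv f a b X Z))
      + (Real.log (Nv f a b X Z) - Real.log (Mv f a b X Z)) ^ 2 / nu f a b := by
  unfold Lv Tv
  rw [if_neg (not_le.2 hν), Real.log_div hN.ne' hM.ne']

/-- Upper bound for `Lv` through upper bounds for `N` and `M`. -/
private lemma dupLv_le' (f : AbsoluteValue ℚ ℝ) (a b : ℚ) (hν : 0 < nu f a b)
    (hD : 4 * a ^ 3 + 27 * b ^ 2 ≠ 0) {X Z : ℚ} (h : ¬ (X = 0 ∧ Z = 0))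
    {M₀ N₀ : ℝ} (hM0 : 0 < M₀) (h1 : kap f a b * N₀ ≤ M₀) (h2 : M₀ ≤ N₀)
    (hM : Mv f a b X Z ≤ M₀) (hN : Nv f a b X Z ≤ N₀) :
    Lv f a b 0 X Z ≤ Real.log M₀ + Real.log (N₀ / M₀) ^ 2 / nu f a b := by
  have hMp := Mv_pos f a b hD h
  have hNp := Nv_pos f a b hD h
  have hN0 : 0 < N₀ := lt_of_lt_of_le hM0 h2
  have hkp : 0 < kap f a b := Real.exp_pos _
  have hlk : Real.log (kap f a b) = -(nu f a b) / 2 := Real.log_exp _
  have hkN : kap f a b * Nv f a b X Z ≤ Mv f a b X Z := le_max_right _ _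
  have a1 : Real.log (Mv f a b X Z) ≤ Real.log M₀ := Real.log_le_log hMp hM
  have a2 : Real.log (Nv f a b X Z) ≤ Real.log N₀ := Real.log_le_log hNp hN
  have a3 : Real.log M₀ ≤ Real.log N₀ := Real.log_le_log hM0 h2
  have a4 : Real.log (Mv f a b X Z) ≤ Real.log (Nv f a b X Z) :=
    Real.log_le_log hMp (Mv_le f a b hν.le)
  have a5 : -(nu f a b) / 2 + Real.log N₀ ≤ Real.log M₀ := by
    rw [← hlk, ← Real.log_mul hkp.ne' hN0.ne']
    exact Real.log_le_log (mul_pos hkp hN0) h1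
  have a6 : -(nu f a b) / 2 + Real.log (Nv f a b X Z) ≤ Real.log (Mv f a b X Z) := by
    rw [← hlk, ← Real.log_mul hkp.ne' hNp.ne']
    exact Real.log_le_log (mul_pos hkp hNp) hkN
  rw [dupLvEq f a b X Z hν hNp hMp, Real.log_div hN0.ne' hM0.ne']
  generalize Real.log (Mv f a b X Z) = m at *
  generalize Real.log (Nv f a b X Z) = n at *
  generalize Real.log M₀ = m0 at *
  generalize Real.log N₀ = n0 at *
  generalize nu f a b = ν at *
  have key : 0 ≤ ((n0 - m0) ^ 2 - (n - m) ^ 2) + (m0 - m) * ν := by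
    have k1 : 0 ≤ (n0 - n) * ((n - m) + (n0 - m0)) :=
      mul_nonneg (by linarith) (by linarith)
    have k2 : 0 ≤ (m0 - m) * (ν - ((n - m) + (n0 - m0))) :=
      mul_nonneg (by linarith) (by linarith)
    nlinarith [k1, k2]
  have key2 : 0 ≤ (((n0 - m0) ^ 2 - (n - m) ^ 2) + (m0 - m) * ν) / ν := div_nonneg key hν.le
  have e : (((n0 - m0) ^ 2 - (n - m) ^ 2) + (m0 - m) * ν) / ν
      = (n0 - m0) ^ 2 / ν - (n - m) ^ 2 / ν + (m0 - m) := by
    field_simp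
  rw [e] at key2
  linarith

/-- `N(F) ≤ N⁴`. -/
private lemma dupTop (f : AbsoluteValue ℚ ℝ) (hna : IsNonarchimedean f) (h2 : f 2 = 1)
    {a b X Z : ℚ} {s N : ℝ} (hs : 0 ≤ s) (ha : f a ≤ s ^ 2) (hb : f b ≤ s ^ 3)
    (hX : f X ≤ N) (hZ : s * f Z ≤ N) :
    f (Phi a b X Z) ≤ N ^ 4 ∧ s * f (Psi a b X Z) ≤ N ^ 4 := by
  have h4 : f 4 = 1 := by
    have : (4 : ℚ) = 2 ^ 2 := by norm_num
    rw [this, map_pow, h2, one_pow]
  have h8 : f 8 = 1 := by
    have : (8 : ℚ) = 2 ^ 3 := by norm_num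
    rw [this, map_pow, h2, one_pow]
  have a0 : 0 ≤ f a := f.nonneg _
  have b0 : 0 ≤ f b := f.nonneg _
  have x0 : 0 ≤ f X := f.nonneg _
  have z0 : 0 ≤ f Z := f.nonneg _
  have sz0 : 0 ≤ s * f Z := mul_nonneg hs z0
  have hN : 0 ≤ N := x0.trans hX
  have x2 : f X ^ 2 ≤ N ^ 2 := pow_le_pow_left₀ x0 hX 2
  have x3 : f X ^ 3 ≤ N ^ 3 := pow_le_pow_left₀ x0 hX 3
  have x4 : f X ^ 4 ≤ N ^ 4 := pow_le_pow_left₀ x0 hX 4
  have z2 : (s * f Z) ^ 2 ≤ N ^ 2 := pow_le_pow_left₀ sz0 hZ 2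
  have z3 : (s * f Z) ^ 3 ≤ N ^ 3 := pow_le_pow_left₀ sz0 hZ 3
  have z4 : (s * f Z) ^ 4 ≤ N ^ 4 := pow_le_pow_left₀ sz0 hZ 4
  have ez2 : s ^ 2 * f Z ^ 2 = (s * f Z) ^ 2 := by ring
  have ez3 : s ^ 3 * f Z ^ 3 = (s * f Z) ^ 3 := by ring
  constructor
  · have e : Phi a b X Z = X ^ 4 + (-(2 * a * X ^ 2 * Z ^ 2)
        + (-(8 * b * X * Z ^ 3) + a ^ 2 * Z ^ 4)) := by
      unfold Phi
      ring
    rw [e]
    refine dupAdd_le f hna ?_ (dupAdd_le f hna ?_ (dupAdd_le f hna ?_ ?_))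
    · rw [map_pow]
      exact x4
    · rw [AbsoluteValue.map_neg, map_mul, map_mul, map_mul, map_pow, map_pow, h2]
      calc 1 * f a * f X ^ 2 * f Z ^ 2 = f X ^ 2 * (f a * f Z ^ 2) := by ring
        _ ≤ N ^ 2 * (s ^ 2 * f Z ^ 2) :=
          mul_le_mul x2 (mul_le_mul_of_nonneg_right ha (by positivity)) (by positivity)
            (by positivity)
        _ = N ^ 2 * (s * f Z) ^ 2 := by rw [ez2]
        _ ≤ N ^ 2 * N ^ 2 := mul_le_mul_of_nonneg_left z2 (by positivity)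
        _ = N ^ 4 := by ring
    · rw [AbsoluteValue.map_neg, map_mul, map_mul, map_mul, map_pow, h8]
      calc 1 * f b * f X * f Z ^ 3 = f X * (f b * f Z ^ 3) := by ring
        _ ≤ N * (s ^ 3 * f Z ^ 3) :=
          mul_le_mul hX (mul_le_mul_of_nonneg_right hb (by positivity)) (by positivity) hN
        _ = N * (s * f Z) ^ 3 := by rw [ez3]
        _ ≤ N * N ^ 3 := mul_le_mul_of_nonneg_left z3 hN
        _ = N ^ 4 := by ring
    · rw [map_mul, map_pow, map_pow]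
      calc f a ^ 2 * f Z ^ 4 ≤ (s ^ 2) ^ 2 * f Z ^ 4 :=
            mul_le_mul_of_nonneg_right (pow_le_pow_left₀ a0 ha 2) (by positivity)
        _ = (s * f Z) ^ 4 := by ring
        _ ≤ N ^ 4 := z4
  · have h5 : f (X ^ 3 + (a * X * Z ^ 2 + b * Z ^ 3)) ≤ N ^ 3 := by
      refine dupAdd_le f hna ?_ (dupAdd_le f hna ?_ ?_)
      · rw [map_pow]
        exact x3
      · rw [map_mul, map_mul, map_pow]
        calc f a * f X * f Z ^ 2 = f X * (f a * f Z ^ 2) := by ring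
          _ ≤ N * (s ^ 2 * f Z ^ 2) :=
            mul_le_mul hX (mul_le_mul_of_nonneg_right ha (by positivity)) (by positivity) hN
          _ = N * (s * f Z) ^ 2 := by rw [ez2]
          _ ≤ N * N ^ 2 := mul_le_mul_of_nonneg_left z2 hN
          _ = N ^ 3 := by ring
      · rw [map_mul, map_pow]
        calc f b * f Z ^ 3 ≤ s ^ 3 * f Z ^ 3 :=
              mul_le_mul_of_nonneg_right hb (by positivity)
          _ = (s * f Z) ^ 3 := ez3
          _ ≤ N ^ 3 := z3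
    have e : Psi a b X Z = 4 * Z * (X ^ 3 + (a * X * Z ^ 2 + b * Z ^ 3)) := by
      unfold Psi
      ring
    rw [e, map_mul, map_mul, h4]
    calc s * (1 * f Z * f (X ^ 3 + (a * X * Z ^ 2 + b * Z ^ 3)))
        = (s * f Z) * f (X ^ 3 + (a * X * Z ^ 2 + b * Z ^ 3)) := by ring
      _ ≤ N * N ^ 3 := mul_le_mul hZ h5 (f.nonneg _) hN
      _ = N ^ 4 := by ring

/-- `s |Psi| ≤ κ² N⁴` for `|w| ≤ κ N`. -/
private lemma dupPsiLe (f : AbsoluteValue ℚ ℝ) (hna : IsNonarchimedean f) (h2 : f 2 = 1)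
    (h3 : f 3 = 1) {e α w Z : ℚ} {s κ N : ℝ} (he : f e = s) (hα : f α = κ ^ 2 * s ^ 2)
    (hκ : 0 < κ) (hN : 0 < N) (hz : s * f Z = N) (hw : f w < N)
    (hw2 : f w ≤ κ * N) :
    s * f (4 * Z * (w ^ 2 * (3 * e * Z + w) + α * Z ^ 2 * (w + e * Z / 3)))
      ≤ κ ^ 2 * N ^ 4 := by
  have h4 : f 4 = 1 := by
    have : (4 : ℚ) = 2 ^ 2 := by norm_num
    rw [this, map_pow, h2, one_pow]
  have w0 : 0 ≤ f w := f.nonneg _
  have e1 : f (3 * e * Z) = N := by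
    rw [map_mul, map_mul, h3, he, one_mul, hz]
  have e2 : f (3 * e * Z + w) = N := by
    rw [dupDom f hna (by rw [e1]; exact hw), e1]
  have e3 : f (w ^ 2 * (3 * e * Z + w)) ≤ κ ^ 2 * N ^ 2 * N := by
    rw [map_mul, map_pow, e2]
    refine mul_le_mul_of_nonneg_right ?_ hN.le
    calc f w ^ 2 ≤ (κ * N) ^ 2 := pow_le_pow_left₀ w0 hw2 2
      _ = κ ^ 2 * N ^ 2 := by ring
  have e4 : f (w + e * Z / 3) ≤ N := by
    refine dupAdd_le f hna hw.le ?_
    rw [map_div₀, map_mul, he, h3, div_one, hz]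
  have e5 : f (α * Z ^ 2 * (w + e * Z / 3)) ≤ κ ^ 2 * N ^ 2 * N := by
    rw [map_mul, map_mul, map_pow, hα]
    have : κ ^ 2 * s ^ 2 * f Z ^ 2 = κ ^ 2 * N ^ 2 := by rw [← hz]; ring
    rw [this]
    exact mul_le_mul_of_nonneg_left e4 (by positivity)
  have e6 := dupAdd_le f hna e3 e5
  rw [map_mul, map_mul, h4]
  calc s * (1 * f Z * f (w ^ 2 * (3 * e * Z + w) + α * Z ^ 2 * (w + e * Z / 3)))
      = N * f (w ^ 2 * (3 * e * Z + w) + α * Z ^ 2 * (w + e * Z / 3)) := by rw [← hz]; ring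
    _ ≤ N * (κ ^ 2 * N ^ 2 * N) := mul_le_mul_of_nonneg_left e6 hN.le
    _ = κ ^ 2 * N ^ 4 := by ring

theorem Lv_dup_le (f : AbsoluteValue ℚ ℝ) (hna : IsNonarchimedean f) (h2 : f 2 = 1) (h3 : f 3 = 1)
    (a b : ℚ) (hD : 4 * a ^ 3 + 27 * b ^ 2 ≠ 0) (hν : 0 < nu f a b) {X Z : ℚ}
    (h : ¬ (X = 0 ∧ Z = 0)) (h' : ¬ (Phi a b X Z = 0 ∧ Psi a b X Z = 0)) :
    Lv f a b 0 (Phi a b X Z) (Psi a b X Z) ≤ 4 * Lv f a b 0 X Z := by
  have hN := Nv_pos f a b hD h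
  have hNF := Nv_pos f a b hD h'
  have hlog4 : 4 * Real.log (Nv f a b X Z) = Real.log (Nv f a b X Z ^ 4) := by
    rw [Real.log_pow]; norm_num
  have hκ : 0 < kap f a b := Real.exp_pos _
  have hκl : Real.log (kap f a b) = -(nu f a b) / 2 := Real.log_exp _
  have hκ1 : kap f a b < 1 := by
    unfold kap
    rw [Real.exp_lt_one_iff]
    linarith
  have hκ2 : kap f a b ^ 2 < 1 := by nlinarith
  have hab : ¬ (a = 0 ∧ b = 0) := by
    rintro ⟨rfl, rfl⟩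
    exact hD (by norm_num)
  have hs := sv_pos f a b hab
  obtain ⟨ha, hb⟩ := dupSize f hna h2 h3 a b hD hκ2 hs
  obtain ⟨ha0, hE, hA⟩ := dupEA f h2 h3 a b hD hs ha hb
  obtain ⟨hwN, hwM⟩ := dupMv f hna a b X Z hE (dupX a b X Z)
  have hXN : f X ≤ Nv f a b X Z := le_max_left _ _
  have hzN : sv f a b * f Z ≤ Nv f a b X Z := le_max_right _ _
  obtain ⟨hT1, hT2⟩ := dupTerms f hna h2 h3 hE hA hs hκ hκ2 hN hzN hwN
  obtain ⟨hP1, hP2⟩ := dupTop f hna h2 hs.le ha.le hb.le hXN hzN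
  have hU := dupU a b X Z ha0
  have hN4 : 0 < Nv f a b X Z ^ 4 := by positivity
  have hw4 : f (wv a b X Z ^ 4) = f (wv a b X Z) ^ 4 := map_pow f _ 4
  have hM := Mv_pos f a b hD h
  have hLv := dupLvEq f a b X Z hν hN hM
  have hle0 := Lv_le f a b (le_refl (0 : ℝ)) hD h'
  rcases hwN.eq_or_lt with hwe | hwlt
  · -- `|w| = N`
    have hMe : Mv f a b X Z = Nv f a b X Z := by
      unfold Mv
      rw [hwe, min_self]
      exact max_eq_left (mul_le_of_le_one_left hN.le hκ1.le)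
    rw [hMe, sub_self] at hLv
    have h5 : Nv f a b (Phi a b X Z) (Psi a b X Z) ≤ Nv f a b X Z ^ 4 := max_le hP1 hP2
    have h6 := Real.log_le_log hNF h5
    have h7 : (0 : ℝ) ^ 2 / nu f a b = 0 := by norm_num
    rw [h7] at hLv
    rw [hLv]
    linarith
  -- `|w| < N`
  have hz := dupNvEq f hna a b X Z hE (dupX a b X Z) hwlt
  have hκN4 : 0 < kap f a b ^ 2 * Nv f a b X Z ^ 4 := by positivity
  have hlκ : Real.log (kap f a b ^ 2 * Nv f a b X Z ^ 4)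
      = -(nu f a b) + 4 * Real.log (Nv f a b X Z) := by
    rw [Real.log_mul (by positivity) (by positivity), Real.log_pow, Real.log_pow, hκl]
    push_cast
    ring
  have w0 : 0 ≤ f (wv a b X Z) := f.nonneg _
  have hUle : ∀ c : ℝ, f (wv a b X Z) ^ 4 ≤ c → kap f a b ^ 2 * Nv f a b X Z ^ 4 ≤ c →
      f (wv a b (Phi a b X Z) (Psi a b X Z)) ≤ c := by
    intro c h5 h6
    rw [hU]
    exact dupAdd_le f hna (by rw [hw4]; exact h5) (hT1.trans h6)
  have hNle : ∀ c : ℝ, f (wv a b (Phi a b X Z) (Psi a b X Z)) ≤ c →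
      sv f a b * f (Psi a b X Z) ≤ c → Nv f a b (Phi a b X Z) (Psi a b X Z) ≤ c := by
    intro c h5 h6
    refine max_le ?_ h6
    have h7 : f (dupE a b * Psi a b X Z + wv a b (Phi a b X Z) (Psi a b X Z)) ≤ c :=
      dupAdd_le f hna (by rw [map_mul, hE]; exact h6) h5
    rw [← dupX a b (Phi a b X Z) (Psi a b X Z)] at h7
    exact h7
  rcases le_or_gt (f (wv a b X Z)) (kap f a b * Nv f a b X Z) with hle | hgt
  · -- `|w| ≤ κ N`
    have hMe : Mv f a b X Z = kap f a b * Nv f a b X Z := by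
      unfold Mv
      rw [min_eq_left hwlt.le]
      exact max_eq_right hle
    have h5 : f (wv a b X Z) ^ 4 ≤ kap f a b ^ 2 * Nv f a b X Z ^ 4 := by
      calc f (wv a b X Z) ^ 4 ≤ (kap f a b * Nv f a b X Z) ^ 4 := pow_le_pow_left₀ w0 hle 4
        _ = kap f a b ^ 2 * (kap f a b ^ 2 * Nv f a b X Z ^ 4) := by ring
        _ ≤ 1 * (kap f a b ^ 2 * Nv f a b X Z ^ 4) :=
          mul_le_mul_of_nonneg_right hκ2.le hκN4.le
        _ = kap f a b ^ 2 * Nv f a b X Z ^ 4 := one_mul _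
    have hPsi := dupPsiLe f hna h2 h3 hE hA hκ hN hz hwlt hle
    rw [← dupPsi a b X Z ha0] at hPsi
    have h6 := hNle _ (hUle _ h5 le_rfl) hPsi
    have h7 := Real.log_le_log hNF h6
    rw [hlκ] at h7
    have h8 : Real.log (Mv f a b X Z) = -(nu f a b) / 2 + Real.log (Nv f a b X Z) := by
      rw [hMe, Real.log_mul hκ.ne' hN.ne', hκl]
    rw [h8] at hLv
    have h9 : Lv f a b 0 X Z = Real.log (Nv f a b X Z) - nu f a b / 4 := by
      rw [hLv]
      field_simp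
      ring
    rw [h9]
    linarith
  · -- `κ N < |w| < N`
    have hr : 0 < f (wv a b X Z) := lt_of_le_of_lt (by positivity) hgt
    have hMe : Mv f a b X Z = f (wv a b X Z) := by
      unfold Mv
      rw [min_eq_left hwlt.le]
      exact max_eq_left hgt.le
    rw [hMe] at hLv
    have hPsi := dupPsiV f hna h2 h3 hE hA hκ hN hz hwlt hgt
    rw [← dupPsi a b X Z ha0] at hPsi
    have hr2 : f (wv a b X Z) ^ 2 < Nv f a b X Z ^ 2 := pow_lt_pow_left₀ hwlt w0 (by norm_num)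
    have hκr : (kap f a b * Nv f a b X Z) ^ 2 < f (wv a b X Z) ^ 2 :=
      pow_lt_pow_left₀ hgt (by positivity) (by norm_num)
    have hc2 : kap f a b ^ 2 * Nv f a b X Z ^ 4
        ≤ f (wv a b X Z) ^ 2 * Nv f a b X Z ^ 2 := by
      calc kap f a b ^ 2 * Nv f a b X Z ^ 4
          = (kap f a b * Nv f a b X Z) ^ 2 * Nv f a b X Z ^ 2 := by ring
        _ ≤ _ := mul_le_mul_of_nonneg_right hκr.le (by positivity)
    have hc2' : f (wv a b X Z) ^ 4 ≤ f (wv a b X Z) ^ 2 * Nv f a b X Z ^ 2 := by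
      calc f (wv a b X Z) ^ 4 = f (wv a b X Z) ^ 2 * f (wv a b X Z) ^ 2 := by ring
        _ ≤ _ := mul_le_mul_of_nonneg_left hr2.le (by positivity)
    have hN0 : Nv f a b (Phi a b X Z) (Psi a b X Z)
        ≤ f (wv a b X Z) ^ 2 * Nv f a b X Z ^ 2 := hNle _ (hUle _ hc2' hc2) hPsi.le
    rcases le_or_gt (f (wv a b X Z) ^ 2) (kap f a b * Nv f a b X Z ^ 2) with h5 | h5
    · have h6 : f (wv a b X Z) ^ 4 ≤ kap f a b ^ 2 * Nv f a b X Z ^ 4 := by
        calc f (wv a b X Z) ^ 4 = (f (wv a b X Z) ^ 2) ^ 2 := by ring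
          _ ≤ (kap f a b * Nv f a b X Z ^ 2) ^ 2 := pow_le_pow_left₀ (by positivity) h5 2
          _ = _ := by ring
      have hc1 : kap f a b * (f (wv a b X Z) ^ 2 * Nv f a b X Z ^ 2)
          ≤ kap f a b ^ 2 * Nv f a b X Z ^ 4 := by
        calc kap f a b * (f (wv a b X Z) ^ 2 * Nv f a b X Z ^ 2)
            = f (wv a b X Z) ^ 2 * (kap f a b * Nv f a b X Z ^ 2) := by ring
          _ ≤ (kap f a b * Nv f a b X Z ^ 2) * (kap f a b * Nv f a b X Z ^ 2) :=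
            mul_le_mul_of_nonneg_right h5 (by positivity)
          _ = _ := by ring
      have hMF : Mv f a b (Phi a b X Z) (Psi a b X Z)
          ≤ kap f a b ^ 2 * Nv f a b X Z ^ 4 :=
        max_le ((min_le_left _ _).trans (hUle _ h6 le_rfl))
          ((mul_le_mul_of_nonneg_left hN0 hκ.le).trans hc1)
      have h8 := dupLv_le' f a b hν hD h' hκN4 hc1 hc2 hMF hN0
      have h7 : Real.log (f (wv a b X Z) ^ 2 * Nv f a b X Z ^ 2
          / (kap f a b ^ 2 * Nv f a b X Z ^ 4))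
          = 2 * Real.log (f (wv a b X Z)) - 2 * Real.log (Nv f a b X Z) + nu f a b := by
        rw [Real.log_div (by positivity) (by positivity), hlκ,
          Real.log_mul (by positivity) (by positivity), Real.log_pow, Real.log_pow]
        push_cast
        ring
      rw [h7, hlκ] at h8
      refine le_trans h8 (le_of_eq ?_)
      rw [hLv]
      field_simp
      ring
    · have h7 : kap f a b ^ 2 * Nv f a b X Z ^ 4 ≤ f (wv a b X Z) ^ 4 := by
        calc kap f a b ^ 2 * Nv f a b X Z ^ 4 = (kap f a b * Nv f a b X Z ^ 2) ^ 2 := by ring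
          _ ≤ (f (wv a b X Z) ^ 2) ^ 2 := pow_le_pow_left₀ (by positivity) h5.le 2
          _ = _ := by ring
      have hc1 : kap f a b * (f (wv a b X Z) ^ 2 * Nv f a b X Z ^ 2)
          ≤ f (wv a b X Z) ^ 4 := by
        calc kap f a b * (f (wv a b X Z) ^ 2 * Nv f a b X Z ^ 2)
            = f (wv a b X Z) ^ 2 * (kap f a b * Nv f a b X Z ^ 2) := by ring
          _ ≤ f (wv a b X Z) ^ 2 * f (wv a b X Z) ^ 2 :=
            mul_le_mul_of_nonneg_left h5.le (by positivity)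
          _ = _ := by ring
      have hMF : Mv f a b (Phi a b X Z) (Psi a b X Z) ≤ f (wv a b X Z) ^ 4 :=
        max_le ((min_le_left _ _).trans (hUle _ le_rfl h7))
          ((mul_le_mul_of_nonneg_left hN0 hκ.le).trans hc1)
      have h6 := dupLv_le' f a b hν hD h' (by positivity) hc1 hc2' hMF hN0
      have h8 : Real.log (f (wv a b X Z) ^ 2 * Nv f a b X Z ^ 2 / f (wv a b X Z) ^ 4)
          = 2 * (Real.log (Nv f a b X Z) - Real.log (f (wv a b X Z))) := by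
        rw [Real.log_div (by positivity) (by positivity),
          Real.log_mul (by positivity) (by positivity), Real.log_pow, Real.log_pow,
          Real.log_pow]
        push_cast
        ring
      rw [h8, Real.log_pow] at h6
      refine le_trans h6 (le_of_eq ?_)
      rw [hLv]
      push_cast
      field_simp
      ring

end Pool.Agent.H24.LX
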