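import Pool.Agent.H24.LX.Nd

/-!
# LX NdI

Two points near a node, both in the interior `κ < f w, f w' < 1`. `η = y/w`, `η' = y'/w'`. `η² = w + 3e + (A w - B)/w²`, so `f(η² - 3e) < 1` (`nd_eta`), `f η ≤ 1`.
Same sign (`f(η - η') < 1`): `Nm = ww'(w + w' + 6e + 2ηη') + A(w+w') - 2B`; `f(ηη' - 3e) < 1`, so `f(w+w'+6e+2ηη') = f(12 e) = 1`, `f Nm = f w f w'`
(`> κ² ≥ f(A(w+w') - 2B)`), `f(w-w') ≤ max(f w, f w')`.
Opposite sign (`f(η + η') < 1`): `Np = ww'(w + w' + 6e - 2ηη') + ..`, `f Np = f w f w'`, so by `nd_prod` `f Nm/f(w-w')² = f Cc/(f w f w')`. `f(ww' - A) = f(ww')`.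
If `(f w f w')² ≠ κ²`: `f Cc = max((f w f w')², κ²)`; if equal, the left side is `κ`.
`nd_eta_or`: `f(η² - η'²) < 1`, `η² - η'² = (η-η')(η+η')`, each factor `≤ 1`.
-/

namespace Pool.Agent.H24.LX

private theorem na_sub {f : AbsoluteValue ℚ ℝ} (hna : IsNonarchimedean f) (x y : ℚ) :
    f (x - y) ≤ max (f x) (f y) := by
  have h := hna x (-y)
  rwa [f.map_neg, ← sub_eq_add_neg] at h

/-- the larger summand wins -/
private theorem na_add {f : AbsoluteValue ℚ ℝ} (hna : IsNonarchimedean f) {x y : ℚ}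
    (h : f y < f x) : f (x + y) = f x := by
  apply le_antisymm
  · exact (hna x y).trans (max_le le_rfl h.le)
  · have h1 := na_sub hna (x + y) y
    rw [add_sub_cancel_right] at h1
    rcases le_max_iff.1 h1 with h2 | h2
    · exact h2
    · exact absurd h2 (not_le.2 h)

private theorem na_add_lt {f : AbsoluteValue ℚ ℝ} (hna : IsNonarchimedean f) {x y : ℚ} {c : ℝ}
    (hx : f x < c) (hy : f y < c) : f (x + y) < c := (hna x y).trans_lt (max_lt hx hy)

private theorem na_sub_lt {f : AbsoluteValue ℚ ℝ} (hna : IsNonarchimedean f) {x y : ℚ} {c : ℝ}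
    (hx : f x < c) (hy : f y < c) : f (x - y) < c := (na_sub hna x y).trans_lt (max_lt hx hy)

private theorem na_add_le {f : AbsoluteValue ℚ ℝ} (hna : IsNonarchimedean f) {x y : ℚ} {c : ℝ}
    (hx : f x ≤ c) (hy : f y ≤ c) : f (x + y) ≤ c := (hna x y).trans (max_le hx hy)

private theorem na_sub_le {f : AbsoluteValue ℚ ℝ} (hna : IsNonarchimedean f) {x y : ℚ} {c : ℝ}
    (hx : f x ≤ c) (hy : f y ≤ c) : f (x - y) ≤ c := (na_sub hna x y).trans (max_le hx hy)

private theorem f_two_le {f : AbsoluteValue ℚ ℝ} (hna : IsNonarchimedean f) : f 2 ≤ 1 := by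
  have h := na_add_le hna (x := 1) (y := 1) (c := 1) (by rw [f.map_one]) (by rw [f.map_one])
  norm_num at h
  exact h

private theorem f_three_le {f : AbsoluteValue ℚ ℝ} (hna : IsNonarchimedean f) : f 3 ≤ 1 := by
  have h := na_add_le hna (x := 2) (y := 1) (c := 1) (f_two_le hna) (by rw [f.map_one])
  norm_num at h
  exact h

theorem nd_eta (f : AbsoluteValue ℚ ℝ) (hna : IsNonarchimedean f)
    {κ : ℝ} (hκ0 : 0 < κ) {e A B w y : ℚ} (he : f e = 1) (hA : f A = κ ^ 2)
    (hB : f B = κ ^ 2) (hw : κ < f w) (hw1 : f w < 1)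
    (hy : y ^ 2 = w ^ 2 * (w + 3 * e) + A * w - B) :
    f ((y / w) ^ 2 - 3 * e) < 1 ∧ f (y / w) ≤ 1 := by
  have hw0 : w ≠ 0 := by
    rintro rfl
    rw [f.map_zero] at hw
    linarith
  have hfw : 0 < f w := f.pos hw0
  have h1 : (y / w) ^ 2 - 3 * e = w + (A * w - B) / w ^ 2 := by
    rw [div_pow, hy]
    field_simp
    ring
  have h2 : f (A * w - B) ≤ κ ^ 2 := by
    apply na_sub_le hna
    · rw [f.map_mul, hA]
      nlinarith [sq_nonneg κ]
    · rw [hB]
  have h3 : f ((A * w - B) / w ^ 2) < 1 := by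
    rw [map_div₀, map_pow, div_lt_one (by positivity)]
    calc f (A * w - B) ≤ κ ^ 2 := h2
      _ < f w ^ 2 := pow_lt_pow_left₀ hw hκ0.le two_ne_zero
  have h4 : f ((y / w) ^ 2 - 3 * e) < 1 := by
    rw [h1]
    exact na_add_lt hna hw1 h3
  refine ⟨h4, ?_⟩
  have h5 : f ((y / w) ^ 2) ≤ 1 := by
    have h6 : (y / w) ^ 2 = ((y / w) ^ 2 - 3 * e) + 3 * e := by ring
    rw [h6]
    apply na_add_le hna h4.le
    rw [f.map_mul, he, mul_one]
    exact f_three_le hna
  rw [map_pow] at h5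
  exact (pow_le_one_iff_of_nonneg (f.nonneg _) two_ne_zero).1 h5

theorem nd_eta_or (f : AbsoluteValue ℚ ℝ) (hna : IsNonarchimedean f)
    {κ : ℝ} (hκ0 : 0 < κ) {e A B w y w' y' : ℚ} (he : f e = 1) (hA : f A = κ ^ 2)
    (hB : f B = κ ^ 2) (hw : κ < f w) (hw1 : f w < 1) (hw' : κ < f w') (hw1' : f w' < 1)
    (hy : y ^ 2 = w ^ 2 * (w + 3 * e) + A * w - B)
    (hy' : y' ^ 2 = w' ^ 2 * (w' + 3 * e) + A * w' - B) :
    f (y / w - y' / w') < 1 ∨ f (y / w + y' / w') < 1 := by
  obtain ⟨h1, -⟩ := nd_eta f hna hκ0 he hA hB hw hw1 hy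
  obtain ⟨h2, -⟩ := nd_eta f hna hκ0 he hA hB hw' hw1' hy'
  have h3 : (y / w - y' / w') * (y / w + y' / w') = ((y / w) ^ 2 - 3 * e) - ((y' / w') ^ 2 - 3 * e) := by
    ring
  have h4 : f (y / w - y' / w') * f (y / w + y' / w') < 1 := by
    rw [← f.map_mul, h3]
    exact na_sub_lt hna h1 h2
  by_contra hcon
  push Not at hcon
  obtain ⟨h5, h6⟩ := hcon
  nlinarith

private theorem key {f : AbsoluteValue ℚ ℝ} (hna : IsNonarchimedean f) (h2 : f 2 = 1) (h3 : f 3 = 1)
    {κ : ℝ} (hκ0 : 0 < κ) {e A B w w' t : ℚ} (he : f e = 1) (hA : f A = κ ^ 2)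
    (hB : f B = κ ^ 2) (hw : κ < f w) (hw1 : f w < 1) (hw' : κ < f w') (hw1' : f w' < 1)
    (ht : f (t - 3 * e) < 1) :
    f (w * w' * (w + w' + 6 * e + 2 * t) + (A * (w + w') - 2 * B)) = f w * f w' := by
  have h4 : f (12 * e) = 1 := by
    have : (12 : ℚ) * e = 2 * (2 * (3 * e)) := by ring
    rw [this, f.map_mul, f.map_mul, f.map_mul, h2, h3, he]
    norm_num
  have h5 : f (w + w' + 6 * e + 2 * t) = 1 := by
    have : w + w' + 6 * e + 2 * t = 12 * e + (w + w' + 2 * (t - 3 * e)) := by ring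
    rw [this, na_add hna, h4]
    rw [h4]
    apply na_add_lt hna (na_add_lt hna hw1 hw1')
    rw [f.map_mul, h2, one_mul]
    exact ht
  have h6 : f (w * w' * (w + w' + 6 * e + 2 * t)) = f w * f w' := by
    rw [f.map_mul, f.map_mul, h5, mul_one]
  rw [na_add hna, h6]
  rw [h6]
  have h7 : f (A * (w + w') - 2 * B) ≤ κ ^ 2 := by
    apply na_sub_le hna
    · rw [f.map_mul, hA]
      have : f (w + w') < 1 := na_add_lt hna hw1 hw1'
      nlinarith [sq_nonneg κ]
    · rw [f.map_mul, h2, hB, one_mul]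
  calc f (A * (w + w') - 2 * B) ≤ κ ^ 2 := h7
    _ < f w * f w' := by nlinarith

theorem nd_same (f : AbsoluteValue ℚ ℝ) (hna : IsNonarchimedean f) (h2 : f 2 = 1) (h3 : f 3 = 1)
    {κ : ℝ} (hκ0 : 0 < κ) (hκ1 : κ < 1) {e A B w y w' y' : ℚ} (he : f e = 1) (hA : f A = κ ^ 2)
    (hB : f B = κ ^ 2) (hw : κ < f w) (hw1 : f w < 1) (hw' : κ < f w') (hw1' : f w' < 1)
    (hy : y ^ 2 = w ^ 2 * (w + 3 * e) + A * w - B)
    (hy' : y' ^ 2 = w' ^ 2 * (w' + 3 * e) + A * w' - B) (hne : w ≠ w')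
    (h : f (y / w - y' / w') < 1) :
    min (f w) (f w') / max (f w) (f w') ≤
      max (min 1 (f (Nm e A B w y w' y') / f (w - w') ^ 2)) κ := by
  have hfw : 0 < f w := hκ0.trans hw
  have hfw' : 0 < f w' := hκ0.trans hw'
  have hw0 : w ≠ 0 := fun h => by rw [h, f.map_zero] at hfw; exact lt_irrefl _ hfw
  have hw0' : w' ≠ 0 := fun h => by rw [h, f.map_zero] at hfw'; exact lt_irrefl _ hfw'
  obtain ⟨h4, h5⟩ := nd_eta f hna hκ0 he hA hB hw hw1 hy
  have h6 : f ((y / w) * (y' / w') - 3 * e) < 1 := by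
    have h7 : (y / w) * (y' / w') - 3 * e = ((y / w) ^ 2 - 3 * e) - (y / w) * (y / w - y' / w') := by ring
    rw [h7]
    apply na_sub_lt hna h4
    rw [f.map_mul]
    calc f (y / w) * f (y / w - y' / w') ≤ 1 * f (y / w - y' / w') :=
          mul_le_mul_of_nonneg_right h5 (f.nonneg _)
      _ < 1 := by rw [one_mul]; exact h
  have h8 : Nm e A B w y w' y' = w * w' * (w + w' + 6 * e + 2 * ((y / w) * (y' / w'))) +
      (A * (w + w') - 2 * B) := by
    unfold Nm
    field_simp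
    ring
  have h9 : f (Nm e A B w y w' y') = f w * f w' := by
    rw [h8]
    exact key hna h2 h3 hκ0 he hA hB hw hw1 hw' hw1' h6
  have h10 : 0 < f (w - w') := f.pos (sub_ne_zero.2 hne)
  have h11 : f (w - w') ≤ max (f w) (f w') := na_sub hna w w'
  have hmax : 0 < max (f w) (f w') := lt_max_of_lt_left hfw
  apply le_max_of_le_left
  apply le_min
  · rw [div_le_one hmax]
    exact min_le_max
  · rw [h9, ← min_mul_max (f w) (f w'), div_le_div_iff₀ hmax (by positivity)]
    have hmin : 0 ≤ min (f w) (f w') := le_min hfw.le hfw'.le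
    have h12 : f (w - w') ^ 2 ≤ max (f w) (f w') ^ 2 := pow_le_pow_left₀ h10.le h11 2
    calc min (f w) (f w') * f (w - w') ^ 2 ≤ min (f w) (f w') * max (f w) (f w') ^ 2 :=
          mul_le_mul_of_nonneg_left h12 hmin
      _ = min (f w) (f w') * max (f w) (f w') * max (f w) (f w') := by ring

theorem nd_opp (f : AbsoluteValue ℚ ℝ) (hna : IsNonarchimedean f) (h2 : f 2 = 1) (h3 : f 3 = 1)
    {κ : ℝ} (hκ0 : 0 < κ) (hκ1 : κ < 1) {e A B w y w' y' : ℚ} (he : f e = 1) (hA : f A = κ ^ 2)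
    (hB : f B = κ ^ 2) (hw : κ < f w) (hw1 : f w < 1) (hw' : κ < f w') (hw1' : f w' < 1)
    (hy : y ^ 2 = w ^ 2 * (w + 3 * e) + A * w - B)
    (hy' : y' ^ 2 = w' ^ 2 * (w' + 3 * e) + A * w' - B) (hne : w ≠ w')
    (h : f (y / w + y' / w') < 1) :
    max (f w * f w') (κ ^ 2 / (f w * f w')) ≤
      max (min 1 (f (Nm e A B w y w' y') / f (w - w') ^ 2)) κ := by
  have hfw : 0 < f w := hκ0.trans hw
  have hfw' : 0 < f w' := hκ0.trans hw'
  have hw0 : w ≠ 0 := fun h => by rw [h, f.map_zero] at hfw; exact lt_irrefl _ hfw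
  have hw0' : w' ≠ 0 := fun h => by rw [h, f.map_zero] at hfw'; exact lt_irrefl _ hfw'
  have hP : 0 < f w * f w' := mul_pos hfw hfw'
  have hP1 : f w * f w' < 1 := by nlinarith
  have hPκ : κ ^ 2 < f w * f w' := by nlinarith
  obtain ⟨h4, h5⟩ := nd_eta f hna hκ0 he hA hB hw hw1 hy
  have h6 : f (-((y / w) * (y' / w')) - 3 * e) < 1 := by
    have h7 : -((y / w) * (y' / w')) - 3 * e = ((y / w) ^ 2 - 3 * e) - (y / w) * (y / w + y' / w') := by ring
    rw [h7]
    apply na_sub_lt hna h4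
    rw [f.map_mul]
    calc f (y / w) * f (y / w + y' / w') ≤ 1 * f (y / w + y' / w') :=
          mul_le_mul_of_nonneg_right h5 (f.nonneg _)
      _ < 1 := by rw [one_mul]; exact h
  have h8 : Np e A B w y w' y' = w * w' * (w + w' + 6 * e + 2 * (-((y / w) * (y' / w')))) +
      (A * (w + w') - 2 * B) := by
    unfold Np
    field_simp
    ring
  have h9 : f (Np e A B w y w' y') = f w * f w' := by
    rw [h8]
    exact key hna h2 h3 hκ0 he hA hB hw hw1 hw' hw1' h6
  have h10 : 0 < f (w - w') := f.pos (sub_ne_zero.2 hne)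
  have h11 : f (Nm e A B w y w' y') / f (w - w') ^ 2 = f (Cc e A B w w') / (f w * f w') := by
    rw [div_eq_div_iff (by positivity) hP.ne', ← h9, ← f.map_mul, nd_prod hy hy', f.map_mul, map_pow]
    ring
  rw [h11]
  by_cases hc : f w * f w' = κ
  · rw [hc]
    apply le_max_of_le_right
    apply max_le le_rfl
    rw [pow_two, mul_div_assoc, div_self hκ0.ne', mul_one]
  · have h12 : f ((w * w' - A) ^ 2) = (f w * f w') ^ 2 := by
      rw [map_pow]
      congr 1
      rw [sub_eq_add_neg, na_add hna, f.map_mul]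
      rw [f.map_neg, hA, f.map_mul]
      exact hPκ
    have h13 : f (4 * B * (w + w' + 3 * e)) = κ ^ 2 := by
      have h14 : f (w + w' + 3 * e) = 1 := by
        rw [add_comm, na_add hna]
        · rw [f.map_mul, h3, he, mul_one]
        · rw [f.map_mul, h3, he, mul_one]
          exact na_add_lt hna hw1 hw1'
      have h15 : f 4 = 1 := by
        have : (4 : ℚ) = 2 * 2 := by norm_num
        rw [this, f.map_mul, h2, mul_one]
      rw [f.map_mul, f.map_mul, h14, h15, hB]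
      ring
    have h16 : max (f w * f w') (κ ^ 2 / (f w * f w')) = f (Cc e A B w w') / (f w * f w') := by
      rcases lt_or_gt_of_ne hc with h17 | h17
      · have h18 : f (Cc e A B w w') = κ ^ 2 := by
          unfold Cc
          rw [add_comm, na_add hna, h13]
          rw [h12, h13]
          exact pow_lt_pow_left₀ h17 hP.le two_ne_zero
        rw [h18, max_eq_right]
        rw [le_div_iff₀ hP]
        nlinarith
      · have h18 : f (Cc e A B w w') = (f w * f w') ^ 2 := by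
          unfold Cc
          rw [na_add hna, h12]
          rw [h12, h13]
          exact pow_lt_pow_left₀ h17 hκ0.le two_ne_zero
        rw [h18, max_eq_left]
        · field_simp
        · rw [div_le_iff₀ hP]
          nlinarith
    rw [← h16]
    apply le_max_of_le_left
    apply le_min _ le_rfl
    apply max_le hP1.le
    rw [div_le_one hP]
    exact hPκ.le

end Pool.Agent.H24.LX
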