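import Pool.Agent.H24.LX.Defs

/-!
# LX RstB

`Rst ≤ 10 (GT {2,3} + C) + 3 ∑_{star} ν⁺`. For every absolute value `f` with `f 2 ≥ 1/2`, `f 3 ≥ 1/3`:
`s⁶ ≤ 27 |D| + 108 |a|³` (`rbSv_le`; if `s³ = |b|`: `s⁶ ≤ 27 |27b²| ≤ 27(|D| + 4|a|³)`) and `|a|³/|D| ≤ 6912 |j|`, so
`ν ≤ 20 + log max(1, |j|)` (`rbNu_le`), which is `log⁺|j| + 20` at infinity and `n_p log p + 20` at `p`. At `p ≥ 5`, `p ∉ mult`,
`p ∈ places`: `p ∣ D` and `p ∣ a`; either `p ∈ addPrimes` and `ν_p = n_p log p = 0` (`nu_eq`, `np_eq_zero`), the term is `2 log p`, or `p ∈ star`, `log p ≤ ν_p`, the terms are `≤ 3ν_p`.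
-/

namespace Pool.Agent.H24.LX

open Pool.Agent.H24.LP Pool.Agent.H24.LQ Pool.Agent.H24.LR Finset

private lemma rbAb_ne {a b : ℤ} (hD : D a b ≠ 0) : ¬ ((a : ℚ) = 0 ∧ (b : ℚ) = 0) := by
  rintro ⟨ha, hb⟩
  apply hD
  have ha' : a = 0 := by exact_mod_cast ha
  have hb' : b = 0 := by exact_mod_cast hb
  subst ha' hb'
  simp [D]

/-- `max(1, |j|_p) = p^{n_p}` -/
private lemma rbFv_j {a b : ℤ} {p : ℕ} (hp : p.Prime) :
    max 1 (fv p (jInv a b)) = (p : ℝ) ^ np a b p := by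
  have hden : ((jInv a b).den : ℤ) ≠ 0 := by exact_mod_cast (jInv a b).den_nz
  have hfd := fv_int hp hden
  have hj : jInv a b = (((jInv a b).num : ℤ) : ℚ) / ((((jInv a b).den : ℕ) : ℤ) : ℚ) := by
    have := Rat.num_div_den (jInv a b)
    push_cast
    exact this.symm
  have hfj : fv p (jInv a b) = fv p (((jInv a b).num : ℤ) : ℚ) * (p : ℝ) ^ np a b p := by
    conv_lhs => rw [hj]
    rw [map_div₀, hfd, div_inv_eq_mul]
    rfl
  have hp1 : (1 : ℝ) ≤ (p : ℝ) := by exact_mod_cast hp.one_lt.le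
  by_cases hpd : p ∣ (jInv a b).den
  · have hnum : ¬ p ∣ (jInv a b).num.natAbs := by
      intro h
      have h1 := Nat.dvd_gcd h hpd
      rw [(jInv a b).reduced] at h1
      exact hp.one_lt.ne' (Nat.dvd_one.mp h1)
    have hnum0 : (jInv a b).num ≠ 0 := by
      intro h
      rw [h] at hnum
      exact hnum (by simp)
    have h2 := fv_int hp hnum0
    rw [Nat.factorization_eq_zero_of_not_dvd hnum, pow_zero, inv_one] at h2
    rw [hfj, h2, one_mul]
    exact max_eq_right (one_le_pow₀ hp1)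
  · have h3 : np a b p = 0 := Nat.factorization_eq_zero_of_not_dvd hpd
    rw [hfj, h3, pow_zero, mul_one]
    exact max_eq_left (fv_int_le hp _)

private lemma rbFv_j_eq (f : AbsoluteValue ℚ ℝ) (a b : ℤ) : f (jInv a b) =
    f 6912 * f a ^ 3 / f (4 * (a : ℚ) ^ 3 + 27 * (b : ℚ) ^ 2) := by
  have h : jInv a b = 6912 * (a : ℚ) ^ 3 / (4 * (a : ℚ) ^ 3 + 27 * (b : ℚ) ^ 2) := by
    rw [jInv]; ring
  rw [h, map_div₀, map_mul, map_pow]

private lemma rbSv_le (f : AbsoluteValue ℚ ℝ) (h3 : 1 / 3 ≤ f 3) (a b : ℚ) :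
    sv f a b ^ 6 ≤ 27 * f (4 * a ^ 3 + 27 * b ^ 2) + 108 * f a ^ 3 := by
  have h0 := f.nonneg (4 * a ^ 3 + 27 * b ^ 2)
  have ha : 0 ≤ f a ^ 3 := pow_nonneg (f.nonneg a) 3
  rcases sv_or f a b with h | h
  · have h1 : sv f a b ^ 6 = f a ^ 3 := by rw [h]; ring
    linarith
  · have h1 : sv f a b ^ 6 = f b ^ 2 := by rw [h]; ring
    have hb : 0 ≤ f b ^ 2 := pow_nonneg (f.nonneg b) 2
    have h27 : 1 / 27 ≤ f 27 := by
      rw [show (27 : ℚ) = 3 ^ 3 by norm_num, map_pow]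
      calc (1 : ℝ) / 27 = (1 / 3) ^ 3 := by norm_num
        _ ≤ f 3 ^ 3 := pow_le_pow_left₀ (by norm_num) h3 3
    have h4 : f 4 ≤ 4 := by exact_mod_cast f.apply_nat_le_self 4
    have e : f (27 * b ^ 2) ≤ f (4 * a ^ 3 + 27 * b ^ 2) + f (4 * a ^ 3) := by
      have e1 : 27 * b ^ 2 = (4 * a ^ 3 + 27 * b ^ 2) + (-(4 * a ^ 3)) := by ring
      calc f (27 * b ^ 2) = f ((4 * a ^ 3 + 27 * b ^ 2) + (-(4 * a ^ 3))) := by rw [← e1]
        _ ≤ f (4 * a ^ 3 + 27 * b ^ 2) + f (-(4 * a ^ 3)) := f.add_le _ _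
        _ = f (4 * a ^ 3 + 27 * b ^ 2) + f (4 * a ^ 3) := by rw [f.map_neg]
    have e2 : f (27 * b ^ 2) = f 27 * f b ^ 2 := by rw [map_mul, map_pow]
    have e3 : f (4 * a ^ 3) = f 4 * f a ^ 3 := by rw [map_mul, map_pow]
    have e4 : f 4 * f a ^ 3 ≤ 4 * f a ^ 3 := mul_le_mul_of_nonneg_right h4 ha
    have e5 : 1 / 27 * f b ^ 2 ≤ f 27 * f b ^ 2 := mul_le_mul_of_nonneg_right h27 hb
    rw [e2, e3] at e
    rw [h1]
    linarith

/-- `ν ≤ 20 + log max(1, |j|)`. -/
private lemma rbNu_le (f : AbsoluteValue ℚ ℝ) (h2 : 1 / 2 ≤ f 2) (h3 : 1 / 3 ≤ f 3) {a b : ℤ}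
    (hD : D a b ≠ 0) : nu f a b ≤ 20 + Real.log (max 1 (f (jInv a b))) := by
  have hf : 0 < f (4 * (a : ℚ) ^ 3 + 27 * (b : ℚ) ^ 2) := f.pos (D_cast_ne hD)
  have hs : 0 < sv f a b := sv_pos f a b (rbAb_ne hD)
  have h6912 : 1 / 6912 ≤ f 6912 := by
    rw [show (6912 : ℚ) = 2 ^ 8 * 3 ^ 3 by norm_num, map_mul, map_pow, map_pow]
    calc (1 : ℝ) / 6912 = (1 / 2) ^ 8 * (1 / 3) ^ 3 := by norm_num
      _ ≤ f 2 ^ 8 * f 3 ^ 3 := mul_le_mul (pow_le_pow_left₀ (by norm_num) h2 8)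
          (pow_le_pow_left₀ (by norm_num) h3 3) (by norm_num) (pow_nonneg (f.nonneg 2) 8)
  have hj := rbFv_j_eq f a b
  have ha : 0 ≤ f (a : ℚ) ^ 3 := pow_nonneg (f.nonneg _) 3
  have h4 : f (a : ℚ) ^ 3 / f (4 * (a : ℚ) ^ 3 + 27 * (b : ℚ) ^ 2) ≤ 6912 * f (jInv a b) := by
    rw [hj]
    have h5 : 0 ≤ f (a : ℚ) ^ 3 / f (4 * (a : ℚ) ^ 3 + 27 * (b : ℚ) ^ 2) :=
      div_nonneg ha hf.le
    have e : 6912 * (f 6912 * f (a : ℚ) ^ 3 / f (4 * (a : ℚ) ^ 3 + 27 * (b : ℚ) ^ 2))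
        = (6912 * f 6912) * (f (a : ℚ) ^ 3 / f (4 * (a : ℚ) ^ 3 + 27 * (b : ℚ) ^ 2)) := by ring
    rw [e]
    exact le_mul_of_one_le_left h5 (by linarith)
  have h7 : sv f a b ^ 6 / f (4 * (a : ℚ) ^ 3 + 27 * (b : ℚ) ^ 2) ≤
      746523 * max 1 (f (jInv a b)) := by
    have h8 := rbSv_le f h3 a b
    have h9 : sv f a b ^ 6 / f (4 * (a : ℚ) ^ 3 + 27 * (b : ℚ) ^ 2) ≤
        27 + 108 * (f (a : ℚ) ^ 3 / f (4 * (a : ℚ) ^ 3 + 27 * (b : ℚ) ^ 2)) := by
      rw [div_le_iff₀ hf]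
      have e : (27 + 108 * (f (a : ℚ) ^ 3 / f (4 * (a : ℚ) ^ 3 + 27 * (b : ℚ) ^ 2)))
          * f (4 * (a : ℚ) ^ 3 + 27 * (b : ℚ) ^ 2)
          = 27 * f (4 * (a : ℚ) ^ 3 + 27 * (b : ℚ) ^ 2) + 108 * f (a : ℚ) ^ 3 := by
        rw [add_mul, mul_assoc 108, div_mul_cancel₀ _ hf.ne']
      rw [e]
      exact h8
    have h10 := le_max_left 1 (f (jInv a b))
    have h11 := le_max_right 1 (f (jInv a b))
    linarith
  have h12 : Real.log 746523 ≤ 20 := by
    have h13 : Real.log 746523 ≤ Real.log (2 ^ 20) := Real.log_le_log (by norm_num) (by norm_num)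
    rw [Real.log_pow] at h13
    have h14 := Real.log_two_lt_d9
    push_cast at h13
    linarith
  have hm : 0 < max 1 (f (jInv a b)) := lt_of_lt_of_le one_pos (le_max_left _ _)
  unfold nu
  refine (Real.log_le_log (div_pos (pow_pos hs 6) hf) h7).trans ?_
  rw [Real.log_mul (by norm_num) hm.ne']
  linarith

private lemma rbLog_max (x : ℝ) : Real.log (max 1 x) ≤ max 0 (Real.log x) := by
  rcases le_total 1 x with h | h
  · rw [max_eq_right h]
    exact le_max_right _ _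
  · rw [max_eq_left h, Real.log_one]
    exact le_max_left _ _

private lemma rbInf {a b : ℤ} (hD : D a b ≠ 0) : nup a b 0 ≤ wInf a b + 20 := by
  have h := rbNu_le (fv 0) (fv_two 0) (fv_three 0) hD
  have h1 := rbLog_max (fv 0 (jInv a b))
  have h2 : max 0 (Real.log (fv 0 (jInv a b))) = wInf a b := by rw [fv_zero, wInf]
  have hw : 0 ≤ wInf a b := le_max_left _ _
  rw [h2] at h1
  exact max_le (by linarith) (by linarith)

private lemma rbPrime {a b : ℤ} (hD : D a b ≠ 0) {p : ℕ} (hp : p.Prime) :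
    nup a b p ≤ np a b p * Real.log p + 20 := by
  have h := rbNu_le (fv p) (fv_two p) (fv_three p) hD
  rw [rbFv_j hp, Real.log_pow] at h
  have h0 : 0 ≤ (np a b p : ℝ) * Real.log p :=
    mul_nonneg (Nat.cast_nonneg _) (Real.log_natCast_nonneg p)
  exact max_le (by linarith) (by linarith)

private lemma rbSum (s t : Finset ℕ) (g : ℕ → ℝ) (hg : ∀ v, 0 ≤ g v) :
    ∑ v ∈ s, (if v ∈ t then g v else 0) ≤ ∑ v ∈ t, g v := by
  rw [← Finset.sum_filter]
  refine Finset.sum_le_sum_of_subset_of_nonneg ?_ fun v _ _ => hg v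
  intro v hv
  exact (Finset.mem_filter.mp hv).2

private lemma rbIte_nonneg {c : Prop} [Decidable c] {x : ℝ} (hx : 0 ≤ x) :
    0 ≤ (if c then x else 0) := by
  split_ifs
  · exact hx
  · exact le_rfl

theorem Rst_le : ∃ C : ℝ, 0 ≤ C ∧ ∀ (a b : ℤ), D a b ≠ 0 →
    Rst a b ≤ 10 * (GT a b {2, 3} + C) + 3 * ∑ p ∈ star a b, nup a b p := by
  refine ⟨6, by norm_num, fun a b hD => ?_⟩
  have hw : 0 ≤ wInf a b := le_max_left _ _
  have hlog : ∀ v : ℕ, 0 ≤ Real.log (v : ℝ) := fun v => Real.log_natCast_nonneg v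
  have hnp : ∀ v : ℕ, 0 ≤ (np a b v : ℝ) * Real.log v := fun v =>
    mul_nonneg (Nat.cast_nonneg _) (hlog v)
  have hnup : ∀ v : ℕ, 0 ≤ nup a b v := fun v => nup_nonneg a b v
  have g0 : ∀ v : ℕ, 0 ≤ (fun _ : ℕ => wInf a b + 20) v := fun v => by
    show 0 ≤ wInf a b + 20
    linarith
  have g1 : ∀ v : ℕ, 0 ≤ (fun v : ℕ => (np a b v : ℝ) * Real.log v + 20) v := fun v => by
    show 0 ≤ (np a b v : ℝ) * Real.log v + 20
    have := hnp v
    linarith
  have g2 : ∀ v : ℕ, 0 ≤ (fun v : ℕ => 2 * Real.log (v : ℝ)) v := fun v => by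
    show 0 ≤ 2 * Real.log (v : ℝ)
    have := hlog v
    linarith
  have g3 : ∀ v : ℕ, 0 ≤ (fun v : ℕ => 3 * nup a b v) v := fun v => by
    show 0 ≤ 3 * nup a b v
    have := hnup v
    linarith
  have key : ∀ v ∈ places a b \ mult a b,
      nup a b v + (if 5 ≤ v then 2 * Real.log (v : ℝ) else 0) ≤
        (if v ∈ ({0} : Finset ℕ) then wInf a b + 20 else 0)
          + (if v ∈ ({2, 3} : Finset ℕ) then (np a b v : ℝ) * Real.log v + 20 else 0)
          + (if v ∈ addPrimes a b then 2 * Real.log (v : ℝ) else 0)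
          + (if v ∈ star a b then 3 * nup a b v else 0) := by
    intro v hv
    rw [Finset.mem_sdiff] at hv
    have i0 : 0 ≤ (if v ∈ ({0} : Finset ℕ) then wInf a b + 20 else 0) := rbIte_nonneg (g0 v)
    have i1 : 0 ≤ (if v ∈ ({2, 3} : Finset ℕ) then (np a b v : ℝ) * Real.log v + 20 else 0) :=
      rbIte_nonneg (g1 v)
    have i2 : 0 ≤ (if v ∈ addPrimes a b then 2 * Real.log (v : ℝ) else 0) := rbIte_nonneg (g2 v)
    have i3 : 0 ≤ (if v ∈ star a b then 3 * nup a b v else 0) := rbIte_nonneg (g3 v)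
    rcases mem_places hv.1 with h0 | hp
    · have e5 : (if 5 ≤ v then 2 * Real.log (v : ℝ) else 0) = 0 := if_neg (by omega)
      have e0 : (if v ∈ ({0} : Finset ℕ) then wInf a b + 20 else 0) = wInf a b + 20 :=
        if_pos (Finset.mem_singleton.mpr h0)
      have h1 : nup a b v ≤ wInf a b + 20 := by
        rw [h0]
        exact rbInf hD
      rw [e5, e0]
      linarith
    · by_cases h5 : 5 ≤ v
      · have e5 : (if 5 ≤ v then 2 * Real.log (v : ℝ) else 0) = 2 * Real.log (v : ℝ) := if_pos h5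
        rw [e5]
        have hmem : v ∈ (6 * D a b).natAbs.primeFactors := by
          rcases Finset.mem_insert.mp hv.1 with h | h
          · omega
          · exact h
        have h6 : v ∣ (D a b).natAbs := by
          have h7 := Nat.dvd_of_mem_primeFactors hmem
          rw [Int.natAbs_mul] at h7
          rcases (Nat.Prime.dvd_mul hp).mp h7 with h8 | h8
          · exfalso
            have h9 : v ∣ 6 := h8
            have h10 : v ≤ 6 := Nat.le_of_dvd (by norm_num) h9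
            have h11 : v = 5 ∨ v = 6 := by omega
            rcases h11 with h11 | h11
            · rw [h11] at h9
              omega
            · rw [h11] at hp
              exact absurd hp (by norm_num)
          · exact h8
        have hDm : v ∈ (D a b).natAbs.primeFactors :=
          Nat.mem_primeFactors.mpr ⟨hp, h6, Int.natAbs_ne_zero.mpr hD⟩
        have ha : (v : ℤ) ∣ a := by
          by_contra hna
          exact hv.2 (Finset.mem_filter.mpr ⟨hDm, h5, hna⟩)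
        by_cases hden : v ∣ (jInv a b).den
        · have hpo : v ∈ poles a b :=
            Nat.mem_primeFactors.mpr ⟨hp, hden, (jInv a b).den_nz⟩
          have hst : v ∈ star a b := Finset.mem_filter.mpr ⟨hpo, h5, ha⟩
          have e3 : (if v ∈ star a b then 3 * nup a b v else 0) = 3 * nup a b v := if_pos hst
          have hn : (1 : ℝ) ≤ np a b v := by exact_mod_cast HeightData.np_pos hpo
          have h12 : (np a b v : ℝ) * Real.log v ≤ nup a b v :=
            (nu_ge_np hD hp).trans (le_max_right _ _)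
          have h13 : 1 * Real.log (v : ℝ) ≤ (np a b v : ℝ) * Real.log v :=
            mul_le_mul_of_nonneg_right hn (hlog v)
          rw [e3]
          linarith
        · have hadd : v ∈ addPrimes a b := Finset.mem_filter.mpr ⟨hDm, h5, hden⟩
          have hnpo : v ∉ poles a b := fun h => hden (Nat.dvd_of_mem_primeFactors h)
          have e2 : (if v ∈ addPrimes a b then 2 * Real.log (v : ℝ) else 0)
              = 2 * Real.log (v : ℝ) := if_pos hadd
          have h14 : nup a b v = 0 := by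
            rw [nup, nu_eq hD hp h5, np_eq_zero hnpo]
            simp
          rw [e2]
          linarith
      · have e5 : (if 5 ≤ v then 2 * Real.log (v : ℝ) else 0) = 0 := if_neg h5
        have h23 : v ∈ ({2, 3} : Finset ℕ) := by
          have h2 := hp.two_le
          have h4 : v ≠ 4 := by
            intro h
            rw [h] at hp
            exact absurd hp (by norm_num)
          rw [Finset.mem_insert, Finset.mem_singleton]
          omega
        have e1 : (if v ∈ ({2, 3} : Finset ℕ) then (np a b v : ℝ) * Real.log v + 20 else 0)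
            = (np a b v : ℝ) * Real.log v + 20 := if_pos h23
        have h1 := rbPrime hD hp
        rw [e5, e1]
        linarith
  have hs := Finset.sum_le_sum key
  rw [Finset.sum_add_distrib, Finset.sum_add_distrib, Finset.sum_add_distrib,
    Finset.sum_add_distrib, ← Finset.sum_filter] at hs
  have s0 := rbSum (places a b \ mult a b) {0} (fun _ => wInf a b + 20) g0
  have s1 := rbSum (places a b \ mult a b) {2, 3}
    (fun v => (np a b v : ℝ) * Real.log v + 20) g1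
  have s2 := rbSum (places a b \ mult a b) (addPrimes a b) (fun v => 2 * Real.log (v : ℝ)) g2
  have s3 := rbSum (places a b \ mult a b) (star a b) (fun v => 3 * nup a b v) g3
  rw [Finset.sum_singleton] at s0
  rw [Finset.sum_add_distrib] at s1
  rw [← Finset.mul_sum] at s2 s3
  have c20 : ∑ v ∈ ({2, 3} : Finset ℕ), (20 : ℝ) = 40 := by
    rw [Finset.sum_pair (by norm_num)]
    norm_num
  rw [c20] at s1
  have p1 : 0 ≤ ∑ p ∈ ({2, 3} : Finset ℕ), (np a b p : ℝ) * Real.log p :=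
    Finset.sum_nonneg fun p _ => hnp p
  have p2 : 0 ≤ ∑ p ∈ poles a b, Real.log p / np a b p :=
    Finset.sum_nonneg fun p _ => div_nonneg (hlog p) (Nat.cast_nonneg _)
  have p3 : 0 ≤ ∑ p ∈ addPrimes a b, Real.log (p : ℝ) := Finset.sum_nonneg fun p _ => hlog p
  unfold Rst GT
  linarith

end Pool.Agent.H24.LX
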