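import Pool.Agent.H24.LX.Df
import Pool.Agent.H24.LX.NdI

/-!
# LX Sgn

The positions on the circle. `p ∈ mult`, `ν = nu > 0`, `κ = exp(-ν/2)`. For an integral point `m(z) = max(f w, κ) = exp(-ν τ(z))` (`T = log(N/M) = -log M`, `Tv_eq`).
Signs: if there is an integral point `z*` with `κ < f w(z*) < 1`, let `ε(z) = 1` if `f(y/w - y*/w*) < 1`, else `-1`; otherwise `ε = 1`. For interior `z, z'` with
`ε(z) = ε(z')`: `f(y/w - y'/w') < 1`, otherwise `f(y/w + y'/w') < 1` (`nd_eta_or`, ultrametric). `t(z) = ε(z) τ(z)`.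
`τ(T) = -log M(T)/ν`, and `M(T) ≥ R` by `diff_M` and `nd_edge`, `nd_same`, `nd_opp`. Edge or same sign: `R = exp(-ν |τ-τ'|)` and `‖t - t'‖ ≥ |τ - τ'|` (equal signs:
equality; opposite signs with `τ ∈ {0, 1/2}` or `τ' ∈ {0, 1/2}`: `‖τ+τ'‖ = |τ-τ'|`). Opposite sign, both interior:
`R = max(exp(-ν(τ+τ')), exp(-ν(1-τ-τ')))`, `‖τ+τ'‖ = min(τ+τ', 1-τ-τ')`.
-/

namespace Pool.Agent.H24.LX

open Pool.Agent.H24.LP Pool.Agent.H24.LQ Pool.Agent.H24.LR Finset

private lemma tau_eq' {a b : ℤ} {p : ℕ} (hp : p ∈ mult a b) (hν : 0 < nu (fv p) a b)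
    {P : (curve a b).Point} (hN : Nv (fv p) a b (repX P) (repZ P) = 1) :
    tau p P = -Real.log (Mv (fv p) a b (repX P) (repZ P)) / nu (fv p) a b := by
  unfold tau Tv
  rw [thr_mult hp, if_neg (not_le.2 hν), hN, one_div, Real.log_inv]

private lemma circ_ge {s t : ℝ} (hs0 : 0 ≤ s) (hs : s ≤ 1 / 2) (ht0 : 0 ≤ t) (ht : t ≤ 1 / 2) :
    min (s + t) (1 - (s + t)) ≤ ‖((s + t : ℝ) : AddCircle (1 : ℝ))‖ := by
  rw [norm_coe, abs_sub_round_eq_min]
  rcases eq_or_lt_of_le (by linarith : s + t ≤ 1) with h | h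
  · rw [h, sub_self]
    exact (min_le_right _ _).trans
      (le_min (Int.fract_nonneg _) (by linarith [Int.fract_lt_one (1 : ℝ)]))
  · rw [Int.fract_eq_self.2 ⟨by linarith, h⟩]

private lemma circ_sub {s t : ℝ} (hs0 : 0 ≤ s) (hs : s ≤ 1 / 2) (ht0 : 0 ≤ t) (ht : t ≤ 1 / 2) :
    |s - t| ≤ ‖((s - t : ℝ) : AddCircle (1 : ℝ))‖ := by
  apply le_of_eq
  symm
  apply (AddCircle.norm_coe_eq_abs_iff (1 : ℝ) one_ne_zero).2
  rw [abs_one, abs_le]
  constructor <;> linarith

private lemma circ_signs {ε ε' s t : ℝ} (hε : ε = 1 ∨ ε = -1) (hε' : ε' = 1 ∨ ε' = -1)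
    (hs0 : 0 ≤ s) (hs : s ≤ 1 / 2) (ht0 : 0 ≤ t) (ht : t ≤ 1 / 2) :
    |s - t| ≤ ‖((ε * s - ε' * t : ℝ) : AddCircle (1 : ℝ))‖ ∧
    (ε ≠ ε' → min (s + t) (1 - (s + t)) ≤ ‖((ε * s - ε' * t : ℝ) : AddCircle (1 : ℝ))‖) := by
  have h1 := circ_sub hs0 hs ht0 ht
  have h2 := circ_ge hs0 hs ht0 ht
  have h3 : |s - t| ≤ min (s + t) (1 - (s + t)) := by
    rw [abs_le]
    constructor
    · have : -(s - t) ≤ min (s + t) (1 - (s + t)) := le_min (by linarith) (by linarith)
      linarith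
    · exact le_min (by linarith) (by linarith)
  rcases hε with rfl | rfl <;> rcases hε' with rfl | rfl
  · have e : (1 : ℝ) * s - 1 * t = s - t := by ring
    rw [e]
    exact ⟨h1, fun h => absurd rfl h⟩
  · have e : (1 : ℝ) * s - -1 * t = s + t := by ring
    rw [e]
    exact ⟨h3.trans h2, fun _ => h2⟩
  · have e : (-1 : ℝ) * s - 1 * t = -(s + t) := by ring
    rw [e, AddCircle.coe_neg, norm_neg]
    exact ⟨h3.trans h2, fun _ => h2⟩
  · have e : (-1 : ℝ) * s - -1 * t = -(s - t) := by ring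
    rw [e, AddCircle.coe_neg, norm_neg]
    exact ⟨h1, fun h => absurd rfl h⟩

private lemma log_ratio {m m' ν : ℝ} (hm : 0 < m) (hm' : 0 < m') (hν : 0 < ν) :
    -Real.log (min m m' / max m m') / ν = |-Real.log m / ν - -Real.log m' / ν| := by
  rcases le_total m m' with h | h
  · rw [min_eq_left h, max_eq_right h, Real.log_div hm.ne' hm'.ne']
    have h1 := Real.log_le_log hm h
    have e : -Real.log m / ν - -Real.log m' / ν = (Real.log m' - Real.log m) / ν := by ring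
    rw [e, abs_of_nonneg (div_nonneg (by linarith) hν.le)]
    ring
  · rw [min_eq_right h, max_eq_left h, Real.log_div hm'.ne' hm.ne']
    have h1 := Real.log_le_log hm' h
    have e : -Real.log m / ν - -Real.log m' / ν = -((Real.log m - Real.log m') / ν) := by ring
    rw [e, abs_neg, abs_of_nonneg (div_nonneg (by linarith) hν.le)]
    ring

/-- The signs. -/
private lemma exists_signs {a b : ℤ} (hD : D a b ≠ 0) {p : ℕ} (hp : p ∈ mult a b) :
    ∃ ε : ℤ × ℤ → ℝ, (∀ z, ε z = 1 ∨ ε z = -1) ∧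
      ∀ z ∈ integralPoints a b, ∀ z' ∈ integralPoints a b,
        kap (fv p) a b < fv p ((z.1 : ℚ) - en a b) → fv p ((z.1 : ℚ) - en a b) < 1 →
        kap (fv p) a b < fv p ((z'.1 : ℚ) - en a b) → fv p ((z'.1 : ℚ) - en a b) < 1 →
        (ε z = ε z' → fv p ((z.2 : ℚ) / ((z.1 : ℚ) - en a b) -
          (z'.2 : ℚ) / ((z'.1 : ℚ) - en a b)) < 1) ∧
        (ε z ≠ ε z' → fv p ((z.2 : ℚ) / ((z.1 : ℚ) - en a b) +
          (z'.2 : ℚ) / ((z'.1 : ℚ) - en a b)) < 1) := by
  obtain ⟨hpp, hp5, -, -, hpa⟩ := mem_mult hD hp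
  have ha : a ≠ 0 := by
    rintro rfl
    exact hpa (dvd_zero _)
  have hna := fv_nonarch hpp
  obtain ⟨-, -, -, hκ0, hκ1, he, hA, hB, hν⟩ := mult_facts hD hp
  have add_lt : ∀ {x y z : ℚ}, z = x + y → fv p x < 1 → fv p y < 1 → fv p z < 1 := by
    intro x y z h hx hy
    rw [h]
    exact lt_of_le_of_lt (hna x y) (max_lt hx hy)
  by_cases hex : ∃ zs ∈ integralPoints a b, kap (fv p) a b < fv p ((zs.1 : ℚ) - en a b) ∧
      fv p ((zs.1 : ℚ) - en a b) < 1
  · obtain ⟨zs, hzs, hs1, hs2⟩ := hex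
    classical
    refine ⟨fun z => if fv p ((z.2 : ℚ) / ((z.1 : ℚ) - en a b) -
      (zs.2 : ℚ) / ((zs.1 : ℚ) - en a b)) < 1 then 1 else -1, ?_, ?_⟩
    · intro z
      dsimp only
      split_ifs
      · exact Or.inl rfl
      · exact Or.inr rfl
    · intro z hz z' hz' a1 a2 a3 a4
      have o1 := nd_eta_or (fv p) hna hκ0 he hA hB a1 a2 hs1 hs2 (node_eq ha hz) (node_eq ha hzs)
      have o2 := nd_eta_or (fv p) hna hκ0 he hA hB a3 a4 hs1 hs2 (node_eq ha hz') (node_eq ha hzs)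
      dsimp only
      generalize (z.2 : ℚ) / ((z.1 : ℚ) - en a b) = η at *
      generalize (z'.2 : ℚ) / ((z'.1 : ℚ) - en a b) = η' at *
      generalize (zs.2 : ℚ) / ((zs.1 : ℚ) - en a b) = ηs at *
      have neg_lt : ∀ {x : ℚ}, fv p x < 1 → fv p (-x) < 1 := by
        intro x hx
        rw [(fv p).map_neg]
        exact hx
      by_cases c1 : fv p (η - ηs) < 1 <;> by_cases c2 : fv p (η' - ηs) < 1
      · rw [if_pos c1, if_pos c2]
        exact ⟨fun _ => add_lt (by ring : η - η' = (η - ηs) + -(η' - ηs)) c1 (neg_lt c2),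
          fun h => absurd rfl h⟩
      · rw [if_pos c1, if_neg c2]
        exact ⟨fun h => absurd h (by norm_num),
          fun _ => add_lt (by ring : η + η' = (η - ηs) + (η' + ηs)) c1 (o2.resolve_left c2)⟩
      · rw [if_neg c1, if_pos c2]
        exact ⟨fun h => absurd h (by norm_num),
          fun _ => add_lt (by ring : η + η' = (η + ηs) + (η' - ηs)) (o1.resolve_left c1) c2⟩
      · rw [if_neg c1, if_neg c2]
        exact ⟨fun _ => add_lt (by ring : η - η' = (η + ηs) + -(η' + ηs)) (o1.resolve_left c1)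
          (neg_lt (o2.resolve_left c2)), fun h => absurd rfl h⟩
  · refine ⟨fun _ => 1, fun _ => Or.inl rfl, ?_⟩
    intro z hz z' _ a1 a2
    exact absurd ⟨z, hz, a1, a2⟩ hex

theorem loc_pos {a b : ℤ} (hD : D a b ≠ 0) {p : ℕ} (hp : p ∈ mult a b) :
    ∃ t : ℤ × ℤ → ℝ, (∀ z ∈ integralPoints a b, |t z| = tau p (toPt hD z)) ∧
      ∀ z ∈ integralPoints a b, ∀ z' ∈ integralPoints a b, z.1 ≠ z'.1 →
        tau p (toPt hD z - toPt hD z') ≤ ‖((t z - t z' : ℝ) : AddCircle (1 : ℝ))‖ := by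
  obtain ⟨hpp, hp5, -, -, hpa⟩ := mem_mult hD hp
  have ha : a ≠ 0 := by
    rintro rfl
    exact hpa (dvd_zero _)
  have hna := fv_nonarch hpp
  have h2 := fv_two_eq hpp hp5
  have h3 := fv_three_eq hpp hp5
  obtain ⟨-, -, -, hκ0, hκ1, he, hA, hB, hν⟩ := mult_facts hD hp
  obtain ⟨ε, hε1, hε2⟩ := exists_signs hD hp
  have hτ : ∀ z ∈ integralPoints a b, tau p (toPt hD z) =
      -Real.log (max (fv p ((z.1 : ℚ) - en a b)) (kap (fv p) a b)) / nu (fv p) a b := by
    intro z hz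
    obtain ⟨-, hN, hM⟩ := mult_M hD hp hz
    rw [tau_eq' hp hν hN, hM]
  refine ⟨fun z => ε z * tau p (toPt hD z), ?_, ?_⟩
  · intro z _
    dsimp only
    rw [abs_mul, abs_of_nonneg (tau_nonneg hD p _)]
    rcases hε1 z with h | h
    · rw [h, abs_one, one_mul]
    · rw [h, abs_neg, abs_one, one_mul]
  · intro z hz z' hz' hne
    dsimp only
    obtain ⟨c1, c2⟩ := circ_signs (hε1 z) (hε1 z') (tau_nonneg hD p (toPt hD z))
      (tau_le hD p (toPt hD z)) (tau_nonneg hD p (toPt hD z')) (tau_le hD p (toPt hD z'))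
    obtain ⟨hNT, hMT⟩ := diff_M hD hp hz hz' hne
    have hw := (mult_M hD hp hz).1
    have hw' := (mult_M hD hp hz').1
    have hy := node_eq ha hz
    have hy' := node_eq ha hz'
    have hsub : ((z.1 : ℚ) - en a b) - ((z'.1 : ℚ) - en a b) = (z.1 : ℚ) - z'.1 := by ring
    have hwne : (z.1 : ℚ) - en a b ≠ (z'.1 : ℚ) - en a b := by
      intro h
      apply hne
      have h5 : (z.1 : ℚ) = z'.1 := by linarith
      exact_mod_cast h5
    rw [tau_eq' hp hν hNT]
    have hτz := hτ z hz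
    have hτz' := hτ z' hz'
    have hbound : ∀ r : ℝ, 0 < r →
        r ≤ Mv (fv p) a b (repX (toPt hD z - toPt hD z')) (repZ (toPt hD z - toPt hD z')) →
        -Real.log (Mv (fv p) a b (repX (toPt hD z - toPt hD z')) (repZ (toPt hD z - toPt hD z'))) /
          nu (fv p) a b ≤ -Real.log r / nu (fv p) a b := by
      intro r hr hrM
      exact div_le_div_of_nonneg_right (neg_le_neg (Real.log_le_log hr hrM)) hν.le
    by_cases hedge : fv p ((z.1 : ℚ) - en a b) ≤ kap (fv p) a b ∨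
        fv p ((z.1 : ℚ) - en a b) = 1 ∨ fv p ((z'.1 : ℚ) - en a b) ≤ kap (fv p) a b ∨
        fv p ((z'.1 : ℚ) - en a b) = 1
    · have h := nd_edge (fv p) hna h2 h3 hκ0 hκ1 he hA hB hw hw' hy hy' hwne hedge
      rw [hsub] at h
      have hm0 : 0 < max (fv p ((z.1 : ℚ) - en a b)) (kap (fv p) a b) := lt_max_of_lt_right hκ0
      have hm0' : 0 < max (fv p ((z'.1 : ℚ) - en a b)) (kap (fv p) a b) := lt_max_of_lt_right hκ0
      refine le_trans (hbound _ (div_pos (lt_min hm0 hm0') (lt_max_of_lt_left hm0))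
        (h.trans hMT)) ?_
      rw [log_ratio hm0 hm0' hν, ← hτz, ← hτz']
      exact c1
    · push Not at hedge
      obtain ⟨d1, d2, d3, d4⟩ := hedge
      have d2' := lt_of_le_of_ne hw d2
      have d4' := lt_of_le_of_ne hw' d4
      obtain ⟨s1, s2⟩ := hε2 z hz z' hz' d1 d2' d3 d4'
      have hm0 : 0 < fv p ((z.1 : ℚ) - en a b) := hκ0.trans d1
      have hm0' : 0 < fv p ((z'.1 : ℚ) - en a b) := hκ0.trans d3
      rw [max_eq_left d1.le] at hτz
      rw [max_eq_left d3.le] at hτz'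
      by_cases hs : ε z = ε z'
      · have h := nd_same (fv p) hna h2 h3 hκ0 hκ1 he hA hB d1 d2' d3 d4' hy hy' hwne (s1 hs)
        rw [hsub] at h
        refine le_trans (hbound _ (div_pos (lt_min hm0 hm0') (lt_max_of_lt_left hm0))
          (h.trans hMT)) ?_
        rw [log_ratio hm0 hm0' hν, ← hτz, ← hτz']
        exact c1
      · have h := nd_opp (fv p) hna h2 h3 hκ0 hκ1 he hA hB d1 d2' d3 d4' hy hy' hwne (s2 hs)
        rw [hsub] at h
        have g1 := (le_max_left _ _).trans (h.trans hMT)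
        have g2 := (le_max_right _ _).trans (h.trans hMT)
        have k1 := hbound _ (mul_pos hm0 hm0') g1
        have k2 := hbound _ (div_pos (pow_pos hκ0 2) (mul_pos hm0 hm0')) g2
        refine le_trans (le_min ?_ ?_) (c2 hs)
        · refine k1.trans (le_of_eq ?_)
          rw [Real.log_mul hm0.ne' hm0'.ne', hτz, hτz']
          ring
        · refine k2.trans (le_of_eq ?_)
          have hlk : Real.log (kap (fv p) a b) = -(nu (fv p) a b) / 2 := by
            unfold kap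
            rw [Real.log_exp]
          rw [Real.log_div (pow_pos hκ0 2).ne' (mul_pos hm0 hm0').ne', Real.log_pow, hlk,
            Real.log_mul hm0.ne' hm0'.ne', hτz, hτz']
          push_cast
          field_simp
          ring

end Pool.Agent.H24.LX
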