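import Pool.Agent.H24.LX.StarT
import Pool.Agent.H24.LQ.Count

/-!
# LX StarC

A cluster, with the gain of the primes `I_n^*`. `pair_SS` (LQ/PairS; the additive terms are `≥ 0`, drop them) and `energy_abs` (LQ/Energy) with `V = places`, `A = ∅`,
`E v = 1/12` for `v ∈ star`, `0` otherwise (`energy2_nonneg`), `g = SS`, `SS P ≤ g P + C ≤ γ/200 + C`. For `v ∈ star` all `τ ∈ {0, 1/2}`:
with `k`, `l` the numbers of the two kinds `∑∑ (B(τ_i-τ_j) + B(τ_i+τ_j)) = 2 ((k²+l²)/6 - 2kl/12) ≥ (k+l)²/12`. It gives `M (γ/24 - γ/100 - 3C - C') ≤ (∑ ν⁺)/6 ≤ L + 1 ≤ 3L`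
(`sum_nup_le`, `L ≥ 1/2`).
-/

namespace Pool.Agent.H24.LX

open Pool.Agent.H24.LP Pool.Agent.H24.LQ Pool.Agent.H24.LR Finset

theorem star_cluster : ∃ C₀ : ℝ, 1 ≤ C₀ ∧ ∀ C : ℝ, 0 ≤ C → ∀ a b : ℤ, QuasiMinimal a b →
    ∀ g : (curve a b).Point → ℝ, IsHt C g → ∀ γ : ℝ, C₀ * (1 + C) ≤ γ →
    γ ≤ ∑ p ∈ star a b, nup a b p →
    ∀ s : Finset (curve a b).Point, (∀ P ∈ s, g P ≤ γ / 200) →
    (∀ P ∈ s, ∀ Q ∈ s, P ≠ Q → repX P * repZ Q - repX Q * repZ P ≠ 0) →
    (s.card : ℝ) ≤ 200 * L a b / γ := by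
  classical
  obtain ⟨C₁, hC₁, hpair⟩ := pair_SS
  refine ⟨200 * (C₁ + 2), by linarith, fun C hC a b hq g hg γ hG hγ s hs hW => ?_⟩
  have hD := hq.ne
  obtain ⟨cl, hcl⟩ := hpair a b hq
  have hCC : 200 * (C₁ + 2 * C) ≤ γ := by
    nlinarith [mul_nonneg hC₁ hC]
  have hG0 : 0 < γ := by
    nlinarith [mul_nonneg hC₁ hC]
  have hE0 : ∀ v ∈ places a b, (if v ∈ star a b then (1 / 12 : ℝ) else 0) * (s.card : ℝ) ^ 2 ≤
      ∑ P ∈ s, ∑ Q ∈ s, (bern ((tau v P - tau v Q : ℝ) : AddCircle (1 : ℝ))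
        + bern ((tau v P + tau v Q : ℝ) : AddCircle (1 : ℝ))) := by
    intro v _
    by_cases hv : v ∈ star a b
    · rw [if_pos hv]
      have h1 := energy2_ge s (fun P : (curve a b).Point => tau v P) (n := 1) one_pos
        (fun P _ => by
          rcases star_tau hq hv P with h | h
          · exact ⟨0, by rw [h]; norm_num⟩
          · exact ⟨1, by rw [h]; norm_num⟩)
      have e : (1 / (12 * ((1 : ℕ) : ℝ) ^ 2) : ℝ) = 1 / 12 := by norm_num
      rw [e] at h1
      exact h1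
    · rw [if_neg hv, zero_mul]
      exact energy2_nonneg s (fun P : (curve a b).Point => tau v P)
  have key := energy_abs s g (places a b) ∅ (nup a b) (fun _ => 0)
    (fun v => if v ∈ star a b then (1 / 12 : ℝ) else 0) tau cl (C₁ + 2 * C) (γ / 200)
    (fun v _ => nup_nonneg a b v) (fun p hp => absurd hp (Finset.notMem_empty p))
    (by linarith) (by positivity) hs
    (fun P hP Q hQ hne => by
      have h1 := hcl P Q (hW P hP Q hQ hne)
      have h2 := hg.ge P
      have h3 := hg.ge Q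
      have h4 : 0 ≤ ∑ p ∈ addPrimes a b, (if cl p P = cl p Q then Real.log (p : ℝ) / 6 else 0) := by
        refine Finset.sum_nonneg fun p _ => ?_
        split_ifs
        · exact div_nonneg (HeightData.log_nonneg' p) (by norm_num)
        · exact le_refl _
      unfold beta at h1
      rw [Finset.sum_empty]
      linarith)
    hE0
  have hsum : ∑ v ∈ places a b, nup a b v * (if v ∈ star a b then (1 / 12 : ℝ) else 0)
      = (∑ p ∈ star a b, nup a b p) / 12 := by
    have hsub : star a b ⊆ places a b := fun p hp =>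
      (places_of_poles hD (Finset.mem_filter.mp hp).1).2
    rw [Finset.sum_div, ← Finset.sum_subset hsub (fun v _ hv => by rw [if_neg hv, mul_zero])]
    refine Finset.sum_congr rfl fun v hv => ?_
    rw [if_pos hv]
    ring
  have hn := sum_nup_le (a := a) (b := b) hD
  have hL := half_le_L a b
  have hM0 : (0 : ℝ) ≤ s.card := Nat.cast_nonneg _
  rw [hsum, Finset.sum_empty] at key
  have hfac : 13 / 600 * γ ≤ (∑ p ∈ star a b, nup a b p) / 12 / 2 + 0 / 4 - 2 * (γ / 200)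
      - (C₁ + 2 * C) := by
    linarith
  have h1 : (s.card : ℝ) * (13 / 600 * γ) ≤ 7 / 3 * L a b := by
    refine (mul_le_mul_of_nonneg_left hfac hM0).trans (key.trans ?_)
    linarith
  rw [le_div_iff₀ hG0]
  linarith

end Pool.Agent.H24.LX
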