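import Pool.Agent.H24.LX.Defs

/-!
# LX StarT

The positions at the primes `I_n^*` are `0` or `1/2`. `f = fv p`, `ν > 0` (`nu_eq` in LQ/Conv, `p ∈ poles`), so `f a = s²`, `f b = s³`, `f D < s⁶` (see `exSize` in LQ/Exact; copy it);
`f a < 1` so `s < 1`; `s = p^{-k}` with `v(a) = 2k`, `v(b) = 3k` (`k = v(b) - v(a)`), quasi-minimal gives `k = 1`, `s = 1/p`. `e = -3b/(2a)`, `f e = s`; `X = repX P`, `Z = repZ P` coprime.
If `f X > s f Z`: `N = f X`, `f(X - eZ) = f X`, `M = N`, `T = 0`. Otherwise `f Z = 1`, `N = s`, `P = (x, y)`, `f x ≤ s`, `w = x - e`; if `f w = s`: `T = 0`. If `f w ≤ κ s`: `M = κN`,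
`T = ν/2`, `τ = 1/2`. If `κ s < f w < s`: `y² = w²(w+3e) + A w - B` (`A = D/(4a²)`, `B = bD/(8a³)`), `f A = κ²s²`, `f B = κ²s³`, so `f(y)² = f(w)² s = f(w)²/p`,
impossible, as `f y`, `f w` are integral powers of `p`.
-/

namespace Pool.Agent.H24.LX

open Pool.Agent.H24.LP Pool.Agent.H24.LQ Pool.Agent.H24.LR Finset

private lemma stDom (f : AbsoluteValue ℚ ℝ) (hna : IsNonarchimedean f) {x y : ℚ}
    (h : f y < f x) : f (x + y) = f x := by
  apply le_antisymm
  · exact (hna x y).trans (max_le le_rfl h.le)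
  · have h1 := hna (x + y) (-y)
    rw [add_neg_cancel_right, AbsoluteValue.map_neg] at h1
    rcases le_max_iff.1 h1 with h2 | h2
    · exact h2
    · exact absurd h (not_lt.2 h2)

private lemma stSize (f : AbsoluteValue ℚ ℝ) (hna : IsNonarchimedean f) (h2 : f 2 = 1)
    (h3 : f 3 = 1) (a b : ℚ) (hD : 4 * a ^ 3 + 27 * b ^ 2 ≠ 0) (hk : kap f a b ^ 2 < 1)
    (hs : 0 < sv f a b) : f a = sv f a b ^ 2 ∧ f b = sv f a b ^ 3 := by
  have h4 : f 4 = 1 := by
    have : (4 : ℚ) = 2 ^ 2 := by norm_num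
    rw [this, map_pow, h2, one_pow]
  have h27 : f 27 = 1 := by
    have : (27 : ℚ) = 3 ^ 3 := by norm_num
    rw [this, map_pow, h3, one_pow]
  have hDlt : f (4 * a ^ 3 + 27 * b ^ 2) < sv f a b ^ 6 := by
    have h := kap_sq f a b hD
    rw [h, div_lt_one (by positivity)] at hk
    exact hk
  have ea : f (4 * a ^ 3) = f a ^ 3 := by rw [map_mul, map_pow, h4, one_mul]
  have eb : f (27 * b ^ 2) = f b ^ 2 := by rw [map_mul, map_pow, h27, one_mul]
  have la := le_sv_sq f a b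
  have lb := le_sv_cube f a b
  have a0 : 0 ≤ f a := f.nonneg _
  have b0 : 0 ≤ f b := f.nonneg _
  rcases sv_or f a b with h | h
  · refine ⟨h, le_antisymm lb ?_⟩
    by_contra hc
    have hc := not_le.1 hc
    have h5 : f (27 * b ^ 2) < f (4 * a ^ 3) := by
      rw [ea, eb, h]
      have : f b ^ 2 < (sv f a b ^ 3) ^ 2 := pow_lt_pow_left₀ hc b0 (by norm_num)
      calc f b ^ 2 < (sv f a b ^ 3) ^ 2 := this
        _ = (sv f a b ^ 2) ^ 3 := by ring
    rw [stDom f hna h5, ea, h] at hDlt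
    have : (sv f a b ^ 2) ^ 3 = sv f a b ^ 6 := by ring
    rw [this] at hDlt
    exact lt_irrefl _ hDlt
  · refine ⟨le_antisymm la ?_, h⟩
    by_contra hc
    have hc := not_le.1 hc
    have h5 : f (4 * a ^ 3) < f (27 * b ^ 2) := by
      rw [ea, eb, h]
      have : f a ^ 3 < (sv f a b ^ 2) ^ 3 := pow_lt_pow_left₀ hc a0 (by norm_num)
      calc f a ^ 3 < (sv f a b ^ 2) ^ 3 := this
        _ = (sv f a b ^ 3) ^ 2 := by ring
    rw [add_comm, stDom f hna h5, eb, h] at hDlt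
    have : (sv f a b ^ 3) ^ 2 = sv f a b ^ 6 := by ring
    rw [this] at hDlt
    exact lt_irrefl _ hDlt

/-- The value of a nonzero rational is an integral power of `p`. -/
private lemma stVal {p : ℕ} (hp : p.Prime) {x : ℚ} (hx : x ≠ 0) :
    ∃ k : ℤ, fv p x = (p : ℝ) ^ k := by
  have hn : x.num ≠ 0 := Rat.num_ne_zero.mpr hx
  have hd : ((x.den : ℕ) : ℤ) ≠ 0 := by exact_mod_cast x.den_nz
  have h1 := fv_int hp hn
  have h2 := fv_int hp hd
  have hp0 : (p : ℝ) ≠ 0 := by exact_mod_cast hp.ne_zero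
  have hx' : x = ((x.num : ℤ) : ℚ) / (((x.den : ℕ) : ℤ) : ℚ) := by
    have := Rat.num_div_den x
    push_cast
    exact this.symm
  refine ⟨((((x.den : ℕ) : ℤ).natAbs.factorization p : ℕ) : ℤ) -
    ((x.num.natAbs.factorization p : ℕ) : ℤ), ?_⟩
  conv_lhs => rw [hx']
  rw [map_div₀, h1, h2, zpow_sub₀ hp0, zpow_natCast, zpow_natCast]
  field_simp

/-- The equation in the coordinate `w = x - e`. -/
private lemma stEq {a b x y : ℚ} (ha : a ≠ 0) (h : y ^ 2 = x ^ 3 + a * x + b) :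
    y ^ 2 = (x + 3 * b / (2 * a)) ^ 2 * (-(3 * (3 * b / (2 * a))) + (x + 3 * b / (2 * a)))
      + ((4 * a ^ 3 + 27 * b ^ 2) / (4 * a ^ 2) * (x + 3 * b / (2 * a))
        + -(b * (4 * a ^ 3 + 27 * b ^ 2) / (8 * a ^ 3))) := by
  rw [h]
  field_simp
  ring

private lemma stMid (f : AbsoluteValue ℚ ℝ) (hna : IsNonarchimedean f) (h2 : f 2 = 1)
    (h3 : f 3 = 1) {a b x y : ℚ} (hD : 4 * a ^ 3 + 27 * b ^ 2 ≠ 0)
    (hs : 0 < sv f a b) (hκ : 0 < kap f a b) (hκ1 : kap f a b < 1)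
    (ha : f a = sv f a b ^ 2) (hb : f b = sv f a b ^ 3) (h : y ^ 2 = x ^ 3 + a * x + b)
    (hw1 : kap f a b * sv f a b < f (x + 3 * b / (2 * a)))
    (hw2 : f (x + 3 * b / (2 * a)) < sv f a b) :
    f y ^ 2 = f (x + 3 * b / (2 * a)) ^ 2 * sv f a b := by
  have h4 : f 4 = 1 := by
    have : (4 : ℚ) = 2 ^ 2 := by norm_num
    rw [this, map_pow, h2, one_pow]
  have h8 : f 8 = 1 := by
    have : (8 : ℚ) = 2 ^ 3 := by norm_num
    rw [this, map_pow, h2, one_pow]
  have hn : sv f a b ≠ 0 := hs.ne'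
  have ha0 : a ≠ 0 := by
    intro h
    have h0 : f a = 0 := by rw [h, map_zero]
    rw [h0] at ha
    exact (pow_ne_zero 2 hn) ha.symm
  have hE : f (3 * b / (2 * a)) = sv f a b := by
    rw [map_div₀, map_mul, map_mul, h2, h3, ha, hb]
    field_simp
  have hDk : f (4 * a ^ 3 + 27 * b ^ 2) = kap f a b ^ 2 * sv f a b ^ 6 := by
    rw [kap_sq f a b hD]
    field_simp
  have hA : f ((4 * a ^ 3 + 27 * b ^ 2) / (4 * a ^ 2)) = kap f a b ^ 2 * sv f a b ^ 2 := by
    rw [map_div₀, map_mul, map_pow, h4, ha, hDk]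
    field_simp
  have hB : f (-(b * (4 * a ^ 3 + 27 * b ^ 2) / (8 * a ^ 3))) = kap f a b ^ 2 * sv f a b ^ 3 := by
    rw [AbsoluteValue.map_neg, map_div₀, map_mul, map_mul, map_pow, h8, ha, hb, hDk]
    field_simp
  rw [← map_pow, stEq ha0 h]
  generalize 3 * b / (2 * a) = e at *
  generalize (4 * a ^ 3 + 27 * b ^ 2) / (4 * a ^ 2) = A at *
  generalize -(b * (4 * a ^ 3 + 27 * b ^ 2) / (8 * a ^ 3)) = B at *
  generalize sv f a b = s at *
  generalize kap f a b = κ at *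
  generalize x + e = w at *
  have e1 : f (-(3 * e) + w) = s := by
    have e0 : f (-(3 * e)) = s := by
      rw [AbsoluteValue.map_neg, map_mul, h3, hE, one_mul]
    rw [stDom f hna (by rw [e0]; exact hw2), e0]
  have e2 : f (w ^ 2 * (-(3 * e) + w)) = f w ^ 2 * s := by
    rw [map_mul, map_pow, e1]
  have hw0 : 0 < f w := lt_trans (mul_pos hκ hs) hw1
  have hκs : κ * s * (κ * s) < f w * f w := mul_self_lt_mul_self (mul_pos hκ hs).le hw1
  have e3 : f (A * w + B) < f w ^ 2 * s := by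
    refine lt_of_le_of_lt (hna _ _) (max_lt ?_ ?_)
    · rw [map_mul, hA]
      have k1 : κ ^ 2 * s < f w := by
        have : κ ^ 2 * s ≤ κ * s := by
          have : κ ^ 2 ≤ κ := by nlinarith
          exact mul_le_mul_of_nonneg_right this hs.le
        linarith
      calc κ ^ 2 * s ^ 2 * f w = (κ ^ 2 * s) * (s * f w) := by ring
        _ < f w * (s * f w) := mul_lt_mul_of_pos_right k1 (mul_pos hs hw0)
        _ = f w ^ 2 * s := by ring
    · rw [hB]
      calc κ ^ 2 * s ^ 3 = (κ * s * (κ * s)) * s := by ring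
        _ < (f w * f w) * s := mul_lt_mul_of_pos_right hκs hs
        _ = f w ^ 2 * s := by ring
  rw [stDom f hna (by rw [e2]; exact e3), e2]

/-- `s = 1/p`. -/
private lemma stS {a b : ℤ} (hq : QuasiMinimal a b) {p : ℕ} (hp : p.Prime)
    (hpa : (p : ℤ) ∣ a) (hs : 0 < sv (fv p) a b)
    (ha : fv p a = sv (fv p) a b ^ 2) (hb : fv p b = sv (fv p) a b ^ 3) :
    sv (fv p) a b = (p : ℝ) ^ (-1 : ℤ) := by
  have hp1 : (1 : ℝ) < (p : ℝ) := by exact_mod_cast hp.one_lt
  have hp0 : (0 : ℝ) < (p : ℝ) := by linarith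
  have ha0 : a ≠ 0 := by
    rintro rfl
    rw [Int.cast_zero, map_zero] at ha
    exact (pow_ne_zero 2 hs.ne') ha.symm
  have hb0 : b ≠ 0 := by
    rintro rfl
    rw [Int.cast_zero, map_zero] at hb
    exact (pow_ne_zero 3 hs.ne') hb.symm
  have hfa : fv p (a : ℚ) ≠ 0 := by rw [ha]; positivity
  have hs2 : sv (fv p) a b = fv p ((b : ℚ) / a) := by
    rw [map_div₀, ha, hb]
    field_simp
  have hba : ((b : ℚ) / a) ≠ 0 := div_ne_zero (by exact_mod_cast hb0) (by exact_mod_cast ha0)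
  obtain ⟨k, hk⟩ := stVal hp hba
  rw [← hs2] at hk
  have va := fv_int hp ha0
  have vb := fv_int hp hb0
  set m := a.natAbs.factorization p with hm
  set n := b.natAbs.factorization p with hn
  have e1 : (-(m : ℤ)) = 2 * k := by
    rw [ha, hk, ← zpow_natCast, ← zpow_mul, ← zpow_natCast, ← zpow_neg] at va
    have := zpow_right_injective₀ hp0 hp1.ne' va
    push_cast at this
    linarith
  have e2 : (-(n : ℤ)) = 3 * k := by
    rw [hb, hk, ← zpow_natCast, ← zpow_mul, ← zpow_natCast, ← zpow_neg] at vb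
    have := zpow_right_injective₀ hp0 hp1.ne' vb
    push_cast at this
    linarith
  have hm1 : 1 ≤ m := by
    rw [hm]
    refine (hp.dvd_iff_one_le_factorization (Int.natAbs_ne_zero.2 ha0)).1 ?_
    exact Int.natCast_dvd.mp hpa
  have hk1 : k = -1 := by
    by_contra hne
    have hk2 : k ≤ -2 := by omega
    have hm4 : 4 ≤ m := by omega
    have hn6 : 6 ≤ n := by omega
    refine hq.min p hp ⟨?_, ?_⟩
    · have h1 : p ^ 4 ∣ a.natAbs := (pow_dvd_pow p hm4).trans (Nat.ordProj_dvd _ _)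
      have h2 : ((p ^ 4 : ℕ) : ℤ) ∣ a := Int.natCast_dvd.mpr h1
      rwa [Nat.cast_pow] at h2
    · have h1 : p ^ 6 ∣ b.natAbs := (pow_dvd_pow p hn6).trans (Nat.ordProj_dvd _ _)
      have h2 : ((p ^ 6 : ℕ) : ℤ) ∣ b := Int.natCast_dvd.mpr h1
      rwa [Nat.cast_pow] at h2
  rw [hk, hk1]

private lemma stEqn {a b : ℤ} {x y : ℚ} (h : (curve a b).Nonsingular x y) :
    y ^ 2 = x ^ 3 + a * x + b := by
  have h1 := (WeierstrassCurve.Affine.equation_iff _ _).mp h.1
  simp only [curve] at h1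
  linear_combination h1

/-- `M = N` or `M = κ N`. -/
private lemma stM {a b : ℤ} {p : ℕ} (hp : p.Prime) (h5 : 5 ≤ p) (hD : D a b ≠ 0)
    (hs : 0 < sv (fv p) a b) (hκ : 0 < kap (fv p) a b) (hκ1 : kap (fv p) a b < 1)
    (ha : fv p a = sv (fv p) a b ^ 2) (hb : fv p b = sv (fv p) a b ^ 3)
    (hsp : sv (fv p) a b = (p : ℝ) ^ (-1 : ℤ)) (P : (curve a b).Point) :
    Mv (fv p) a b (repX P) (repZ P) = Nv (fv p) a b (repX P) (repZ P) ∨
    Mv (fv p) a b (repX P) (repZ P) = kap (fv p) a b * Nv (fv p) a b (repX P) (repZ P) := by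
  have hna : IsNonarchimedean (fv p) := fv_nonarch hp
  have h2 : fv p 2 = 1 := fv_two_eq hp h5
  have h3 : fv p 3 = 1 := fv_three_eq hp h5
  have hp1 : (1 : ℝ) < (p : ℝ) := by exact_mod_cast hp.one_lt
  have hp0 : (0 : ℝ) < (p : ℝ) := by linarith
  rcases P with _ | ⟨x, y, h⟩
  · left
    have e1 : Nv (fv p) a b (((1 : ℤ) : ℚ)) (((0 : ℤ) : ℚ)) = 1 := by
      unfold Nv
      rw [Int.cast_one, Int.cast_zero, map_zero, map_one, mul_zero]
      exact max_eq_left zero_le_one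
    have e2 : wv (a : ℚ) (b : ℚ) (((1 : ℤ) : ℚ)) (((0 : ℤ) : ℚ)) = 1 := by
      unfold wv
      rw [Int.cast_one, Int.cast_zero, mul_zero, add_zero]
    show Mv (fv p) a b (((1 : ℤ) : ℚ)) (((0 : ℤ) : ℚ)) = Nv (fv p) a b (((1 : ℤ) : ℚ)) (((0 : ℤ) : ℚ))
    unfold Mv
    rw [e1, e2, map_one, min_self, mul_one]
    exact max_eq_left hκ1.le
  · have hZ : ((x.den : ℕ) : ℚ) ≠ 0 := by exact_mod_cast x.den_nz
    have hfZ : 0 < fv p ((x.den : ℕ) : ℚ) := (fv p).pos hZ
    have hX : ((x.num : ℤ) : ℚ) = x * ((x.den : ℕ) : ℚ) := (Rat.mul_den_eq_num x).symm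
    have hn : sv (fv p) a b ≠ 0 := hs.ne'
    have hE : fv p (3 * (b : ℚ) / (2 * a)) = sv (fv p) a b := by
      rw [map_div₀, map_mul, map_mul, h2, h3, ha, hb]
      field_simp
    have eN : Nv (fv p) a b ((repX (.some x y h : (curve a b).Point) : ℤ) : ℚ)
        ((repZ (.some x y h : (curve a b).Point) : ℤ) : ℚ)
        = max (fv p x) (sv (fv p) a b) * fv p ((x.den : ℕ) : ℚ) := by
      show Nv (fv p) a b ((x.num : ℤ) : ℚ) ((((x.den : ℕ) : ℤ)) : ℚ) = _
      rw [Int.cast_natCast, hX]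
      unfold Nv
      rw [map_mul, max_mul_of_nonneg _ _ hfZ.le]
    have ew : wv (a : ℚ) (b : ℚ) ((repX (.some x y h : (curve a b).Point) : ℤ) : ℚ)
        ((repZ (.some x y h : (curve a b).Point) : ℤ) : ℚ)
        = (x + 3 * (b : ℚ) / (2 * a)) * ((x.den : ℕ) : ℚ) := by
      show wv (a : ℚ) (b : ℚ) ((x.num : ℤ) : ℚ) ((((x.den : ℕ) : ℤ)) : ℚ) = _
      rw [Int.cast_natCast, hX]
      unfold wv
      ring
    unfold Mv
    rw [eN, ew, map_mul]
    set w : ℚ := x + 3 * (b : ℚ) / (2 * a) with hw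
    rcases lt_or_ge (sv (fv p) a b) (fv p x) with hxs | hxs
    · left
      have e1 : fv p w = fv p x := stDom (fv p) hna (by rw [hE]; exact hxs)
      rw [e1, max_eq_left hxs.le, min_self]
      refine max_eq_left (mul_le_of_le_one_left ?_ hκ1.le)
      exact mul_nonneg ((fv p).nonneg _) hfZ.le
    · rw [max_eq_right hxs]
      have hws : fv p w ≤ sv (fv p) a b := by
        refine (hna _ _).trans (max_le hxs ?_)
        rw [hE]
      rw [min_eq_left (mul_le_mul_of_nonneg_right hws hfZ.le)]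
      rcases hws.eq_or_lt with hwe | hwlt
      · left
        rw [hwe]
        exact max_eq_left (mul_le_of_le_one_left (mul_pos hs hfZ).le hκ1.le)
      rcases le_or_gt (fv p w) (kap (fv p) a b * sv (fv p) a b) with hwk | hwk
      · right
        refine max_eq_right ?_
        rw [← mul_assoc]
        exact mul_le_mul_of_nonneg_right hwk hfZ.le
      · exfalso
        have key := stMid (fv p) hna h2 h3 (D_cast_ne hD) hs hκ hκ1 ha hb (stEqn h) hwk hwlt
        rw [← hw] at key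
        have hw0 : w ≠ 0 := by
          intro h0
          rw [h0, map_zero] at hwk
          exact absurd hwk (not_lt.2 (mul_pos hκ hs).le)
        have hy0 : y ≠ 0 := by
          intro h0
          rw [h0, map_zero] at key
          have h6 : 0 < fv p w ^ 2 * sv (fv p) a b := mul_pos (pow_pos ((fv p).pos hw0) 2) hs
          rw [← key] at h6
          norm_num at h6
        obtain ⟨l, hl⟩ := stVal hp hw0
        obtain ⟨m, hm⟩ := stVal hp hy0
        rw [hl, hm, hsp, ← zpow_natCast, ← zpow_natCast, ← zpow_mul, ← zpow_mul,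
          ← zpow_add₀ hp0.ne'] at key
        have h7 := zpow_right_injective₀ hp0 hp1.ne' key
        push_cast at h7
        omega

theorem star_tau {a b : ℤ} (hq : QuasiMinimal a b) {p : ℕ} (hp : p ∈ star a b)
    (P : (curve a b).Point) : tau p P = 0 ∨ tau p P = 1 / 2 := by
  have hD := hq.ne
  obtain ⟨hpole, h5, hpa⟩ := Finset.mem_filter.mp hp
  have hpp := (places_of_poles hD hpole).1
  have hp1 : (1 : ℝ) < (p : ℝ) := by exact_mod_cast hpp.one_lt
  have hnp : 1 ≤ np a b p := by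
    unfold np
    exact (hpp.dvd_iff_one_le_factorization (jInv a b).den_nz).1 (Nat.dvd_of_mem_primeFactors hpole)
  have hν : 0 < nu (fv p) a b := by
    rw [nu_eq hD hpp h5]
    exact mul_pos (by exact_mod_cast hnp) (Real.log_pos hp1)
  have hab : ¬ ((a : ℚ) = 0 ∧ (b : ℚ) = 0) := by
    rintro ⟨h1, h2⟩
    have h3 := D_cast_ne hD
    rw [h1, h2] at h3
    exact h3 (by norm_num)
  have hs := sv_pos (fv p) a b hab
  have hκ : 0 < kap (fv p) a b := Real.exp_pos _
  have hκ1 : kap (fv p) a b < 1 := by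
    unfold kap
    rw [Real.exp_lt_one_iff]
    linarith
  have hκ2 : kap (fv p) a b ^ 2 < 1 := by nlinarith
  obtain ⟨ha, hb⟩ := stSize (fv p) (fv_nonarch hpp) (fv_two_eq hpp h5) (fv_three_eq hpp h5) a b
    (D_cast_ne hD) hκ2 hs
  have hsp := stS hq hpp hpa hs ha hb
  have hN := Nv_pos (fv p) a b (D_cast_ne hD) (rep_ne' P)
  have ht : thr p = 0 := by
    unfold thr
    rw [if_pos h5]
  unfold tau Tv
  rw [ht, if_neg (not_le.2 hν)]
  rcases stM hpp h5 hD hs hκ hκ1 ha hb hsp P with h | h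
  · left
    rw [h, div_self hN.ne', Real.log_one, zero_div]
  · right
    have e1 : Nv (fv p) a b (repX P) (repZ P) / (kap (fv p) a b * Nv (fv p) a b (repX P) (repZ P))
        = (kap (fv p) a b)⁻¹ := by
      field_simp
    have e2 : Real.log (kap (fv p) a b) = -(nu (fv p) a b) / 2 := Real.log_exp _
    rw [h, e1, Real.log_inv, e2]
    field_simp

end Pool.Agent.H24.LX
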