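import Pool.Agent.H24.LX.Defs
import Pool.Agent.H24.LX.DupUp
import Pool.Agent.H24.LQ.SStep

/-!
# LX Upp

The upper bound for the canonical height. `UU` has `Lv` at the places of `mult` and `log N_v` at the others.
`UU_step`: as `SS_step` (LQ/SStep.lean) with the inequalities reversed: `dup` (LQ/Dup) gives `Phi = m X'`, `Psi = m Z'`, `m ∣ power of 4D`; both functions are homogeneous
(`Lv_smul`/`Nv_smul` in LQ/Basic or as in SStep); at `mult` use `Lv_dup_le` (`thr = 0`, `ν > 0`: `mult_facts`-like, `nu_eq` or `kap`), at the others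
`N_v(Phi, Psi) ≤ N_v(X,Z)⁴` for primes (nonarchimedean, `|a| ≤ s²`, `|b| ≤ s³`) and `≤ 12 N⁴` at infinity; `∑ log |m|_v ≥ 0` (`sum_log_nonneg`).
`g_le_UU`: `nh P ≤ UU P + B` with `B` depending on `a, b` only (`N_p ≥ s_p max(|X|,|Z|)_p = s_p`, `N_∞ ≥ min(1, s_∞) max(|X|,|Z|)`, `Lv ≥ log N - ν/4`). Then
`4ⁿ g P = g(2ⁿP) ≤ nh(2ⁿP) + 20 L ≤ UU(2ⁿP) + B' ≤ 4ⁿ(UU P + C/3) + B'`; divide and let `n → ∞` (or as in LQ/Tate).
-/

namespace Pool.Agent.H24.LX

open Pool.Agent.H24.LP Pool.Agent.H24.LQ Pool.Agent.H24.LR Finset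

/-- The upper function. -/
noncomputable def UU {a b : ℤ} (P : (curve a b).Point) : ℝ :=
  ∑ v ∈ mult a b, Lv (fv v) a b (thr v) (repX P) (repZ P)
    + ∑ v ∈ places a b \ mult a b, Real.log (Nv (fv v) a b (repX P) (repZ P))

/-- The local term of `UU`. -/
private noncomputable def upW (a b : ℤ) (v : ℕ) (X Z : ℚ) : ℝ :=
  if v ∈ mult a b then Lv (fv v) a b (thr v) X Z else Real.log (Nv (fv v) a b X Z)

private lemma upUU_eq {a b : ℤ} (hD : D a b ≠ 0) (P : (curve a b).Point) :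
    UU P = ∑ v ∈ places a b, upW a b v (repX P) (repZ P) := by
  have h := Finset.sum_sdiff (mult_subset hD) (f := fun v => upW a b v (repX P) (repZ P))
  have e1 : ∑ v ∈ mult a b, Lv (fv v) a b (thr v) (repX P) (repZ P) =
      ∑ v ∈ mult a b, upW a b v (repX P) (repZ P) := by
    refine Finset.sum_congr rfl fun v hv => ?_
    unfold upW
    rw [if_pos hv]
  have e2 : ∑ v ∈ places a b \ mult a b, Real.log (Nv (fv v) a b (repX P) (repZ P)) =
      ∑ v ∈ places a b \ mult a b, upW a b v (repX P) (repZ P) := by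
    refine Finset.sum_congr rfl fun v hv => ?_
    unfold upW
    rw [if_neg (Finset.mem_sdiff.mp hv).2]
  unfold UU
  rw [e1, e2, add_comm]
  exact h

private lemma upN_scale (f : AbsoluteValue ℚ ℝ) (a b : ℚ) (hD : 4 * a ^ 3 + 27 * b ^ 2 ≠ 0)
    {X Z m : ℚ} (h : ¬ (X = 0 ∧ Z = 0)) (hm : m ≠ 0) :
    Real.log (Nv f a b (m * X) (m * Z)) = Real.log (f m) + Real.log (Nv f a b X Z) := by
  have h1 := Lv_scale f a b (t := nu f a b) hD h hm
  rw [Lv_eq_of_le f a b le_rfl, Lv_eq_of_le f a b le_rfl] at h1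
  exact h1

private lemma upW_scale {a b : ℤ} (hD : D a b ≠ 0) (v : ℕ) {X Z m : ℚ} (h : ¬ (X = 0 ∧ Z = 0))
    (hm : m ≠ 0) : upW a b v (m * X) (m * Z) = Real.log (fv v m) + upW a b v X Z := by
  unfold upW
  split_ifs
  · exact Lv_scale (fv v) a b (D_cast_ne hD) h hm
  · exact upN_scale (fv v) a b (D_cast_ne hD) h hm

private lemma upX_le (f : AbsoluteValue ℚ ℝ) (a b X Z : ℚ) : f X ≤ Nv f a b X Z :=
  le_max_left _ _

private lemma upZ_le (f : AbsoluteValue ℚ ℝ) (a b X Z : ℚ) : sv f a b * f Z ≤ Nv f a b X Z :=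
  le_max_right _ _

/-- The six monomials. -/
private lemma up_mono {x z s N α β : ℝ} (hx0 : 0 ≤ x) (hz0 : 0 ≤ z) (hs0 : 0 ≤ s) (hN0 : 0 ≤ N)
    (hα0 : 0 ≤ α) (hβ0 : 0 ≤ β) (hx : x ≤ N) (hz : s * z ≤ N) (hα : α ≤ s ^ 2)
    (hβ : β ≤ s ^ 3) :
    x ^ 4 ≤ N ^ 4 ∧ α * x ^ 2 * z ^ 2 ≤ N ^ 4 ∧ β * x * z ^ 3 ≤ N ^ 4 ∧ α ^ 2 * z ^ 4 ≤ N ^ 4 ∧
      s * z * x ^ 3 ≤ N ^ 4 ∧ s * z * (α * x * z ^ 2) ≤ N ^ 4 ∧ s * z * (β * z ^ 3) ≤ N ^ 4 := by
  have hsz0 : 0 ≤ s * z := mul_nonneg hs0 hz0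
  have p2 : (s * z) ^ 2 ≤ N ^ 2 := pow_le_pow_left₀ hsz0 hz 2
  have p3 : (s * z) ^ 3 ≤ N ^ 3 := pow_le_pow_left₀ hsz0 hz 3
  have p4 : (s * z) ^ 4 ≤ N ^ 4 := pow_le_pow_left₀ hsz0 hz 4
  have q2 : x ^ 2 ≤ N ^ 2 := pow_le_pow_left₀ hx0 hx 2
  have q3 : x ^ 3 ≤ N ^ 3 := pow_le_pow_left₀ hx0 hx 3
  have a2 : α * z ^ 2 ≤ N ^ 2 := by
    calc α * z ^ 2 ≤ s ^ 2 * z ^ 2 := mul_le_mul_of_nonneg_right hα (by positivity)
      _ = (s * z) ^ 2 := by ring
      _ ≤ N ^ 2 := p2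
  have b3 : β * z ^ 3 ≤ N ^ 3 := by
    calc β * z ^ 3 ≤ s ^ 3 * z ^ 3 := mul_le_mul_of_nonneg_right hβ (by positivity)
      _ = (s * z) ^ 3 := by ring
      _ ≤ N ^ 3 := p3
  refine ⟨pow_le_pow_left₀ hx0 hx 4, ?_, ?_, ?_, ?_, ?_, ?_⟩
  · calc α * x ^ 2 * z ^ 2 = (α * z ^ 2) * x ^ 2 := by ring
      _ ≤ N ^ 2 * N ^ 2 := mul_le_mul a2 q2 (by positivity) (by positivity)
      _ = N ^ 4 := by ring
  · calc β * x * z ^ 3 = (β * z ^ 3) * x := by ring
      _ ≤ N ^ 3 * N := mul_le_mul b3 hx (by positivity) (by positivity)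
      _ = N ^ 4 := by ring
  · calc α ^ 2 * z ^ 4 = (α * z ^ 2) * (α * z ^ 2) := by ring
      _ ≤ N ^ 2 * N ^ 2 := mul_le_mul a2 a2 (by positivity) (by positivity)
      _ = N ^ 4 := by ring
  · calc s * z * x ^ 3 ≤ N * N ^ 3 := mul_le_mul hz q3 (by positivity) (by positivity)
      _ = N ^ 4 := by ring
  · calc s * z * (α * x * z ^ 2) = s * z * ((α * z ^ 2) * x) := by ring
      _ ≤ N * (N ^ 2 * N) := by
          refine mul_le_mul hz ?_ (by positivity) (by positivity)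
          exact mul_le_mul a2 hx (by positivity) (by positivity)
      _ = N ^ 4 := by ring
  · calc s * z * (β * z ^ 3) ≤ N * N ^ 3 := mul_le_mul hz b3 (by positivity) (by positivity)
      _ = N ^ 4 := by ring

private lemma upN_nonneg (f : AbsoluteValue ℚ ℝ) (a b X Z : ℚ) : 0 ≤ Nv f a b X Z :=
  le_max_of_le_left (f.nonneg X)

private lemma upN_dup (f : AbsoluteValue ℚ ℝ) (a b X Z : ℚ) :
    Nv f a b (Phi a b X Z) (Psi a b X Z) ≤ 12 * Nv f a b X Z ^ 4 := by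
  obtain ⟨m1, m2, m3, m4, m5, m6, m7⟩ := up_mono (f.nonneg X) (f.nonneg Z) (sv_nonneg f a b)
    (upN_nonneg f a b X Z) (f.nonneg a) (f.nonneg b) (upX_le f a b X Z) (upZ_le f a b X Z)
    (le_sv_sq f a b) (le_sv_cube f a b)
  have h2 : f 2 ≤ 2 := by exact_mod_cast f.apply_nat_le_self 2
  have h4 : f 4 ≤ 4 := by exact_mod_cast f.apply_nat_le_self 4
  have h8 : f 8 ≤ 8 := by exact_mod_cast f.apply_nat_le_self 8
  have hx0 := f.nonneg X
  have hz0 := f.nonneg Z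
  have ha0 := f.nonneg a
  have hb0 := f.nonneg b
  have hs0 := sv_nonneg f a b
  have hN4 : 0 ≤ Nv f a b X Z ^ 4 := pow_nonneg (upN_nonneg f a b X Z) 4
  have u2 : f (2 * a * X ^ 2 * Z ^ 2) ≤ 2 * Nv f a b X Z ^ 4 := by
    rw [f.map_mul, f.map_mul, f.map_mul, f.map_pow, f.map_pow]
    calc f 2 * f a * f X ^ 2 * f Z ^ 2 = f 2 * (f a * f X ^ 2 * f Z ^ 2) := by ring
      _ ≤ 2 * Nv f a b X Z ^ 4 := mul_le_mul h2 m2 (by positivity) (by norm_num)
  have u3 : f (8 * b * X * Z ^ 3) ≤ 8 * Nv f a b X Z ^ 4 := by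
    rw [f.map_mul, f.map_mul, f.map_mul, f.map_pow]
    calc f 8 * f b * f X * f Z ^ 3 = f 8 * (f b * f X * f Z ^ 3) := by ring
      _ ≤ 8 * Nv f a b X Z ^ 4 := mul_le_mul h8 m3 (by positivity) (by norm_num)
  have u4 : f (a ^ 2 * Z ^ 4) ≤ Nv f a b X Z ^ 4 := by
    rw [f.map_mul, f.map_pow, f.map_pow]
    exact m4
  have u1 : f (X ^ 4) ≤ Nv f a b X Z ^ 4 := by
    rw [f.map_pow]
    exact m1
  have hsub : ∀ x y : ℚ, f (x - y) ≤ f x + f y := by
    intro x y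
    have := f.add_le x (-y)
    rw [f.map_neg] at this
    rw [sub_eq_add_neg]
    exact this
  unfold Nv
  refine max_le ?_ ?_
  · unfold Phi
    have t1 := f.add_le (X ^ 4 - 2 * a * X ^ 2 * Z ^ 2 - 8 * b * X * Z ^ 3) (a ^ 2 * Z ^ 4)
    have t2 := hsub (X ^ 4 - 2 * a * X ^ 2 * Z ^ 2) (8 * b * X * Z ^ 3)
    have t3 := hsub (X ^ 4) (2 * a * X ^ 2 * Z ^ 2)
    have e : max (f X) (sv f a b * f Z) = Nv f a b X Z := rfl
    rw [e]
    linarith
  · have e : max (f X) (sv f a b * f Z) = Nv f a b X Z := rfl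
    rw [e]
    have t1 : f (X ^ 3 + a * X * Z ^ 2 + b * Z ^ 3) ≤
        f X ^ 3 + f a * f X * f Z ^ 2 + f b * f Z ^ 3 := by
      have t2 := f.add_le (X ^ 3 + a * X * Z ^ 2) (b * Z ^ 3)
      have t3 := f.add_le (X ^ 3) (a * X * Z ^ 2)
      rw [f.map_mul, f.map_pow] at t2
      rw [f.map_mul, f.map_mul, f.map_pow, f.map_pow] at t3
      linarith
    unfold Psi
    rw [f.map_mul, f.map_mul]
    calc sv f a b * (f 4 * f Z * f (X ^ 3 + a * X * Z ^ 2 + b * Z ^ 3))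
        = f 4 * (sv f a b * f Z * f (X ^ 3 + a * X * Z ^ 2 + b * Z ^ 3)) := by ring
      _ ≤ 4 * (sv f a b * f Z * (f X ^ 3 + f a * f X * f Z ^ 2 + f b * f Z ^ 3)) := by
          refine mul_le_mul h4 ?_ (by positivity) (by norm_num)
          exact mul_le_mul_of_nonneg_left t1 (by positivity)
      _ = 4 * (sv f a b * f Z * f X ^ 3 + sv f a b * f Z * (f a * f X * f Z ^ 2)
            + sv f a b * f Z * (f b * f Z ^ 3)) := by ring
      _ ≤ 12 * Nv f a b X Z ^ 4 := by linarith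

private lemma upN_dup_na (f : AbsoluteValue ℚ ℝ) (hna : IsNonarchimedean f) (a b X Z : ℚ) :
    Nv f a b (Phi a b X Z) (Psi a b X Z) ≤ Nv f a b X Z ^ 4 := by
  obtain ⟨m1, m2, m3, m4, m5, m6, m7⟩ := up_mono (f.nonneg X) (f.nonneg Z) (sv_nonneg f a b)
    (upN_nonneg f a b X Z) (f.nonneg a) (f.nonneg b) (upX_le f a b X Z) (upZ_le f a b X Z)
    (le_sv_sq f a b) (le_sv_cube f a b)
  have h2 : f 2 ≤ 1 := by
    have := hna.apply_natCast_le_one (n := 2)
    exact_mod_cast this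
  have h4 : f 4 ≤ 1 := by
    have := hna.apply_natCast_le_one (n := 4)
    exact_mod_cast this
  have h8 : f 8 ≤ 1 := by
    have := hna.apply_natCast_le_one (n := 8)
    exact_mod_cast this
  have hx0 := f.nonneg X
  have hz0 := f.nonneg Z
  have ha0 := f.nonneg a
  have hb0 := f.nonneg b
  have hs0 := sv_nonneg f a b
  have hN4 : 0 ≤ Nv f a b X Z ^ 4 := pow_nonneg (upN_nonneg f a b X Z) 4
  have u2 : f (2 * a * X ^ 2 * Z ^ 2) ≤ Nv f a b X Z ^ 4 := by
    rw [f.map_mul, f.map_mul, f.map_mul, f.map_pow, f.map_pow]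
    calc f 2 * f a * f X ^ 2 * f Z ^ 2 = f 2 * (f a * f X ^ 2 * f Z ^ 2) := by ring
      _ ≤ 1 * Nv f a b X Z ^ 4 := mul_le_mul h2 m2 (by positivity) (by norm_num)
      _ = _ := one_mul _
  have u3 : f (8 * b * X * Z ^ 3) ≤ Nv f a b X Z ^ 4 := by
    rw [f.map_mul, f.map_mul, f.map_mul, f.map_pow]
    calc f 8 * f b * f X * f Z ^ 3 = f 8 * (f b * f X * f Z ^ 3) := by ring
      _ ≤ 1 * Nv f a b X Z ^ 4 := mul_le_mul h8 m3 (by positivity) (by norm_num)
      _ = _ := one_mul _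
  have u4 : f (a ^ 2 * Z ^ 4) ≤ Nv f a b X Z ^ 4 := by
    rw [f.map_mul, f.map_pow, f.map_pow]
    exact m4
  have u1 : f (X ^ 4) ≤ Nv f a b X Z ^ 4 := by
    rw [f.map_pow]
    exact m1
  have hsub : ∀ x y : ℚ, f (x - y) ≤ max (f x) (f y) := by
    intro x y
    have := hna x (-y)
    rw [f.map_neg] at this
    rw [sub_eq_add_neg]
    exact this
  have e : max (f X) (sv f a b * f Z) = Nv f a b X Z := rfl
  unfold Nv
  rw [e]
  refine max_le ?_ ?_
  · unfold Phi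
    refine (hna _ _).trans (max_le ?_ u4)
    refine (hsub _ _).trans (max_le ?_ u3)
    exact (hsub _ _).trans (max_le u1 u2)
  · unfold Psi
    rw [f.map_mul, f.map_mul]
    have hsz : 0 ≤ sv f a b * f Z := mul_nonneg hs0 hz0
    have t1 : sv f a b * f Z * f (X ^ 3 + a * X * Z ^ 2 + b * Z ^ 3) ≤ Nv f a b X Z ^ 4 := by
      have k1 : f (X ^ 3 + a * X * Z ^ 2 + b * Z ^ 3) ≤
          max (max (f X ^ 3) (f a * f X * f Z ^ 2)) (f b * f Z ^ 3) := by
        refine (hna _ _).trans (max_le_max ?_ ?_)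
        · refine (hna _ _).trans (max_le_max ?_ ?_)
          · rw [f.map_pow]
          · rw [f.map_mul, f.map_mul, f.map_pow]
        · rw [f.map_mul, f.map_pow]
      refine (mul_le_mul_of_nonneg_left k1 hsz).trans ?_
      rw [mul_max_of_nonneg _ _ hsz, mul_max_of_nonneg _ _ hsz]
      exact max_le (max_le m5 m6) m7
    calc sv f a b * (f 4 * f Z * f (X ^ 3 + a * X * Z ^ 2 + b * Z ^ 3))
        = f 4 * (sv f a b * f Z * f (X ^ 3 + a * X * Z ^ 2 + b * Z ^ 3)) := by ring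
      _ ≤ 1 * Nv f a b X Z ^ 4 := mul_le_mul h4 t1 (by positivity) (by norm_num)
      _ = _ := one_mul _

private lemma up_nu_pos {a b : ℤ} (hD : D a b ≠ 0) {p : ℕ} (hp : p ∈ mult a b) :
    0 < nu (fv p) a b := by
  obtain ⟨hpp, h5, -, hpD, hpa⟩ := mem_mult hD hp
  have ha0 : a ≠ 0 := by
    rintro rfl
    exact hpa (dvd_zero _)
  have hp1 : (1 : ℝ) < p := by exact_mod_cast hpp.one_lt
  have hfa : fv p (a : ℤ) = 1 := by
    rw [fv_int hpp ha0, Nat.factorization_eq_zero_of_not_dvd, pow_zero, inv_one]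
    intro h
    exact hpa (Int.natCast_dvd.mpr h)
  have hfD : fv p ((D a b : ℤ) : ℚ) < 1 := by
    rw [fv_int hpp hD]
    refine inv_lt_one_of_one_lt₀ (one_lt_pow₀ hp1 ?_)
    have h1 : p ∣ (D a b).natAbs := Int.natCast_dvd.mp hpD
    have h2 := (Nat.Prime.factorization_pos_of_dvd hpp (Int.natAbs_ne_zero.mpr hD) h1)
    omega
  have hDc : 4 * (a : ℚ) ^ 3 + 27 * (b : ℚ) ^ 2 = ((D a b : ℤ) : ℚ) := by
    rw [D]
    push_cast
    ring
  have hDq := D_cast_ne hD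
  have hs : 1 ≤ sv (fv p) a b ^ 2 := by
    have := le_sv_sq (fv p) (a : ℚ) (b : ℚ)
    rw [hfa] at this
    exact this
  have hs6 : 1 ≤ sv (fv p) a b ^ 6 := by
    calc (1 : ℝ) ≤ (sv (fv p) a b ^ 2) ^ 3 := one_le_pow₀ hs
      _ = _ := by ring
  unfold nu
  apply Real.log_pos
  have hfp : 0 < fv p (4 * (a : ℚ) ^ 3 + 27 * (b : ℚ) ^ 2) := (fv p).pos hDq
  rw [one_lt_div hfp, hDc]
  linarith

private lemma up_dup {a b : ℤ} (hD : D a b ≠ 0) {v : ℕ} (hv : v ∈ places a b) {X Z : ℚ}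
    (h : ¬ (X = 0 ∧ Z = 0)) (h' : ¬ (Phi (a : ℚ) b X Z = 0 ∧ Psi (a : ℚ) b X Z = 0)) :
    upW a b v (Phi (a : ℚ) b X Z) (Psi (a : ℚ) b X Z) ≤
      4 * upW a b v X Z + err (Real.log 12) v := by
  have hDq := D_cast_ne hD
  have h12 : 0 ≤ Real.log 12 := Real.log_nonneg (by norm_num)
  by_cases hm : v ∈ mult a b
  · obtain ⟨hpp, h5, -, -, -⟩ := mem_mult hD hm
    have h1 := Lv_dup_le (fv v) (fv_nonarch hpp) (fv_two_eq hpp h5) (fv_three_eq hpp h5) a b hDq
      (up_nu_pos hD hm) h h'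
    unfold upW err
    rw [if_pos hm, if_pos hm, if_pos h5, thr_mult hm]
    linarith
  · have hN := Nv_pos (fv v) a b hDq h
    have hN' := Nv_pos (fv v) a b hDq h'
    unfold upW
    rw [if_neg hm, if_neg hm]
    by_cases h5 : 5 ≤ v
    · have hp : v.Prime := by
        rcases mem_places hv with h | h
        · omega
        · exact h
      have h1 := Real.log_le_log hN' (upN_dup_na (fv v) (fv_nonarch hp) a b X Z)
      rw [Real.log_pow] at h1
      unfold err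
      rw [if_pos h5]
      push_cast at h1
      linarith
    · have h1 := Real.log_le_log hN' (upN_dup (fv v) a b X Z)
      rw [Real.log_mul (by norm_num) (pow_pos hN 4).ne', Real.log_pow] at h1
      unfold err
      rw [if_neg h5]
      push_cast at h1
      linarith

theorem UU_step : ∃ C : ℝ, 0 ≤ C ∧ ∀ (a b : ℤ), D a b ≠ 0 → ∀ P : (curve a b).Point,
    UU (P + P) ≤ 4 * UU P + C := by
  classical
  have h12 : 0 ≤ Real.log 12 := Real.log_nonneg (by norm_num)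
  refine ⟨5 * Real.log 12, by linarith, fun a b hD P => ?_⟩
  obtain ⟨m, hm0, hmD, h1, h2⟩ := dup hD P
  have hDq := D_cast_ne hD
  have hmq : (m : ℚ) ≠ 0 := by exact_mod_cast hm0
  have e1 : Phi (a : ℚ) b (repX P) (repZ P) = (m : ℚ) * (repX (P + P) : ℤ) := by
    have := congrArg (fun z : ℤ => (z : ℚ)) h1
    simp only [Phi] at this ⊢
    push_cast at this
    exact this
  have e2 : Psi (a : ℚ) b (repX P) (repZ P) = (m : ℚ) * (repZ (P + P) : ℤ) := by
    have := congrArg (fun z : ℤ => (z : ℚ)) h2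
    simp only [Psi] at this ⊢
    push_cast at this
    exact this
  have h' : ¬ (Phi (a : ℚ) b (repX P) (repZ P) = 0 ∧ Psi (a : ℚ) b (repX P) (repZ P) = 0) := by
    rw [e1, e2]
    rintro ⟨k1, k2⟩
    apply rep_ne' (P + P)
    exact ⟨(mul_eq_zero.mp k1).resolve_left hmq, (mul_eq_zero.mp k2).resolve_left hmq⟩
  have key : ∀ v ∈ places a b, Real.log (fv v m) + upW a b v (repX (P + P)) (repZ (P + P)) ≤
      4 * upW a b v (repX P) (repZ P) + err (Real.log 12) v := by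
    intro v hv
    rw [← upW_scale hD v (rep_ne' (P + P)) hmq, ← e1, ← e2]
    exact up_dup hD hv (rep_ne' P) h'
  have hs := Finset.sum_le_sum key
  rw [Finset.sum_add_distrib, Finset.sum_add_distrib, ← Finset.mul_sum, ← upUU_eq hD,
    ← upUU_eq hD] at hs
  have hz : ∑ v ∈ places a b, Real.log (fv v m) = 0 := by
    refine sum_log_zero a b hm0 (fun p hp hpm => ?_) hD
    have h4 : (p : ℤ) ∣ 4 * D a b := hpm.trans hmD
    have hpi : Prime (p : ℤ) := Nat.prime_iff_prime_int.mp hp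
    rcases hpi.dvd_or_dvd h4 with h | h
    · have h5 : (p : ℤ) ∣ 2 ^ 2 := by norm_num; exact h
      have h6 : (p : ℤ) ∣ 2 := hpi.dvd_of_dvd_pow h5
      exact h6.trans ⟨3 * D a b, by ring⟩
    · exact h.trans ⟨6, by ring⟩
  rw [hz] at hs
  have he := sum_err_le h12 (places a b)
  linarith

private lemma up_ne {a b : ℤ} (hD : D a b ≠ 0) : ¬ ((a : ℚ) = 0 ∧ (b : ℚ) = 0) := by
  rintro ⟨h1, h2⟩
  apply D_cast_ne hD
  rw [h1, h2]
  norm_num

/-- Lower bound of the local term. -/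
private lemma upW_ge {a b : ℤ} (hD : D a b ≠ 0) (v : ℕ) {X Z : ℚ} (h : ¬ (X = 0 ∧ Z = 0)) :
    Real.log (max (fv v X) (fv v Z)) - (|Real.log (min 1 (sv (fv v) a b))| + |nu (fv v) a b|) ≤
      upW a b v X Z := by
  have hDq := D_cast_ne hD
  have hs : 0 < sv (fv v) a b := sv_pos (fv v) a b (up_ne hD)
  have hm : 0 < min 1 (sv (fv v) a b) := lt_min one_pos hs
  have hM : 0 < max (fv v X) (fv v Z) := by
    by_cases hX : X = 0
    · have hZ : Z ≠ 0 := fun hZ => h ⟨hX, hZ⟩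
      exact lt_max_of_lt_right ((fv v).pos hZ)
    · exact lt_max_of_lt_left ((fv v).pos hX)
  have hN := Nv_pos (fv v) a b hDq h
  have h1 : min 1 (sv (fv v) a b) * max (fv v X) (fv v Z) ≤ Nv (fv v) a b X Z := by
    rw [mul_max_of_nonneg _ _ hm.le]
    unfold Nv
    refine max_le_max ?_ ?_
    · calc min 1 (sv (fv v) a b) * fv v X ≤ 1 * fv v X :=
            mul_le_mul_of_nonneg_right (min_le_left _ _) ((fv v).nonneg _)
        _ = fv v X := one_mul _
    · exact mul_le_mul_of_nonneg_right (min_le_right _ _) ((fv v).nonneg _)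
  have h2 := Real.log_le_log (mul_pos hm hM) h1
  rw [Real.log_mul hm.ne' hM.ne'] at h2
  have h3 := neg_abs_le (Real.log (min 1 (sv (fv v) a b)))
  unfold upW
  split_ifs with hmu
  · have hν := up_nu_pos hD hmu
    have t1 := Tv_le (fv v) a b (thr_nonneg v) hDq h hν.le
    have t2 : 0 ≤ Tv (fv v) a b (thr v) X Z ^ 2 / nu (fv v) a b :=
      div_nonneg (sq_nonneg _) hν.le
    have t3 := le_abs_self (nu (fv v) a b)
    unfold Lv
    linarith
  · have t3 := abs_nonneg (nu (fv v) a b)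
    linarith

private lemma up_coprime {p : ℕ} (hp : p.Prime) {X Z : ℤ} (h : IsCoprime X Z) :
    1 ≤ max (fv p X) (fv p Z) := by
  obtain ⟨u, w, huw⟩ := h
  have h1 : ((u : ℚ) * X + (w : ℚ) * Z) = 1 := by exact_mod_cast huw
  have h2 := fv_nonarch hp ((u : ℚ) * X) ((w : ℚ) * Z)
  rw [h1, (fv p).map_one, (fv p).map_mul, (fv p).map_mul] at h2
  refine h2.trans (max_le_max ?_ ?_)
  · calc fv p u * fv p X ≤ 1 * fv p X :=
          mul_le_mul_of_nonneg_right (fv_int_le hp u) ((fv p).nonneg _)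
      _ = _ := one_mul _
  · calc fv p w * fv p Z ≤ 1 * fv p Z :=
          mul_le_mul_of_nonneg_right (fv_int_le hp w) ((fv p).nonneg _)
      _ = _ := one_mul _

private lemma nh_le_UU {a b : ℤ} (hD : D a b ≠ 0) (P : (curve a b).Point) :
    nh P ≤ UU P + ∑ v ∈ places a b, (|Real.log (min 1 (sv (fv v) a b))| + |nu (fv v) a b|) := by
  have h0 : (0 : ℕ) ∉ (6 * D a b).natAbs.primeFactors := fun h =>
    Nat.not_prime_zero (Nat.prime_of_mem_primeFactors h)
  have h1 := Finset.sum_le_sum fun v (_ : v ∈ places a b) => upW_ge hD v (rep_ne' P)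
  rw [Finset.sum_sub_distrib, ← upUU_eq hD] at h1
  have h2 : nh P ≤ ∑ v ∈ places a b, Real.log (max (fv v (repX P)) (fv v (repZ P))) := by
    unfold places
    rw [Finset.sum_insert h0]
    have h3 : 0 ≤ ∑ v ∈ (6 * D a b).natAbs.primeFactors,
        Real.log (max (fv v (repX P)) (fv v (repZ P))) :=
      Finset.sum_nonneg fun v hv =>
        Real.log_nonneg (up_coprime (Nat.prime_of_mem_primeFactors hv) (rep_coprime P))
    have h4 : nh P = Real.log (max (fv 0 (repX P)) (fv 0 (repZ P))) := by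
      unfold nh
      rw [fv_zero, fv_zero]
      push_cast
      rfl
    linarith
  linarith

theorem g_le_UU : ∃ C : ℝ, 0 ≤ C ∧ ∀ (a b : ℤ), D a b ≠ 0 → ∀ g : (curve a b).Point → ℝ,
    (∀ P, g (P + P) = 4 * g P) → (∀ P, |g P - nh P| ≤ 20 * L a b) →
    ∀ P, g P ≤ UU P + C := by
  classical
  obtain ⟨C, hC0, hC⟩ := UU_step
  refine ⟨C / 3, by linarith, fun a b hD g h1 h2 P => ?_⟩
  obtain ⟨B, hB⟩ : ∃ B : ℝ, B = ∑ v ∈ places a b,
    (|Real.log (min 1 (sv (fv v) a b))| + |nu (fv v) a b|) := ⟨_, rfl⟩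
  have hB0 : 0 ≤ B := by
    rw [hB]
    exact Finset.sum_nonneg fun v _ => add_nonneg (abs_nonneg _) (abs_nonneg _)
  have key : ∀ (n : ℕ) (Q : (curve a b).Point),
      4 ^ n * g Q ≤ 4 ^ n * (UU Q + C / 3) + (B + 20 * L a b) := by
    intro n
    induction n with
    | zero =>
      intro Q
      have k1 := (abs_le.1 (h2 Q)).2
      have k2 := nh_le_UU hD Q
      rw [← hB] at k2
      simp only [pow_zero, one_mul]
      linarith
    | succ n ih =>
      intro Q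
      have k1 := ih (Q + Q)
      rw [h1 Q] at k1
      have k2 := hC a b hD Q
      have k3 : (0 : ℝ) < 4 ^ n := by positivity
      have k4 := mul_le_mul_of_nonneg_left k2 k3.le
      rw [pow_succ]
      linarith
  by_contra hcon
  rw [not_le] at hcon
  have hδ : 0 < g P - (UU P + C / 3) := by linarith
  obtain ⟨n, hn⟩ := pow_unbounded_of_one_lt ((B + 20 * L a b) / (g P - (UU P + C / 3)))
    (by norm_num : (1 : ℝ) < 4)
  rw [div_lt_iff₀ hδ] at hn
  have k := key n P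
  linarith

end Pool.Agent.H24.LX
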