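import Pool.Agent.H24.LX.Defs
import Pool.Agent.H24.LX.Ener
import Pool.Agent.H24.LX.Nd
import Pool.Agent.H24.LX.NdI
import Pool.Agent.H24.LX.Df
import Pool.Agent.H24.LX.Sgn
import Pool.Agent.H24.LX.Low
import Pool.Agent.H24.LX.DupUp
import Pool.Agent.H24.LX.Upp
import Pool.Agent.H24.LX.UInt
import Pool.Agent.H24.LX.StarT
import Pool.Agent.H24.LX.StarC
import Pool.Agent.H24.LX.RstB
import Pool.Agent.H24.LX.Gcd
import Pool.Agent.H24.LX.Core
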