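import Pool.Agent.H24.LX.Cov
import Pool.Agent.H24.LX.StarC
import Pool.Agent.H24.LX.RstB
import Pool.Agent.H24.LW.Main

/-!
# Curves with a large rest
-/

namespace Pool.Agent.H24.LX

open Pool.Agent.H24.LP Pool.Agent.H24.LQ Finset

/-- Curves with a large contribution of the primes `I_n^*`. -/
theorem star_count : ∃ C : ℝ, 1 ≤ C ∧ ∀ (a b : ℤ), QuasiMinimal a b → ∀ (r : ℕ),
    Module.rank ℤ (curve a b).Point ≤ r → ∀ γ : ℝ, 0 < γ → γ ≤ ∑ p ∈ star a b, nup a b p →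
    (integralPoints a b).Finite ∧
    ((integralPoints a b).ncard : ℝ) ≤ C ^ (1 + r) * LW.Bd a b r γ := by
  classical
  obtain ⟨Ch, hCh, hht⟩ := exists_height
  obtain ⟨C₀, hC₀, hcl⟩ := star_cluster
  obtain ⟨C₂, hC₂, hlarge⟩ := LR.large_count
  obtain ⟨C₃, hC₃, hall⟩ := LW.all_count' (K := C₀ * (1 + Ch)) (by nlinarith)
  obtain ⟨C₄, hC₄, hT⟩ := LR.main_T
  refine ⟨(99 * 200 * 400 : ℝ) + C₂ + C₃, by linarith, fun a b hq r hr γ hγ hγs => ?_⟩
  have hD := hq.ne
  have hL := L_pos a b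
  have hB := LW.one_le_Bd a b r γ
  have hfin : (integralPoints a b).Finite := (hT a b hq r hr ∅).1
  refine ⟨hfin, ?_⟩
  rcases le_total γ (C₀ * (1 + Ch)) with h | h
  · refine (hall a b hq r hr γ hγ h).2.trans ?_
    gcongr
    linarith
  -- large `γ`
  obtain ⟨g, g1, g2, g3⟩ := hht a b hD
  have hg : IsHt Ch g := ⟨g1, g2, g3⟩
  set m : ℝ := max 1 (L a b / γ) with hm
  have hm1 : 1 ≤ m := le_max_left _ _
  have hmL : L a b / γ ≤ m := le_max_right _ _
  refine LW.ncard_of_finset (by positivity) fun S hS => ?_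
  set S₁ := S.filter fun z => |(z.1 : ℝ)| ≤ Real.exp (100 * L a b) with hS₁
  set S₂ := S.filter fun z => ¬ |(z.1 : ℝ)| ≤ Real.exp (100 * L a b) with hS₂
  have h2 : (S₂.card : ℝ) ≤ C₂ ^ (1 + r) := hlarge a b hD r hr S₂ (fun z hz => by
    have hz' := Finset.mem_filter.mp hz
    refine ⟨hS hz'.1, ?_⟩
    have h3 := not_le.mp hz'.2
    have hpos : 0 < |(z.1 : ℝ)| := (Real.exp_pos _).trans h3
    rw [Real.le_log_iff_exp_le hpos]
    exact h3.le)
  have h1 : (S₁.card : ℝ) ≤ (99 * 200 * 400 : ℝ) ^ (1 + r) * LW.Bd a b r γ := by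
    set P₁ := S₁.image (LR.toPt hD) with hP₁
    have hcard : S₁.card = P₁.card := by
      symm
      refine Finset.card_image_of_injOn fun z hz z' hz' h => ?_
      exact LR.toPt_injOn hD (hS (Finset.mem_filter.mp hz).1) (hS (Finset.mem_filter.mp hz').1) h
    have hcov := covering hD hg r hr (ρ := γ / 200) (K := 2 * (200 * L a b / γ)) (by positivity)
      (by positivity) P₁ (fun P hP => by
        obtain ⟨z, hz, rfl⟩ := Finset.mem_image.mp hP
        have hz' := Finset.mem_filter.mp hz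
        exact g_toPt_le hD hg (hS hz'.1) hz'.2)
      (fun c _ => ball_count (fun s hs hsW => hcl Ch hCh a b hq g hg γ h hγs s hs hsW) P₁ c)
    have e1 : L a b / (γ / 200) = 200 * (L a b / γ) := by field_simp
    have e2 : max 1 (L a b / (γ / 200)) ≤ 200 * m := by
      rw [e1]
      refine max_le (by linarith) ?_
      linarith
    have e3 : 2 * (200 * L a b / γ) ≤ 400 * m := by
      have : 2 * (200 * L a b / γ) = 400 * (L a b / γ) := by ring
      rw [this]
      linarith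
    rw [hcard]
    calc (P₁.card : ℝ) ≤ 99 ^ r * (max 1 (L a b / (γ / 200))) ^ ((r : ℝ) / 2)
            * (2 * (200 * L a b / γ)) := hcov
      _ ≤ 99 ^ r * (200 * m) ^ ((r : ℝ) / 2) * (400 * m) := by
          have : (0 : ℝ) ≤ max 1 (L a b / (γ / 200)) := le_trans zero_le_one (le_max_left _ _)
          gcongr
      _ = 99 ^ r * (200 : ℝ) ^ ((r : ℝ) / 2) * 400 * (m ^ (1 : ℝ) * m ^ ((r : ℝ) / 2)) := by
          rw [Real.mul_rpow (by norm_num) (by linarith), Real.rpow_one]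
          ring
      _ = 99 ^ r * (200 : ℝ) ^ ((r : ℝ) / 2) * 400 * LW.Bd a b r γ := by
          rw [← Real.rpow_add (by linarith)]
          rfl
      _ ≤ 99 ^ r * (200 : ℝ) ^ r * 400 * LW.Bd a b r γ := by
          have h5 : (200 : ℝ) ^ ((r : ℝ) / 2) ≤ 200 ^ r := by
            rw [← Real.rpow_natCast]
            refine Real.rpow_le_rpow_of_exponent_le (by norm_num) ?_
            have : (0 : ℝ) ≤ r := Nat.cast_nonneg r
            linarith
          gcongr
      _ ≤ (99 * 200 * 400 : ℝ) ^ (1 + r) * LW.Bd a b r γ := by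
          have h6 : (99 : ℝ) ^ r * (200 : ℝ) ^ r * 400 ≤ (99 * 200 * 400 : ℝ) ^ (1 + r) := by
            rw [← mul_pow, add_comm 1 r, pow_succ]
            have h7 : (99 * 200 : ℝ) ^ r ≤ (99 * 200 * 400 : ℝ) ^ r :=
              pow_le_pow_left₀ (by norm_num) (by norm_num) r
            have h8 : (0 : ℝ) ≤ (99 * 200 * 400 : ℝ) ^ r := by positivity
            nlinarith
          exact mul_le_mul_of_nonneg_right h6 (by linarith)
  have h3 : (S.card : ℝ) = (S₁.card : ℝ) + (S₂.card : ℝ) := by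
    have h' : S₁.card + S₂.card = S.card := Finset.card_filter_add_card_filter_not (s := S)
      (fun z : ℤ × ℤ => |(z.1 : ℝ)| ≤ Real.exp (100 * L a b))
    exact_mod_cast h'.symm
  have h4 := LW.pow_sum3 (x := (99 * 200 * 400 : ℝ)) (y := C₂) (z := C₃) (by norm_num)
    (by linarith) (by linarith) r
  have h5 : C₂ ^ (1 + r) ≤ C₂ ^ (1 + r) * LW.Bd a b r γ :=
    le_mul_of_one_le_right (by positivity) hB
  have h6 : (0 : ℝ) ≤ C₃ ^ (1 + r) := by positivity
  calc (S.card : ℝ) ≤ (99 * 200 * 400 : ℝ) ^ (1 + r) * LW.Bd a b r γ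
        + C₂ ^ (1 + r) * LW.Bd a b r γ := by rw [h3]; linarith
    _ = ((99 * 200 * 400 : ℝ) ^ (1 + r) + C₂ ^ (1 + r)) * LW.Bd a b r γ := by ring
    _ ≤ ((99 * 200 * 400 : ℝ) + C₂ + C₃) ^ (1 + r) * LW.Bd a b r γ := by
        refine mul_le_mul_of_nonneg_right ?_ (by linarith)
        linarith

/-- Curves with a large rest. -/
theorem rest_count : ∃ C : ℝ, 1 ≤ C ∧ ∀ (a b : ℤ), QuasiMinimal a b → ∀ (r : ℕ),
    Module.rank ℤ (curve a b).Point ≤ r → ∀ γ : ℝ, 0 < γ → γ ≤ Rst a b →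
    (integralPoints a b).Finite ∧
    ((integralPoints a b).ncard : ℝ) ≤ C ^ (1 + r) * LW.Bd a b r γ := by
  obtain ⟨C₁, hC₁, hstar⟩ := star_count
  obtain ⟨C₂, hC₂, hR⟩ := Rst_le
  obtain ⟨C₃, hC₃, hT⟩ := LR.main_T
  refine ⟨6 * C₁ + C₃ ^ 3 * (20 * (1 + C₂)), by nlinarith [one_le_pow₀ hC₃ (n := 3)],
    fun a b hq r hr γ hγ hγR => ?_⟩
  have hL := L_pos a b
  have hB := LW.one_le_Bd a b r γ
  have h1 := hR a b hq.ne
  obtain ⟨hf, h2⟩ := hT a b hq r hr {2, 3}
  have hG := one_le_GT a b {2, 3}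
  refine ⟨hf, ?_⟩
  have hC31 : (1 : ℝ) ≤ C₃ ^ 3 := one_le_pow₀ hC₃
  rcases le_total (γ / 2) (3 * ∑ p ∈ star a b, nup a b p) with h | h
  · refine (hstar a b hq r hr (γ / 6) (by positivity) (by linarith)).2.trans ?_
    have h3 := LW.Bd_scale (a := a) (b := b) (r := r) (γ := γ) (k := 6) (δ := γ / 6) hγ
      (by norm_num) le_rfl
    calc C₁ ^ (1 + r) * LW.Bd a b r (γ / 6) ≤ C₁ ^ (1 + r) * (6 ^ (1 + r) * LW.Bd a b r γ) :=
          mul_le_mul_of_nonneg_left h3 (by positivity)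
      _ = (6 * C₁) ^ (1 + r) * LW.Bd a b r γ := by rw [mul_pow]; ring
      _ ≤ _ := by
          gcongr
          nlinarith
  · have h4 : γ / (20 * (1 + C₂)) ≤ GT a b {2, 3} := by
      rw [div_le_iff₀ (by positivity)]
      have h5 : γ / 2 ≤ 10 * (GT a b {2, 3} + C₂) := by linarith
      nlinarith
    have h6 := LW.Bd_scale (a := a) (b := b) (r := r) (γ := γ) (k := 20 * (1 + C₂))
      (δ := GT a b {2, 3}) hγ (by linarith) h4
    have h7 : (L a b / GT a b {2, 3}) ^ (1 + (r : ℝ) / 2) ≤ LW.Bd a b r (GT a b {2, 3}) :=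
      Real.rpow_le_rpow (by positivity) (le_max_right _ _) (by positivity)
    have h8 : C₃ ^ (1 + r + ({2, 3} : Finset ℕ).card) ≤ (C₃ ^ 3) ^ (1 + r) := by
      rw [← pow_mul]
      refine pow_le_pow_right₀ hC₃ ?_
      have : ({2, 3} : Finset ℕ).card = 2 := by decide
      rw [this]
      omega
    calc ((integralPoints a b).ncard : ℝ)
        ≤ C₃ ^ (1 + r + ({2, 3} : Finset ℕ).card) * (L a b / GT a b {2, 3}) ^ (1 + (r : ℝ) / 2) := h2
      _ ≤ (C₃ ^ 3) ^ (1 + r) * ((20 * (1 + C₂)) ^ (1 + r) * LW.Bd a b r γ) := by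
          have h9 := h7.trans h6
          have h10 : (0 : ℝ) ≤ (L a b / GT a b {2, 3}) ^ (1 + (r : ℝ) / 2) := by positivity
          gcongr
      _ = (C₃ ^ 3 * (20 * (1 + C₂))) ^ (1 + r) * LW.Bd a b r γ := by rw [mul_pow (C₃ ^ 3)]; ring
      _ ≤ _ := by
          gcongr
          linarith

end Pool.Agent.H24.LX
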