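import Pool.Agent.H24.LR.Can
import Pool.Agent.H24.LR.Pt
import Pool.Agent.H24.LQ.Weights

/-!
# LX Defs

Notation of the project LX. Absolute values: `f = fv p`; `s = sv f a b`, `κ = kap f a b`, `κ² = f D/s⁶`, `ν = nu f a b = -2 log κ`,
`N = Nv`, `M = Mv`, `T = log(N/M)`, `τ = T/ν = tau`, `Lv = log N - T + T²/ν` (LQ/Defs, LQ/Basic, LQ/PairS).
-/

namespace Pool.Agent.H24.LX

open Pool.Agent.H24.LP Pool.Agent.H24.LQ Pool.Agent.H24.LR Finset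

/-- The primes `p ≥ 5` with `p ∣ D`, `p ∤ a` (multiplicative reduction). -/
def mult (a b : ℤ) : Finset ℕ :=
  (D a b).natAbs.primeFactors.filter fun p => 5 ≤ p ∧ ¬ (p : ℤ) ∣ a

/-- The primes `p ≥ 5` which divide `a` and the denominator of `j` (type `I_n^*`). -/
def star (a b : ℤ) : Finset ℕ := (poles a b).filter fun p => 5 ≤ p ∧ (p : ℤ) ∣ a

/-- The contribution of the other places: `∑_{v ∉ mult} ν_v⁺ + ∑_{p ∉ mult, p ≥ 5} 2 log p`. -/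
noncomputable def Rst (a b : ℤ) : ℝ :=
  ∑ v ∈ places a b \ mult a b, nup a b v
    + ∑ v ∈ (places a b \ mult a b).filter (fun v => 5 ≤ v), 2 * Real.log v

/-- `max(1, L/γ)^(1+r/2)`. -/
noncomputable def Bd (a b : ℤ) (r : ℕ) (γ : ℝ) : ℝ := (max 1 (L a b / γ)) ^ (1 + (r : ℝ) / 2)

lemma mem_mult {a b : ℤ} (hD : D a b ≠ 0) {p : ℕ} (hp : p ∈ mult a b) :
    p.Prime ∧ 5 ≤ p ∧ p ∈ places a b ∧ (p : ℤ) ∣ D a b ∧ ¬ (p : ℤ) ∣ a := by
  have h := Finset.mem_filter.mp hp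
  have h1 := Nat.prime_of_mem_primeFactors h.1
  have h2 := Nat.dvd_of_mem_primeFactors h.1
  refine ⟨h1, h.2.1, ?_, Int.natCast_dvd.mpr h2, h.2.2⟩
  refine Finset.mem_insert_of_mem ?_
  rw [Nat.mem_primeFactors]
  refine ⟨h1, ?_, ?_⟩
  · rw [Int.natAbs_mul]
    exact Dvd.dvd.mul_left h2 _
  · rw [Int.natAbs_ne_zero]
    exact mul_ne_zero (by norm_num) hD

lemma mult_subset {a b : ℤ} (hD : D a b ≠ 0) : mult a b ⊆ places a b :=
  fun _ hp => (mem_mult hD hp).2.2.1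

lemma thr_mult {a b : ℤ} {p : ℕ} (hp : p ∈ mult a b) : thr p = 0 := by
  unfold thr
  rw [if_pos (Finset.mem_filter.mp hp).2.1]

lemma repX_toPt {a b : ℤ} (hD : D a b ≠ 0) {z : ℤ × ℤ} (h : z ∈ integralPoints a b) :
    repX (toPt hD z) = z.1 := by
  rw [toPt_eq hD h]
  simp [repX]

lemma repZ_toPt {a b : ℤ} (hD : D a b ≠ 0) {z : ℤ × ℤ} (h : z ∈ integralPoints a b) :
    repZ (toPt hD z) = 1 := by
  rw [toPt_eq hD h]
  simp [repZ]

end Pool.Agent.H24.LX
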