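import Pool.Agent.H24.LW.Region
import Pool.Agent.H24.LX.Defs

/-!
# Covering by balls
-/

namespace Pool.Agent.H24.LX

open Pool.Agent.H24.LP Pool.Agent.H24.LQ Pool.Agent.H24.LR Finset

open Classical in
/-- Counting by balls of radius `ρ`. -/
theorem covering {Ch : ℝ} {a b : ℤ} (hD : D a b ≠ 0) {g : (curve a b).Point → ℝ}
    (hg : IsHt Ch g) (r : ℕ) (hr : Module.rank ℤ (curve a b).Point ≤ r) {ρ K : ℝ} (hρ : 0 < ρ)
    (hK : 0 ≤ K) (S : Finset (curve a b).Point) (hS : ∀ P ∈ S, g P ≤ 120 * L a b)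
    (hcl : ∀ c ∈ S, ((S.filter fun P => g (P - c) ≤ ρ).card : ℝ) ≤ K) :
    (S.card : ℝ) ≤ 99 ^ r * (max 1 (L a b / ρ)) ^ ((r : ℝ) / 2) * K := by
  have hquad := can_quad hD hg.dbl hg.near
  have hfin := fun R => can_finite (a := a) (b := b) hg.near R
  have hL := L_pos a b
  set m : ℝ := max 1 (L a b / ρ) with hm
  have hm1 : 1 ≤ m := le_max_left _ _
  have hmL : L a b ≤ m * ρ := by
    rw [← div_le_iff₀ hρ]
    exact le_max_right _ _
  set n : ℕ := ⌈98 * Real.sqrt m⌉₊ with hn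
  have hsq : Real.sqrt m ^ 2 = m := Real.sq_sqrt (by linarith)
  have hsq1 : 1 ≤ Real.sqrt m := by
    rw [Real.one_le_sqrt]; exact hm1
  have hn1 : 98 * Real.sqrt m ≤ n := Nat.le_ceil _
  have hn2 : (n : ℝ) ≤ 99 * Real.sqrt m := by
    have := Nat.ceil_lt_add_one (a := 98 * Real.sqrt m) (by positivity)
    linarith
  have hn0 : 0 < n := by
    have : (0 : ℝ) < n := by linarith
    exact_mod_cast this
  obtain ⟨Z, hZS, hZc, hZ⟩ := LW.cover hquad hfin r hr (R := 120 * L a b) (by positivity) n hn0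
    S hS
  have hrad : 80 * (120 * L a b) / (n : ℝ) ^ 2 ≤ ρ := by
    have hnn : 9604 * m ≤ (n : ℝ) ^ 2 := by
      calc 9604 * m = (98 * Real.sqrt m) ^ 2 := by rw [mul_pow, hsq]; norm_num
        _ ≤ (n : ℝ) ^ 2 := by gcongr
    rw [div_le_iff₀ (by positivity)]
    have h1 : ρ * (9604 * m) ≤ ρ * (n : ℝ) ^ 2 := by gcongr
    nlinarith
  have hsub : S ⊆ Z.biUnion fun c => S.filter fun P => g (P - c) ≤ ρ := by
    intro P hP
    obtain ⟨c, hc, hcP⟩ := hZ P hP
    rw [Finset.mem_biUnion]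
    exact ⟨c, hc, Finset.mem_filter.mpr ⟨hP, hcP.trans hrad⟩⟩
  have h1 : S.card ≤ ∑ c ∈ Z, (S.filter fun P => g (P - c) ≤ ρ).card :=
    (Finset.card_le_card hsub).trans Finset.card_biUnion_le
  have h2 : (S.card : ℝ) ≤ ∑ c ∈ Z, ((S.filter fun P => g (P - c) ≤ ρ).card : ℝ) := by
    exact_mod_cast h1
  have h3 : (S.card : ℝ) ≤ Z.card * K := by
    refine h2.trans ((Finset.sum_le_sum fun c hc => hcl c (hZS hc)).trans ?_)
    rw [Finset.sum_const, nsmul_eq_mul]
  have h4 : (Z.card : ℝ) ≤ 99 ^ r * m ^ ((r : ℝ) / 2) := by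
    have h5 : (Z.card : ℝ) ≤ (n : ℝ) ^ r := by exact_mod_cast hZc
    refine h5.trans ?_
    calc (n : ℝ) ^ r ≤ (99 * Real.sqrt m) ^ r := by gcongr
      _ = 99 ^ r * (Real.sqrt m) ^ r := mul_pow _ _ _
      _ = 99 ^ r * m ^ ((r : ℝ) / 2) := by
          congr 1
          rw [Real.sqrt_eq_rpow, ← Real.rpow_natCast, ← Real.rpow_mul (by linarith)]
          congr 1
          ring
  exact h3.trans (mul_le_mul_of_nonneg_right h4 hK)

open Classical in
/-- A bound for small points with distinct abscissas gives a bound for a ball. -/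
theorem ball_count {a b : ℤ} {g : (curve a b).Point → ℝ} {ρ K : ℝ}
    (h : ∀ s : Finset (curve a b).Point, (∀ P ∈ s, g P ≤ ρ) →
      (∀ P ∈ s, ∀ Q ∈ s, P ≠ Q → repX P * repZ Q - repX Q * repZ P ≠ 0) → (s.card : ℝ) ≤ K)
    (S : Finset (curve a b).Point) (c : (curve a b).Point) :
    ((S.filter fun P => g (P - c) ≤ ρ).card : ℝ) ≤ 2 * K := by
  set F := S.filter fun P => g (P - c) ≤ ρ with hF
  set s : Finset (curve a b).Point := F.image fun P => P - c with hs
  have hsF : F.card = s.card := by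
    symm
    refine Finset.card_image_of_injOn fun P _ Q _ hPQ => ?_
    exact sub_left_injective hPQ
  obtain ⟨s₁, hs₁, hs₁c, hs₁W⟩ := LW.half_reps s
  have h1 := h s₁ (fun P hP => by
    obtain ⟨Q, hQ, rfl⟩ := Finset.mem_image.mp (hs₁ hP)
    exact (Finset.mem_filter.mp hQ).2) hs₁W
  have h2 : (F.card : ℝ) ≤ 2 * s₁.card := by
    rw [hsF]; exact_mod_cast hs₁c
  linarith

/-- The height of an integral point. -/
lemma g_toPt_le {Ch : ℝ} {a b : ℤ} (hD : D a b ≠ 0) {g : (curve a b).Point → ℝ}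
    (hg : IsHt Ch g) {z : ℤ × ℤ} (hz : z ∈ integralPoints a b)
    (hx : |(z.1 : ℝ)| ≤ Real.exp (100 * L a b)) : g (toPt hD z) ≤ 120 * L a b := by
  have hL := L_pos a b
  have h1 := (abs_le.mp (hg.near (toPt hD z))).2
  have h2 : nh (toPt hD z) ≤ 100 * L a b := by
    rw [nh_toPt hD hz]
    have hpos : 0 < max |(z.1 : ℝ)| 1 := lt_of_lt_of_le one_pos (le_max_right _ _)
    rw [Real.log_le_iff_le_exp hpos]
    refine max_le hx ?_
    rw [Real.one_le_exp_iff]
    positivity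
  linarith

end Pool.Agent.H24.LX
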