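import Pool.Agent.H24.LX.Core
import Pool.Agent.H24.LX.Cnt
import Pool.Agent.H24.LX.Gcd

/-!
# Integral points which are not small
-/

namespace Pool.Agent.H24.LX

open Pool.Agent.H24.LP Pool.Agent.H24.LQ Finset

/-- The canonical height with respect to `x`. -/
structure IsCan {a b : ℤ} (g : (curve a b).Point → ℝ) : Prop where
  dbl : ∀ P, g (P + P) = 4 * g P
  near : ∃ B : ℝ, ∀ P, |g P - nh P| ≤ B

lemma can_unique {a b : ℤ} {g g' : (curve a b).Point → ℝ} (h : IsCan g) (h' : IsCan g') :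
    g = g' := by
  obtain ⟨B, hB⟩ := h.near
  obtain ⟨B', hB'⟩ := h'.near
  have h1 : ∀ P, |g P - g' P| ≤ B + B' := fun P => by
    have e : g P - g' P = (g P - nh P) - (g' P - nh P) := by ring
    rw [e]
    exact (abs_sub _ _).trans (add_le_add (hB P) (hB' P))
  have h2 : ∀ (n : ℕ) (P : (curve a b).Point), 4 ^ n * |g P - g' P| ≤ B + B' := by
    intro n
    induction n with
    | zero => intro P; simpa using h1 P
    | succ n ih =>
      intro P
      have h3 := ih (P + P)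
      rw [h.dbl, h'.dbl, ← mul_sub, abs_mul, abs_of_pos (by norm_num : (0 : ℝ) < 4)] at h3
      calc (4 : ℝ) ^ (n + 1) * |g P - g' P| = 4 ^ n * (4 * |g P - g' P|) := by ring
        _ ≤ B + B' := h3
  funext P
  by_contra hne
  have hpos : 0 < |g P - g' P| := abs_pos.mpr (sub_ne_zero.mpr hne)
  obtain ⟨n, hn⟩ := pow_unbounded_of_one_lt ((B + B') / |g P - g' P|)
    (by norm_num : (1 : ℝ) < 4)
  rw [div_lt_iff₀ hpos] at hn
  exact absurd (h2 n P) (not_le.mpr hn)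

lemma Bd_delta {a b : ℤ} (r : ℕ) {δ k : ℝ} (hδ : 0 < δ) (hδ1 : δ ≤ 1) (hk : 1 ≤ k) :
    LW.Bd a b r (δ ^ 2 * L a b / k) ≤ k ^ (1 + r) * (1 / δ) ^ (2 + r) := by
  have hL := L_pos a b
  have h1δ : 1 ≤ 1 / δ := by rw [le_div_iff₀ hδ]; linarith
  have e1 : L a b / (δ ^ 2 * L a b / k) = k * (1 / δ) ^ 2 := by field_simp
  have e2 : 1 ≤ k * (1 / δ) ^ 2 := by
    have := one_le_pow₀ h1δ (n := 2)
    nlinarith
  have e3 : max 1 (L a b / (δ ^ 2 * L a b / k)) = k * (1 / δ) ^ 2 := by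
    rw [e1, max_eq_right e2]
  have hk0 : 0 < k := by linarith
  unfold LW.Bd
  rw [e3, Real.mul_rpow hk0.le (by positivity)]
  have e4 : ((1 / δ) ^ 2 : ℝ) ^ (1 + (r : ℝ) / 2) = (1 / δ) ^ (2 + r) := by
    rw [← Real.rpow_natCast, ← Real.rpow_natCast, ← Real.rpow_mul (by positivity)]
    congr 1
    push_cast
    ring
  rw [e4]
  have e5 : k ^ (1 + (r : ℝ) / 2) ≤ k ^ (1 + r) := by
    rw [← Real.rpow_natCast]
    refine Real.rpow_le_rpow_of_exponent_le hk ?_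
    push_cast
    have : (0 : ℝ) ≤ r := Nat.cast_nonneg r
    linarith
  gcongr

/-- Points of one sign. -/
lemma half_count {K₀ Ch : ℝ} {a b : ℤ} (hq : QuasiMinimal a b)
    {g : (curve a b).Point → ℝ} (hg : IsHt Ch g) (r : ℕ)
    (hr : Module.rank ℤ (curve a b).Point ≤ r) {δ : ℝ} (hδ : 0 < δ) (hδ1 : δ ≤ 1)
    (hcore : ∀ F : Finset (ℤ × ℤ), (∀ z ∈ F, z ∈ integralPoints a b ∧
      |(z.1 : ℝ)| ≤ Real.exp ((1 + δ ^ 2 / 64) * L a b) ∧ δ * L a b ≤ g (LR.toPt hq.ne z)) →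
      (∀ z ∈ F, ∀ z' ∈ F, z ≠ z' → z.1 ≠ z'.1) →
      (∀ z ∈ F, ∀ z' ∈ F, g (LR.toPt hq.ne z - LR.toPt hq.ne z') ≤ δ ^ 2 * L a b / 16) →
      (F.card : ℝ) ≤ 2 / δ ^ 2)
    (S : Finset (ℤ × ℤ)) (hS : ∀ z ∈ S, z ∈ integralPoints a b ∧
      |(z.1 : ℝ)| ≤ Real.exp ((1 + δ ^ 2 / 64) * L a b) ∧ δ * L a b ≤ g (LR.toPt hq.ne z))
    (hinj : ∀ z ∈ S, ∀ z' ∈ S, z ≠ z' → z.1 ≠ z'.1) :
    (S.card : ℝ) ≤ (99 * 64 : ℝ) ^ (1 + r) * (1 / δ) ^ (2 + r) := by
  classical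
  have hD := hq.ne
  have hL := L_pos a b
  have hquad := LR.can_quad hD hg.dbl hg.near
  set P := S.image (LR.toPt hD) with hP
  have hcard : S.card = P.card := by
    symm
    refine Finset.card_image_of_injOn fun z hz z' hz' h => ?_
    exact LR.toPt_injOn hD (hS z hz).1 (hS z' hz').1 h
  have hδ2 : 0 < δ ^ 2 := by positivity
  have hδ21 : δ ^ 2 ≤ 1 := pow_le_one₀ hδ.le hδ1
  have hcov := covering hD hg r hr (ρ := δ ^ 2 * L a b / 64) (K := 2 / δ ^ 2) (by positivity)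
    (by positivity) P (fun Q hQ => by
      obtain ⟨z, hz, rfl⟩ := Finset.mem_image.mp hQ
      refine g_toPt_le hD hg (hS z hz).1 ((hS z hz).2.1.trans ?_)
      refine Real.exp_le_exp.mpr ?_
      nlinarith) (fun c _ => by
      set F := S.filter fun z => g (LR.toPt hD z - c) ≤ δ ^ 2 * L a b / 64 with hF
      have h1 : (P.filter fun Q => g (Q - c) ≤ δ ^ 2 * L a b / 64) ⊆ F.image (LR.toPt hD) := by
        intro Q hQ
        obtain ⟨hQ1, hQ2⟩ := Finset.mem_filter.mp hQ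
        obtain ⟨z, hz, rfl⟩ := Finset.mem_image.mp hQ1
        exact Finset.mem_image_of_mem _ (Finset.mem_filter.mpr ⟨hz, hQ2⟩)
      have h2 : (P.filter fun Q => g (Q - c) ≤ δ ^ 2 * L a b / 64).card ≤ F.card :=
        (Finset.card_le_card h1).trans Finset.card_image_le
      have h3 := hcore F (fun z hz => hS z (Finset.mem_filter.mp hz).1)
        (fun z hz z' hz' => hinj z (Finset.mem_filter.mp hz).1 z' (Finset.mem_filter.mp hz').1)
        (fun z hz z' hz' => by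
          have e1 := (Finset.mem_filter.mp hz).2
          have e2 := (Finset.mem_filter.mp hz').2
          have e3 := hquad.par (LR.toPt hD z - c) (LR.toPt hD z' - c)
          have e4 := hquad.nonneg (LR.toPt hD z - c + (LR.toPt hD z' - c))
          have e5 : LR.toPt hD z - c - (LR.toPt hD z' - c) = LR.toPt hD z - LR.toPt hD z' := by
            abel
          rw [e5] at e3
          linarith)
      have h4 : ((P.filter fun Q => g (Q - c) ≤ δ ^ 2 * L a b / 64).card : ℝ) ≤ F.card := by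
        exact_mod_cast h2
      exact h4.trans h3)
  have h1δ : 1 ≤ 1 / δ := by rw [le_div_iff₀ hδ]; linarith
  have e1 : L a b / (δ ^ 2 * L a b / 64) = 64 * (1 / δ) ^ 2 := by field_simp
  have e2 : max 1 (L a b / (δ ^ 2 * L a b / 64)) = 64 * (1 / δ) ^ 2 := by
    rw [e1, max_eq_right]
    have := one_le_pow₀ h1δ (n := 2)
    linarith
  have e3 : ((1 / δ) ^ 2 : ℝ) ^ ((r : ℝ) / 2) = (1 / δ) ^ r := by
    rw [← Real.rpow_natCast, ← Real.rpow_natCast, ← Real.rpow_mul (by positivity)]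
    congr 1
    push_cast
    ring
  have e4 : (64 : ℝ) ^ ((r : ℝ) / 2) ≤ 64 ^ r := by
    rw [← Real.rpow_natCast]
    refine Real.rpow_le_rpow_of_exponent_le (by norm_num) ?_
    have : (0 : ℝ) ≤ r := Nat.cast_nonneg r
    linarith
  rw [hcard]
  refine hcov.trans ?_
  rw [e2, Real.mul_rpow (by norm_num) (by positivity), e3]
  have e5 : 2 / δ ^ 2 = 2 * (1 / δ) ^ 2 := by field_simp
  rw [e5]
  calc 99 ^ r * ((64 : ℝ) ^ ((r : ℝ) / 2) * (1 / δ) ^ r) * (2 * (1 / δ) ^ 2)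
      ≤ 99 ^ r * ((64 : ℝ) ^ r * (1 / δ) ^ r) * (2 * (1 / δ) ^ 2) := by gcongr
    _ = (2 * (99 * 64 : ℝ) ^ r) * (1 / δ) ^ (2 + r) := by
        rw [mul_pow, pow_add]; ring
    _ ≤ (99 * 64 : ℝ) ^ (1 + r) * (1 / δ) ^ (2 + r) := by
        have h5 : (0 : ℝ) ≤ (99 * 64 : ℝ) ^ r := by positivity
        have h6 : 2 * (99 * 64 : ℝ) ^ r ≤ (99 * 64 : ℝ) ^ (1 + r) := by
          rw [add_comm 1 r, pow_succ]
          nlinarith
        exact mul_le_mul_of_nonneg_right h6 (by positivity)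

/-- Integral points of large canonical height. -/
theorem main_A : ∃ C : ℝ, 1 ≤ C ∧ ∀ (a b : ℤ) (hq : QuasiMinimal a b),
    ∀ g : (curve a b).Point → ℝ, IsCan g → ∀ r : ℕ, Module.rank ℤ (curve a b).Point ≤ r →
    ∀ δ : ℝ, 0 < δ → δ ≤ 1 →
    (({z | z ∈ integralPoints a b ∧ δ * L a b ≤ g (LR.toPt hq.ne z)} :
      Set (ℤ × ℤ)).ncard : ℝ) ≤ C ^ (1 + r) * (1 / δ) ^ (2 + r) := by
  classical
  obtain ⟨Ch, hCh, hht⟩ := exists_height
  obtain ⟨K₀, hK₀, hcore⟩ := core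
  obtain ⟨C₁, hC₁, hall⟩ := LW.all_count' (K := K₀ * (1 + Ch)) (by nlinarith)
  obtain ⟨C₂, hC₂, hrest⟩ := rest_count
  obtain ⟨C₃, hC₃, hfar⟩ := LW.main
  set C : ℝ := C₁ + 64 * C₂ + (99 * 64 + 99 * 64 + 64 * C₃) with hC
  refine ⟨C, by linarith, fun a b hq g hcan r hr δ hδ hδ1 => ?_⟩
  have hD := hq.ne
  have hL := L_pos a b
  obtain ⟨g', g1, g2, g3⟩ := hht a b hD
  have hgg : g = g' := can_unique hcan ⟨g1, _, g2⟩
  subst hgg
  have hg : IsHt Ch g := ⟨g1, g2, g3⟩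
  have hδ2 : 0 < δ ^ 2 := by positivity
  have h1δ : 1 ≤ 1 / δ := by rw [le_div_iff₀ hδ]; linarith
  have hDl : (0 : ℝ) ≤ (1 / δ) ^ (2 + r) := by positivity
  have hmono : ∀ x : ℝ, 0 ≤ x → x ≤ C →
      x ^ (1 + r) * (1 / δ) ^ (2 + r) ≤ C ^ (1 + r) * (1 / δ) ^ (2 + r) := by
    intro x hx hxC
    gcongr
  rcases le_total (δ ^ 2 * L a b) (K₀ * (1 + Ch)) with h | h
  · obtain ⟨hf, h1⟩ := hall a b hq r hr (δ ^ 2 * L a b) (by positivity) h
    refine (LW.ncard_of_all hf h1).trans ?_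
    have h2 := Bd_delta (a := a) (b := b) r hδ hδ1 le_rfl
    rw [div_one, one_pow, one_mul] at h2
    refine le_trans ?_ (hmono C₁ (by linarith) (by linarith))
    gcongr
  rcases le_total (δ ^ 2 * L a b / 64) (Rst a b) with h' | h'
  · obtain ⟨hf, h1⟩ := hrest a b hq r hr (δ ^ 2 * L a b / 64) (by positivity) h'
    refine (LW.ncard_of_all hf h1).trans ?_
    have h2 := Bd_delta (a := a) (b := b) r hδ hδ1 (by norm_num : (1 : ℝ) ≤ 64)
    refine le_trans ?_ (hmono (64 * C₂) (by linarith) (by linarith))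
    rw [mul_pow, mul_comm ((64 : ℝ) ^ (1 + r)) (C₂ ^ (1 + r)), mul_assoc]
    gcongr
  -- the main case
  have hc := hcore Ch hCh a b hq g hg δ hδ hδ1 h h'
  refine LW.ncard_of_finset (by positivity) fun S hS => ?_
  set Q : ℤ × ℤ → Prop := fun z => |(z.1 : ℝ)| ≤ Real.exp ((1 + δ ^ 2 / 64) * L a b) with hQ
  have h1 := half_count (K₀ := K₀) hq hg r hr hδ hδ1 hc (S.filter fun z => Q z ∧ 0 ≤ z.2)
    (fun z hz => by
      have := Finset.mem_filter.mp hz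
      exact ⟨(hS this.1).1, this.2.1, (hS this.1).2⟩)
    (fun z hz z' hz' hne hx => by
      have e1 := Finset.mem_filter.mp hz
      have e2 := Finset.mem_filter.mp hz'
      exact hne (LW.sign_inj (hS e1.1).1 (hS e2.1).1 hx (Or.inl ⟨e1.2.2, e2.2.2⟩)))
  have h2 := half_count (K₀ := K₀) hq hg r hr hδ hδ1 hc (S.filter fun z => Q z ∧ z.2 < 0)
    (fun z hz => by
      have := Finset.mem_filter.mp hz
      exact ⟨(hS this.1).1, this.2.1, (hS this.1).2⟩)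
    (fun z hz z' hz' hne hx => by
      have e1 := Finset.mem_filter.mp hz
      have e2 := Finset.mem_filter.mp hz'
      exact hne (LW.sign_inj (hS e1.1).1 (hS e2.1).1 hx (Or.inr ⟨e1.2.2, e2.2.2⟩)))
  obtain ⟨hfin, -⟩ := (Classical.choose_spec LR.main_T).2 a b hq r hr ∅
  have h3 : ((S.filter fun z => ¬ Q z).card : ℝ) ≤
      (64 * C₃) ^ (1 + r) * (1 / δ) ^ (2 + r) := by
    have e1 := (hfar a b hq r hr).1 (δ ^ 2 * L a b / 64) (by positivity)
    have e2 := Bd_delta (a := a) (b := b) r hδ hδ1 (by norm_num : (1 : ℝ) ≤ 64)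
    have hsub : ((S.filter fun z => ¬ Q z : Finset (ℤ × ℤ)) : Set (ℤ × ℤ)) ⊆
        {z | z ∈ integralPoints a b ∧
          Real.exp (L a b + δ ^ 2 * L a b / 64) ≤ |(z.1 : ℝ)|} := by
      intro z hz
      have hz' := Finset.mem_filter.mp hz
      refine ⟨(hS hz'.1).1, ?_⟩
      have e3 := not_le.mp hz'.2
      have e4 : L a b + δ ^ 2 * L a b / 64 = (1 + δ ^ 2 / 64) * L a b := by ring
      rw [e4]
      exact e3.le
    have hfin' : ({z | z ∈ integralPoints a b ∧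
          Real.exp (L a b + δ ^ 2 * L a b / 64) ≤ |(z.1 : ℝ)|} : Set (ℤ × ℤ)).Finite :=
      hfin.subset fun z hz => hz.1
    have e5 := Set.ncard_le_ncard hsub hfin'
    rw [Set.ncard_coe_finset] at e5
    have e6 : ((S.filter fun z => ¬ Q z).card : ℝ) ≤ (({z | z ∈ integralPoints a b ∧
          Real.exp (L a b + δ ^ 2 * L a b / 64) ≤ |(z.1 : ℝ)|} : Set (ℤ × ℤ)).ncard : ℝ) := by
      exact_mod_cast e5
    refine e6.trans (e1.trans ?_)
    rw [mul_pow, mul_comm ((64 : ℝ) ^ (1 + r)) (C₃ ^ (1 + r)), mul_assoc]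
    gcongr
  have hcov : S ⊆ ((S.filter fun z => Q z ∧ 0 ≤ z.2) ∪ (S.filter fun z => Q z ∧ z.2 < 0)) ∪
      (S.filter fun z => ¬ Q z) := by
    intro z hz
    simp only [Finset.mem_union, Finset.mem_filter]
    by_cases hp : Q z
    · rcases le_or_gt 0 z.2 with h | h
      · exact Or.inl (Or.inl ⟨hz, hp, h⟩)
      · exact Or.inl (Or.inr ⟨hz, hp, h⟩)
    · exact Or.inr ⟨hz, hp⟩
  have hcard : (S.card : ℝ) ≤ ((S.filter fun z => Q z ∧ 0 ≤ z.2).card : ℝ) +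
      ((S.filter fun z => Q z ∧ z.2 < 0).card : ℝ) + ((S.filter fun z => ¬ Q z).card : ℝ) := by
    have h4 := (Finset.card_le_card hcov).trans (Finset.card_union_le _ _)
    have h5 := Finset.card_union_le (S.filter fun z => Q z ∧ 0 ≤ z.2)
      (S.filter fun z => Q z ∧ z.2 < 0)
    have h6 : S.card ≤ (S.filter fun z => Q z ∧ 0 ≤ z.2).card +
      (S.filter fun z => Q z ∧ z.2 < 0).card + (S.filter fun z => ¬ Q z).card := by omega
    exact_mod_cast h6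
  have h7 := LW.pow_sum3 (x := (99 * 64 : ℝ)) (y := (99 * 64 : ℝ)) (z := 64 * C₃) (by norm_num)
    (by norm_num) (by linarith) r
  calc (S.card : ℝ) ≤ ((99 * 64 : ℝ) ^ (1 + r) + (99 * 64 : ℝ) ^ (1 + r) + (64 * C₃) ^ (1 + r))
        * (1 / δ) ^ (2 + r) := by
        rw [add_mul, add_mul]
        exact hcard.trans (add_le_add (add_le_add h1 h2) h3)
    _ ≤ (99 * 64 + 99 * 64 + 64 * C₃ : ℝ) ^ (1 + r) * (1 / δ) ^ (2 + r) :=
        mul_le_mul_of_nonneg_right h7 hDl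
    _ ≤ C ^ (1 + r) * (1 / δ) ^ (2 + r) := hmono _ (by linarith) (by linarith)

/-- Integral points with a small greatest common divisor of `y` and `D`. -/
theorem main_B : ∃ C : ℝ, 1 ≤ C ∧ ∀ (a b : ℤ), QuasiMinimal a b →
    ∀ r : ℕ, Module.rank ℤ (curve a b).Point ≤ r → ∀ δ : ℝ, 0 < δ → δ ≤ 1 →
    (({z | z ∈ integralPoints a b ∧
      Real.log (Int.gcd z.2 (D a b) : ℝ) ≤ (1 - δ) * L a b} :
      Set (ℤ × ℤ)).ncard : ℝ) ≤ C ^ (1 + r) * (1 / δ) ^ (2 + r) := by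
  classical
  obtain ⟨Ch, hCh, hht⟩ := exists_height
  obtain ⟨Cg, hCg, hgcd⟩ := SS_gcd
  obtain ⟨C₁, hC₁, hall⟩ := LW.all_count' (K := 1 + 4 * (Cg + Ch)) (by linarith)
  obtain ⟨C₂, hC₂, hrest⟩ := rest_count
  obtain ⟨C₃, hC₃, hA⟩ := main_A
  set C : ℝ := C₁ + 4 * C₂ + 4 * C₃ with hC
  refine ⟨C, by linarith, fun a b hq r hr δ hδ hδ1 => ?_⟩
  have hL := L_pos a b
  have h1δ : 1 ≤ 1 / δ := by rw [le_div_iff₀ hδ]; linarith
  have hmono : ∀ x : ℝ, 0 ≤ x → x ≤ C →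
      x ^ (1 + r) * (1 / δ) ^ (2 + r) ≤ C ^ (1 + r) * (1 / δ) ^ (2 + r) := by
    intro x hx hxC
    gcongr
  have hBd : ∀ k : ℝ, 1 ≤ k → LW.Bd a b r (δ * L a b / k) ≤ k ^ (1 + r) * (1 / δ) ^ (2 + r) := by
    intro k hk
    have h1 := Bd_delta (a := a) (b := b) r hδ hδ1 hk
    refine le_trans ?_ h1
    unfold LW.Bd
    have hk0 : 0 < k := by linarith
    have h2 : L a b / (δ * L a b / k) ≤ L a b / (δ ^ 2 * L a b / k) := by
      have h3 : δ ^ 2 ≤ δ := by nlinarith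
      gcongr
    refine Real.rpow_le_rpow (le_trans zero_le_one (le_max_left _ _)) (max_le_max le_rfl h2)
      (by positivity)
  rcases le_total (δ * L a b) (1 + 4 * (Cg + Ch)) with h | h
  · obtain ⟨hf, h1⟩ := hall a b hq r hr (δ * L a b) (by positivity) h
    refine (LW.ncard_of_all hf h1).trans ?_
    have h2 := hBd 1 le_rfl
    rw [div_one, one_pow, one_mul] at h2
    refine le_trans ?_ (hmono C₁ (by linarith) (by linarith))
    gcongr
  rcases le_total (δ * L a b / 4) (Rst a b) with h' | h'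
  · obtain ⟨hf, h1⟩ := hrest a b hq r hr (δ * L a b / 4) (by positivity) h'
    refine (LW.ncard_of_all hf h1).trans ?_
    have h2 := hBd 4 (by norm_num)
    refine le_trans ?_ (hmono (4 * C₂) (by linarith) (by linarith))
    rw [mul_pow, mul_comm ((4 : ℝ) ^ (1 + r)) (C₂ ^ (1 + r)), mul_assoc]
    gcongr
  obtain ⟨g, g1, g2, g3⟩ := hht a b hq.ne
  obtain ⟨hfin, -⟩ := (Classical.choose_spec LR.main_T).2 a b hq r hr ∅
  have h1 := hA a b hq g ⟨g1, _, g2⟩ r hr (δ / 2) (by positivity) (by linarith)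
  have hsub : ({z | z ∈ integralPoints a b ∧
      Real.log (Int.gcd z.2 (D a b) : ℝ) ≤ (1 - δ) * L a b} : Set (ℤ × ℤ)) ⊆
      {z | z ∈ integralPoints a b ∧ δ / 2 * L a b ≤ g (LR.toPt hq.ne z)} := by
    intro z hz
    refine ⟨hz.1, ?_⟩
    have e1 := hgcd a b hq z hz.1
    have e2 := g3 (LR.toPt hq.ne z)
    have e3 := hz.2
    linarith
  have hfin' : ({z | z ∈ integralPoints a b ∧ δ / 2 * L a b ≤ g (LR.toPt hq.ne z)} :
      Set (ℤ × ℤ)).Finite := hfin.subset fun z hz => hz.1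
  have h2 := Set.ncard_le_ncard hsub hfin'
  have h3 : (({z | z ∈ integralPoints a b ∧
      Real.log (Int.gcd z.2 (D a b) : ℝ) ≤ (1 - δ) * L a b} : Set (ℤ × ℤ)).ncard : ℝ) ≤
      (({z | z ∈ integralPoints a b ∧ δ / 2 * L a b ≤ g (LR.toPt hq.ne z)} :
      Set (ℤ × ℤ)).ncard : ℝ) := by exact_mod_cast h2
  refine h3.trans (h1.trans ?_)
  have e0 : 1 / (δ / 2) = 2 * (1 / δ) := by field_simp
  have h4 : (2 : ℝ) ^ (2 + r) ≤ 4 ^ (1 + r) := by
    have h5 : (4 : ℝ) = 2 ^ 2 := by norm_num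
    rw [h5, ← pow_mul]
    exact pow_le_pow_right₀ (by norm_num) (by omega)
  calc C₃ ^ (1 + r) * (1 / (δ / 2)) ^ (2 + r)
      = C₃ ^ (1 + r) * 2 ^ (2 + r) * (1 / δ) ^ (2 + r) := by rw [e0, mul_pow]; ring
    _ ≤ C₃ ^ (1 + r) * 4 ^ (1 + r) * (1 / δ) ^ (2 + r) := by gcongr
    _ = (4 * C₃) ^ (1 + r) * (1 / δ) ^ (2 + r) := by rw [mul_pow]; ring
    _ ≤ C ^ (1 + r) * (1 / δ) ^ (2 + r) := hmono (4 * C₃) (by linarith) (by linarith)

end Pool.Agent.H24.LX
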